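import Pool.Agent.Lib.MP_688fd0_co.SQ5.H60.Geo3
import Pool.Agent.Lib.MP_688fd0_co.SQ5.H95.WinD

/-!
MP_688fd0_co, type C2, FT, DEGEN3 (helper60): the six gadgets as windows of the instance `inst` (`wc_d3`), as helper95's
`wc_gad`.
-/

set_option autoImplicit false

namespace Pool.Agent.Lib.MP_688fd0_co.SQ5.H60

open Function Pool.Agent.Lib.MP_688fd0_co.OSF
open Pool.Agent.Lib.MP_688fd0_co.SQ5.H64 Pool.Agent.Lib.MP_688fd0_co.SQ5.H76 Pool.Agent.Lib.MP_688fd0_co.SQ5.H95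
open Pool.Agent.Lib.MP_688fd0_co.SQ3 Pool.Agent.Lib.MP_688fd0_co.SQ5.H58
open Pool.Agent.Lib.MP_688fd0_co.SQ5.H20 (Wl wp wx ps WC rgZ LG KG SG B8)

universe u v

/-- The gadgets: wall `J`, phase `x`, height `i`. -/
def Gt (Wd J x : ℤ) (i : ℕ) : Prop :=
  (J = Wd ∧ (x % 8 = 5 ∨ x % 8 = 7) ∧ i = 1) ∨ (J = Wd + 1 ∧ (x % 8 = 1 ∨ x % 8 = 3 ∨ x % 8 = 6) ∧ i = 1) ∨
    (J = Wd + 1 ∧ x % 8 = 0 ∧ i = 5)

theorem Gt.congr {Wd J x x' : ℤ} {i : ℕ} (h : Gt Wd J x i) (hx : x % 8 = x' % 8) : Gt Wd J x' i := by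
  unfold Gt at h ⊢
  rwa [← hx]

section gt

variable {Q : Type u} [Group Q] {B : Lb.{u, v} Q} {l : L3 → B.L} {D : Bd} {s0 ph Wd κ0 κ1 : ℤ}

theorem Gt.hg {J : ℤ} {i m0 : ℕ} (h : Gt Wd J (ph + m0) i) (H : D3 D s0 ph Wd)
    (hd : Deg (B.q (l .a)) (B.q (l .b)) (B.q (l .t))) (hκ0 : κ0 ≤ Wd) (hκ1 : Wd + 3 ≤ κ1) :
    ∃ W, HG B l D s0 κ0 κ1 m0 i J W := by
  rcases h with ⟨rfl, h1, rfl⟩ | ⟨rfl, h1, rfl⟩ | ⟨rfl, h1, rfl⟩
  · exact ⟨_, (phs0 H hκ0 hκ1 h1).hg H hd⟩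
  · exact ⟨_, (phs1 H hκ0 hκ1 h1).hg H hd⟩
  · exact ⟨_, (phs5 H hκ0 hκ1 h1).hg H hd⟩

theorem Gt.clo {J : ℤ} {i m0 : ℕ} (h : Gt Wd J (ph + m0) i) (H : D3 D s0 ph Wd)
    (hd : Deg (B.q (l .a)) (B.q (l .b)) (B.q (l .t))) (v0 : Q) :
    hE (qq B l) (fun j => D.b (s0 + (m0 + j : ℕ))) v0 i = hB (qq B l) (fun j => D.b (s0 + (m0 + j : ℕ))) v0 i *
      (B.q (l (wl (D.b (s0 + (m0 + i : ℕ))))) * B.q (l (ow (D.b (s0 + (m0 + i : ℕ)))))) := by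
  have hb : ∀ j : ℕ, D.b (s0 + (m0 + j : ℕ)) = bw (ph + m0 + j) := fun j => by
    rw [H.b]
    push_cast
    rw [add_assoc]
  rcases h with ⟨rfl, h1, rfl⟩ | ⟨rfl, h1, rfl⟩ | ⟨rfl, h1, rfl⟩
  · refine clo_one hd (b := fun j => D.b (s0 + (m0 + j : ℕ))) ?_ v0
    show D.b (s0 + (m0 + 1 : ℕ)) ≠ D.b (s0 + (m0 + 0 : ℕ))
    rw [hb, hb, bwT (x := ph + m0 + (1 : ℕ)) (by push_cast; omega), bwF (x := ph + m0 + (0 : ℕ)) (by push_cast; omega)]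
    decide
  · refine clo_one hd (b := fun j => D.b (s0 + (m0 + j : ℕ))) ?_ v0
    show D.b (s0 + (m0 + 1 : ℕ)) ≠ D.b (s0 + (m0 + 0 : ℕ))
    rw [hb, hb, bwF (x := ph + m0 + (1 : ℕ)) (by push_cast; omega), bwT (x := ph + m0 + (0 : ℕ)) (by push_cast; omega)]
    decide
  · refine clo_five hd (b := fun j => D.b (s0 + (m0 + j : ℕ))) ?_ ?_ ?_ ?_ ?_ ?_ v0
    · exact (hb 0).trans (bwT (by push_cast; omega))
    · exact (hb 1).trans (bwT (by push_cast; omega))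
    · exact (hb 2).trans (bwF (by push_cast; omega))
    · exact (hb 3).trans (bwT (by push_cast; omega))
    · exact (hb 4).trans (bwF (by push_cast; omega))
    · exact (hb 5).trans (bwF (by push_cast; omega))

end gt

section main

variable {L : AddSubgroup (ℤ × ℤ)} {M R : ℕ} {dc : ℕ → ℤ} {spc : ℕ → Prop} {Gr : ℤ} {g : Geo L M R dc spc Gr} {m0 : ℕ}
  {hw : ℤ → ℕ} (H : Geo.Mn g m0 hw)

variable {Q : Type u} [Group Q] [Finite Q] {B : Lb.{u, v} Q} {l : L3 → B.L} (c : Cov B l L) (hi : ∀ i, B.inv (l i) = l i)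
  (hq : Injective (qq B l)) (hii : ∀ x, B.inv (B.inv x) = x) {κ0 κ1 : ℤ}

/-- THE WINDOWS of the gadgets, at any level. -/
theorem wc_d3 (h0 : 2 ≤ κ0) (h1 : κ1 ≤ m0) {p : ℕ} (hp : 2 ≤ p) (hN : ∀ z : Zr g, p ≤ g.rE z) (z : Zr g)
    [DecidableEq (SS c H κ0 κ1 z)] {A : Set Q} (hA : ∀ i, B.q (l i) ∈ A) {ph Wd : ℤ}
    (X : D3 (H.bd z) (g.rs z) ph Wd) (hd : Deg (B.q (l .a)) (B.q (l .b)) (B.q (l .t))) (hκ0 : κ0 ≤ Wd)
    (hκ1 : Wd + 3 ≤ κ1) {P0 : ℕ} {U : Q}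
    (hU : PU B l (H.bd z) (g.rs z) P0 U) (hcm : ∀ s : SS c H κ0 κ1 z, s.1.2 * U = U * s.1.2)
    (h8 : (8 : ℤ) ∣ P0) (hP0 : 0 < P0) (hP : 3 * P0 ≤ p) {J : ℤ} {y : Q} (hW : Wl c (H.bd z) (g.rs z) κ0 κ1 J y) {m : ℤ}
    {i : ℕ} (hG : Gt Wd J (ph + m) i) :
    WC (fun n => {d | StkT ((inst H c hi hq hii κ0 κ1 h0 h1 p hp hN).D0 A z) n d}) (3 * (i + 1)) 1
      (rgZ (wp hi hW) m) (rgZ (wp hi hW) (m + i)) := by
  classical
  have h0i : i ≤ 5 := by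
    rcases hG with ⟨-, -, rfl⟩ | ⟨-, -, rfl⟩ | ⟨-, -, rfl⟩ <;> norm_num
  have hiP : i ≤ P0 := by
    obtain ⟨w, hw⟩ := h8
    omega
  -- the level in the layer
  obtain ⟨q, m', e1, e2, e3⟩ : ∃ (q : ℤ) (m' : ℕ), (m' : ℤ) = m + P0 * q ∧ P0 ≤ m' ∧ m' < 2 * P0 := by
    have hpos : (0 : ℤ) < P0 := by exact_mod_cast hP0
    have a1 := Int.emod_nonneg m (ne_of_gt hpos)
    have a2 := Int.emod_lt_of_pos m hpos
    have a3 := Int.emod_add_mul_ediv m P0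
    refine ⟨1 - m / P0, (m % P0 + P0).toNat, ?_, ?_, ?_⟩
    · rw [Int.toNat_of_nonneg (by omega)]
      linear_combination a3
    · omega
    · omega
  have h8' : ∀ j : ℤ, (ph + ((m' : ℤ) + j)) % 8 = (ph + (m + j)) % 8 := by
    intro j
    obtain ⟨w, hw⟩ := h8
    have e4 : ph + ((m' : ℤ) + j) = ph + (m + j) + 8 * (w * q) := by rw [e1, hw]; ring
    rw [e4, Int.add_mul_emod_self_left]
  have h8'' : (ph + (m' : ℤ)) % 8 = (ph + m) % 8 := by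
    have := h8' 0
    rwa [add_zero, add_zero] at this
  have hE : m' + i < g.rE z := by
    have := hN z
    omega
  set ω := wp hi hW with hω
  have hκ : ∀ n : ℤ, (ω n).1.1 = J + (H.bd z).cs (g.rs z + n) := fun n => H20.wp_κ hi hW n
  have hcs : ∀ j : ℤ, (H.bd z).cs (g.rs z + ((m' : ℤ) + j)) = (H.bd z).cs (g.rs z + (m + j)) := by
    intro j
    rw [X.cs, X.cs]
    rw [col_congr (h8' j)]
  have hcs0 : (H.bd z).cs (g.rs z + (m' : ℤ)) = (H.bd z).cs (g.rs z + m) := by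
    have := hcs 0
    rwa [add_zero, add_zero] at this
  -- the start
  have hv : c.Over (ps (ω m) m') ((H.bd z).st (J + (H.bd z).cs (g.rs z + m')) (g.rs z + m') 0) := by
    rw [H20.ps_eq, hcs0, ← hκ m]
    exact (c.over_pos hi (H.bd z) (g.rs z) (ω m).1.1 m' 0).2 (ω m).2.2.2
  have hG' : Gt Wd J (ph + m') i := hG.congr h8''.symm
  obtain ⟨W, hHG⟩ := hG'.hg (κ0 := κ0) (κ1 := κ1) X hd hκ0 hκ1
  obtain ⟨ω', As, σ, b1, b2, b3, b4, b5, b6, b7, b8, b9, F', b10, b11, b12⟩ := hHG.gadget (H.rg z h0 h1) X.b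
    (inj_l hq) hi hq hii hE hv (hG'.clo X hd _)
  -- the strands of the wall
  have key : ∀ j : ℕ, j ≤ i + 1 → ω' (m' + j) = ω (m + j) := by
    intro j hj
    obtain ⟨c1, c2⟩ := b1 j hj
    refine H20.ps_inj (m := ((m' + j : ℕ) : ℤ)) ?_ ?_
    · rw [c1, hκ]
      push_cast
      rw [hcs]
    · rw [← H20.ps_Z, c2]
      have e5 : ((m' + j : ℕ) : ℤ) = m + j + P0 * q := by push_cast; rw [e1]; ring
      rw [e5, ps_per hU (ω (m + j)) (hcm _), H20.ps_wp]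
      rw [e1, ps_per hU (ω m) (hcm _), H20.ps_wp, wx_pr X.b, mul_assoc]
      congr 2
      refine H20.pr_congr j fun n _ => LG_congr _ _ _ ?_
      have := h8' n
      rw [e1] at this
      rw [add_assoc ph, add_assoc ph]
      exact this
  have k0 : ω' m' = ω m := by
    have := key 0 (by omega)
    rwa [Nat.cast_zero, add_zero, add_zero] at this
  have k1 : ω' (m' + 1) = ω (m + 1) := by
    have := key 1 (by omega)
    rwa [Nat.cast_one] at this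
  have k2 : ω' (m' + i) = ω (m + i) := key i (by omega)
  have k3 : ω' (m' + i + 1) = ω (m + i + 1) := by
    have := key (i + 1) (by omega)
    rw [← add_assoc] at this
    push_cast at this
    rw [← add_assoc] at this
    exact this
  rw [k0, k1] at b6 b9 b12
  rw [k0] at b4 b7
  rw [k1] at b5 b8
  rw [k3] at b7
  rw [k2] at b8
  refine ⟨As, b2, ω m, ω (m + 1), ω (m + i + 1), ω (m + i), rfl, by unfold rgZ; exact Sym2.eq_swap, b6, b4, b5, σ, b3, b7,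
    b8, StkT.one ⟨b9, F', m', m' + i, by omega, by omega, ?_, ?_, ?_, b12⟩⟩
  · show m' + i ≤ p - 1
    omega
  · intro x hx
    rw [b10 x hx]
    have e1 : ff c hi hq hii g = _ := ff_eq c hi hq hii
    rw [← e1]
  · intro x _ y hy
    obtain ⟨j, hj⟩ := b11 x y hy
    rw [hj]
    exact hA j

end main

end Pool.Agent.Lib.MP_688fd0_co.SQ5.H60
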