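import Pool.Agent.Lib.MP_688fd0_co.SQ5.H60.Hw3
import Pool.Agent.Lib.MP_688fd0_co.SQ5.H60.Win3
import Pool.Agent.Lib.MP_688fd0_co.SQ5.H49.BaseW
import Pool.Agent.Lib.MP_688fd0_co.SQ5.H64.Deg3C
import Pool.Agent.Lib.MP_688fd0_co.SQ5.H95.WinP
import Pool.Agent.Lib.MP_688fd0_co.SQ5.FT.MnD

/-!
MP_688fd0_co, type C2, FT, DEGEN3 (helper60): THE BASE of the threads for the degenerate layout, from the rows of its two windows.
-/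

set_option autoImplicit false

namespace Pool.Agent.Lib.MP_688fd0_co.SQ5.H60

open Function Pool.Agent.Lib.MP_688fd0_co.OSF
open Pool.Agent.Lib.MP_688fd0_co.SQ5.H64 Pool.Agent.Lib.MP_688fd0_co.SQ5.H76 Pool.Agent.Lib.MP_688fd0_co.SQ5.H95
open Pool.Agent.Lib.MP_688fd0_co.SQ5.FT Pool.Agent.Lib.MP_688fd0_co.SQ5.H53
open Pool.Agent.Lib.MP_688fd0_co.SQ3 Pool.Agent.Lib.MP_688fd0_co.SQ5.H58
open Pool.Agent.Lib.MP_688fd0_co.SQ5.H49.BaseZ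

universe v

variable {Q : Type} [Group Q] [Fintype Q] {N C : Subgroup Q} {eps : Q →* ℤˣ} {k P : ℕ} {x : Fin 3 → Q} (Hx : Inv3 eps x)
  {B : Lb.{0, v} Q} {l : L3 → B.L} {t a b : Fin 3} (hta : t ≠ a) (htb : t ≠ b) (hab : a ≠ b) (ht : B.q (l .t) = x t)
  (ha : B.q (l .a) = x a) (hb : B.q (l .b) = x b)

/-- THE BASE of the threads, the rows of the windows are hypotheses. -/
theorem baseT_D0 {cS : ℕ} {A : Set Q} (gn : GN N C eps k P)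
    (hi : ∀ i, B.inv (l i) = l i) (hq : Injective (qq B l))
    (hii : ∀ x, B.inv (B.inv x) = x) {e : ℕ} (he : k * Nat.card C ∣ e) (he0 : 1 ≤ e)
    (hd : Deg (B.q (l .a)) (B.q (l .b)) (B.q (l .t)))
    {M R : ℕ} {dc : ℕ → ℤ} {spc : ℕ → Prop} {Gr : ℤ}
    {g : Geo (Ltc (ct eps (x a * x t)) (ct eps (x b * x t))) M R dc spc Gr} {m0 : ℕ} {hw : ℤ → ℕ}
    (H : Geo.Mn g m0 hw) {r : ℕ} (hm0 : 2 * r + 9 ≤ m0) (T : Two3 hw r) (hEt : 4 ≤ g.w.Et)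
    (hc : H66.Chg g) (hG : 64 ≤ Gr) (hdl : ∀ k, k + 1 < R → spc k → g.dl k + 20 ≤ Gr)
    (hsea : ∀ K : ℤ, K % R = R - 1 → ∀ s, (g.P K s - g.P (K + 1) s) % 8 = 0 ∨ (g.P K s - g.P (K + 1) s) % 8 = 3)
    {mm K gap : ℕ} (hmm : 0 < mm) (hK : 8 * Nat.card (K0 eps) ≤ K)
    (hgap : (K + 2) * (((cS * K ^ 2 + 1) * mm) * (8 * e)) ≤ gap) (hlen : ∀ z : Zr g, gap + 8 * e ≤ g.rE z)
    {κ0 κ1 : ℤ} (hκ0 : κ0 ≤ r + 2) (hκ1 : r + 9 ≤ κ1)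
    (h0 : 2 ≤ κ0) (h1 : κ1 ≤ m0) (hp : 2 ≤ 8 * e) (hN : ∀ z : Zr g, 8 * e ≤ g.rE z)
    [∀ z : Zr g, DecidableEq (SS (Hx.co hta htb hab ht ha hb).cov H κ0 κ1 z)]
    (hiso : ∀ Wd : ℤ, (Wd = r + 2 ∨ Wd = r + 6) → ∀ z x, ∃ y,
      (LamV H (Hx.co hta htb hab ht ha hb).cov κ0 κ1 Wd (Wd + 3) z).Adj x y)
    (h4 : ∀ Wd : ℤ, (Wd = r + 2 ∨ Wd = r + 6) → ∀ z x y, (LamV H (Hx.co hta htb hab ht ha hb).cov κ0 κ1 Wd (Wd + 3) z).Adj x y →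
      Four (LamV H (Hx.co hta htb hab ht ha hb).cov κ0 κ1 Wd (Wd + 3) z) x ∨
        Four (LamV H (Hx.co hta htb hab ht ha hb).cov κ0 κ1 Wd (Wd + 3) z) y)
    (hp3 : ∀ Wd : ℤ, (Wd = r + 2 ∨ Wd = r + 6) → ∀ z
      (x y y' : VV (Hx.co hta htb hab ht ha hb).cov H κ0 κ1 Wd (Wd + 3) z),
      (LamV H (Hx.co hta htb hab ht ha hb).cov κ0 κ1 Wd (Wd + 3) z).Adj x y →
      (LamV H (Hx.co hta htb hab ht ha hb).cov κ0 κ1 Wd (Wd + 3) z).Adj x y' → y ≠ y' →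
      StkT ((inst H (Hx.co hta htb hab ht ha hb).cov hi hq hii κ0 κ1 h0 h1 (8 * e) hp hN).D0 A z) mm
        (p3 x.1 y.1 y'.1)) :
    ∃ U : Q, (∀ y, eps y = 1 → y * U = U * y) ∧
      BaseT A cS (inst H (Hx.co hta htb hab ht ha hb).cov hi hq hii κ0 κ1 h0 h1 (8 * e) hp hN)
        (VV (Hx.co hta htb hab ht ha hb).cov H κ0 κ1 (r + 2) (r + 9))
        (W2 H (Hx.co hta htb hab ht ha hb).cov κ0 κ1 (r + 5))
        (Lam2 H (Hx.co hta htb hab ht ha hb).cov κ0 κ1 (r + 2) (r + 5) (r + 9)) (fun _ => U)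
        (fun _ => (cS * K ^ 2 + 1) * mm) (fun _ => mm) (fun _ => gap) (fun _ => ()) := by
  obtain ⟨U, hU1, hU2, hU3, hper⟩ := inst_per Hx hta htb hab ht ha hb gn hi hq hii he he0
  have hex : ∀ (z : Zr g) (κ : ℤ), ∃ y : Q, (Hx.co hta htb hab ht ha hb).cov.Over y ((H.bd z).st κ (g.rs z) 0) := by
    intro z κ
    obtain ⟨i, j, hs⟩ := (H.bd z).st_zero κ (g.rs z)
    rw [hs]
    exact exists_over Hx hta htb hab ht ha hb i j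
  have hconn := conn_D H (Hx.co hta htb hab ht ha hb).cov hi hq hii T h0 h1 hp hN hκ0 hκ1 hEt hd
    (HConn.hF_cov Hx hta htb hab ht ha hb) hex
  have e1 : (r : ℤ) + 2 + 3 = r + 5 := by ring
  have e2 : (r : ℤ) + 6 + 3 = r + 9 := by ring
  have e3 : (r : ℤ) + 6 = r + 5 + 1 := by ring
  refine ⟨U, hU2, baseT_of_rows Hx hta htb hab ht ha hb hi hq hii he0 H h0 h1 hp hN hc hG hdl hsea (c1 := r + 1)
    (c2 := r + 1) le_rfl (by omega) (by omega) (by omega) (by push_cast; omega) (by push_cast; omega) (by omega)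
    (by omega) hmm ?_ hgap hlen (hper H h0 h1 hp hN) ?_ ?_ ?_ ?_ ?_ ?_ hconn⟩
  · refine le_trans (Nat.mul_le_mul_right _ ?_) hK
    omega
  · have h := hiso (r + 2) (Or.inl rfl)
    rwa [e1] at h
  · have h := hiso (r + 6) (Or.inr rfl)
    rwa [e2, e3] at h
  · have h := h4 (r + 2) (Or.inl rfl)
    rwa [e1] at h
  · have h := h4 (r + 6) (Or.inr rfl)
    rwa [e2, e3] at h
  · have h := hp3 (r + 2) (Or.inl rfl)
    rwa [e1] at h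
  · have h := hp3 (r + 6) (Or.inr rfl)
    rwa [e2, e3] at h

/-! ### The windows -/

section win

variable {L : AddSubgroup (ℤ × ℤ)} {M R : ℕ} {dc : ℕ → ℤ} {spc : ℕ → Prop} {Gr : ℤ} {g : Geo L M R dc spc Gr} {m0 : ℕ}
  {hw : ℤ → ℕ} (H : Geo.Mn g m0 hw) (c : Cov B l L) (hi : ∀ i, B.inv (l i) = l i)
  (hq : Injective (qq B l)) (hii : ∀ x, B.inv (B.inv x) = x) {κ0 κ1 : ℤ}

/-- The six windows of 64. -/
theorem win6_d3 (h0 : 2 ≤ κ0) (h1 : κ1 ≤ m0) {p : ℕ} (hp : 2 ≤ p) (hN : ∀ z : Zr g, p ≤ g.rE z) (z : Zr g)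
    [DecidableEq (SS c H κ0 κ1 z)] {A : Set Q} (hA : ∀ i, B.q (l i) ∈ A) {ph Wd : ℤ}
    (X : D3 (H.bd z) (g.rs z) ph Wd) (hd : Deg (B.q (l .a)) (B.q (l .b)) (B.q (l .t))) (hκ0 : κ0 ≤ Wd)
    (hκ1 : Wd + 3 ≤ κ1) {P0 : ℕ} {U : Q}
    (hU : PU B l (H.bd z) (g.rs z) P0 U) (hcm : ∀ s : SS c H κ0 κ1 z, s.1.2 * U = U * s.1.2)
    (h8 : (8 : ℤ) ∣ P0) (hP0 : 0 < P0) (hP : 3 * P0 ≤ p) :
    H64.D3.Win6 (fun n => {d | StkT ((inst H c hi hq hii κ0 κ1 h0 h1 p hp hN).D0 A z) n d}) hi ph Wd 18 1 := by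
  have key : ∀ (J x : ℤ) (i : ℕ) (i' : ℤ), (i : ℤ) = i' → i ≤ 5 → 0 ≤ x → x < 8 → Gt Wd J x i →
      H64.D3.Wn (fun n => {d | StkT ((inst H c hi hq hii κ0 κ1 h0 h1 p hp hN).D0 A z) n d}) hi ph 18 1 J x i' := by
    intro J x i i' hi' hi5 hx hx8 hG
    subst hi'
    have e : (ph + (x - ph)) % 8 = x := by omega
    refine ⟨x - ph, e, fun y hW => ?_⟩
    have hG' : Gt Wd J (ph + (x - ph)) i := by
      rw [add_sub_cancel]
      exact hG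
    exact (wc_d3 H c hi hq hii h0 h1 hp hN z hA X hd hκ0 hκ1 hU hcm h8 hP0 hP hW hG').mono (by omega)
  exact ⟨key _ _ 1 _ rfl (by norm_num) (by norm_num) (by norm_num) (Or.inl ⟨rfl, Or.inl rfl, rfl⟩),
    key _ _ 1 _ rfl (by norm_num) (by norm_num) (by norm_num) (Or.inl ⟨rfl, Or.inr rfl, rfl⟩),
    key _ _ 1 _ rfl (by norm_num) (by norm_num) (by norm_num) (Or.inr (Or.inl ⟨rfl, Or.inl rfl, rfl⟩)),
    key _ _ 1 _ rfl (by norm_num) (by norm_num) (by norm_num) (Or.inr (Or.inl ⟨rfl, Or.inr (Or.inl rfl), rfl⟩)),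
    key _ _ 1 _ rfl (by norm_num) (by norm_num) (by norm_num) (Or.inr (Or.inl ⟨rfl, Or.inr (Or.inr rfl), rfl⟩)),
    key _ _ 5 _ rfl (by norm_num) (by norm_num) (by norm_num) (Or.inr (Or.inr ⟨rfl, rfl, rfl⟩))⟩

end win

/-- The number of layers for the flat P3's. -/
def mmD : ℕ := Nat.factorial (8 * 18) * (8 * 1)

theorem mmD_pos : 0 < mmD := Nat.mul_pos (Nat.factorial_pos _) (by norm_num)

/-- THE BASE of the threads, DEGENERATE CASE. -/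
theorem baseT_D {cS : ℕ} {A : Set Q} (gn : GN N C eps k P) (hk0 : 0 < k)
    (hi : ∀ i, B.inv (l i) = l i) (hq : Injective (qq B l))
    (hii : ∀ x, B.inv (B.inv x) = x) {e : ℕ} (he : k * Nat.card C ∣ e) (he3 : 3 * (k * Nat.card C) ≤ e)
    (hA : ∀ i, B.q (l i) ∈ A) (hd : Deg (x a) (x b) (x t))
    {M R : ℕ} {dc : ℕ → ℤ} {spc : ℕ → Prop} {Gr : ℤ}
    {g : Geo (Ltc (ct eps (x a * x t)) (ct eps (x b * x t))) M R dc spc Gr} {m0 : ℕ} {hw : ℤ → ℕ}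
    (H : Geo.Mn g m0 hw) {r : ℕ} (hm0 : 2 * r + 9 ≤ m0) (T : Two3 hw r)
    {kq nh m TT : ℤ} {ks : ℕ} (hL : H24.Lay g kq nh m TT ks) (hkq : (k : ℤ) ∣ kq) (hkq1 : 1 ≤ kq) (hnh : 4 ≤ nh)
    (hc : H66.Chg g) (hG : 64 ≤ Gr) (hdl : ∀ k, k + 1 < R → spc k → g.dl k + 20 ≤ Gr)
    (hsea : ∀ K : ℤ, K % R = R - 1 → ∀ s, (g.P K s - g.P (K + 1) s) % 8 = 0 ∨ (g.P K s - g.P (K + 1) s) % 8 = 3)
    {K gap : ℕ} (hK : 8 * Nat.card (K0 eps) ≤ K)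
    (hgap : (K + 2) * (((cS * K ^ 2 + 1) * mmD) * (8 * e)) ≤ gap) (hlen : ∀ z : Zr g, gap + 8 * e ≤ g.rE z)
    (h0 : (2 : ℤ) ≤ r + 1) (h1 : (r : ℤ) + 10 ≤ m0) (hp : 2 ≤ 8 * e) (hN : ∀ z : Zr g, 8 * e ≤ g.rE z)
    [∀ z : Zr g, DecidableEq (SS (Hx.co hta htb hab ht ha hb).cov H (r + 1) (r + 10) z)] :
    ∃ U : Q, (∀ y, eps y = 1 → y * U = U * y) ∧
      BaseT A cS (inst H (Hx.co hta htb hab ht ha hb).cov hi hq hii (r + 1) (r + 10) h0 h1 (8 * e) hp hN)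
        (VV (Hx.co hta htb hab ht ha hb).cov H (r + 1) (r + 10) (r + 2) (r + 9))
        (W2 H (Hx.co hta htb hab ht ha hb).cov (r + 1) (r + 10) (r + 5))
        (Lam2 H (Hx.co hta htb hab ht ha hb).cov (r + 1) (r + 10) (r + 2) (r + 5) (r + 9)) (fun _ => U)
        (fun _ => (cS * K ^ 2 + 1) * mmD) (fun _ => mmD) (fun _ => gap) (fun _ => ()) := by
  have hd' : Deg (B.q (l .a)) (B.q (l .b)) (B.q (l .t)) := by rw [ha, hb, ht]; exact hd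
  have hC : 0 < Nat.card C := Nat.card_pos
  have hkC : 0 < k * Nat.card C := Nat.mul_pos hk0 hC
  obtain ⟨ρ, ty, hreg⟩ := hL.reg
  obtain ⟨z1, a1, a2, -, -⟩ := H48.stretch_lam hreg (by have := g.c0_nonneg; exact this) hkq1 hnh hkq
  obtain ⟨U0, -, -, hU⟩ := pu_bd Hx hta htb hab ht ha hb gn hi (dvd_refl (k * Nat.card C))
  have hX : ∀ (z : ℤ) (Wd : ℤ), (Wd = r + 2 ∨ Wd = r + 6) → D3 (H.bd z) (g.rs z) (g.rp z) Wd := by
    rintro z Wd (rfl | rfl)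
    · exact T.lo z
    · exact T.up z
  refine baseT_D0 Hx hta htb hab ht ha hb gn hi hq hii he (by omega) hd' H hm0 T (by omega) hc hG hdl hsea mmD_pos hK
    hgap hlen (κ0 := r + 1) (κ1 := r + 10) (by omega) (by omega) h0 h1 hp hN ?_ ?_ ?_
  · intro Wd hWd z s
    have hW0 : (r : ℤ) + 1 ≤ Wd := by omega
    have hW1 : Wd + 3 ≤ (r : ℤ) + 10 := by omega
    exact H64.D3.deg3_iso hi hd' (hX z Wd hWd) hW0 hW1
      (H64.D3.TT.of_lam _ (H.bd z) (g.rs z) _ _ rfl rfl) s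
  · intro Wd hWd z s y h
    have hW0 : (r : ℤ) + 1 ≤ Wd := by omega
    have hW1 : Wd + 3 ≤ (r : ℤ) + 10 := by omega
    exact H64.D3.deg3_four hi hd' (hX z Wd hWd) hW0 hW1
      (H64.D3.TT.of_lam _ (H.bd z) (g.rs z) _ _ rfl rfl) s y h
  · intro Wd hWd z s y y' h h' hyy
    have hW0 : (r : ℤ) + 1 ≤ Wd := by omega
    have hW1 : Wd + 3 ≤ (r : ℤ) + 10 := by omega
    obtain ⟨hU1, hU2⟩ := hU H z
    have hA' : ∀ d : (ff (Hx.co hta htb hab ht ha hb).cov hi hq hii g).X, B.q d.1.2 ∈ A := ff_A _ _ _ _ hA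
    have h6 := win6_d3 H (Hx.co hta htb hab ht ha hb).cov hi hq hii h0 h1 hp hN z hA (hX z Wd hWd) hd' hW0 hW1 hU1
        (fun s => hU2 s) (by push_cast; exact dvd_mul_right _ _) (by omega) (by omega)
    exact H64.D3.deg3_stk hi hd' (hX z Wd hWd) hW0 hW1
      (H64.D3.TT.of_lam _ (H.bd z) (g.rs z) _ _ rfl rfl)
      (Rgs.D0_pair (inst H (Hx.co hta htb hab ht ha hb).cov hi hq hii (r + 1) (r + 10) h0 h1 (8 * e) hp hN) z)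
      (Rgs.idd_D0 _ hA' z) h6 s y y' h h' hyy

/-- The half widths of helper62's degenerate layout. -/
theorem two3_hwD {r : ℕ} {D : ℤ} (hD : D % 4 = 0) (hD6 : 6 ≤ D) : Two3 (hwD r D) r where
  a0 := by rw [hwD_two (by omega) (by omega) (by omega)]
  a1 := hwD_two (by omega) (by omega) (by omega)
  a2 := hwD_one (Or.inl rfl)
  a3 := hwD_two (by omega) (by omega) (by omega)
  a4 := (hwD_wide_even r hD6 hD).1
  a5 := hwD_two (by omega) (by omega) (by omega)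
  a6 := hwD_one (Or.inr rfl)
  a7 := hwD_two (by omega) (by omega) (by omega)
  a8 := by rw [hwD_two (by omega) (by omega) (by omega)]

end Pool.Agent.Lib.MP_688fd0_co.SQ5.H60
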