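import Pool.Agent.Lib.MP_688fd0_co.SQ5.H98.LstT2
import Pool.Agent.Lib.MP_688fd0_co.SQ5.H84.BaseFD
import Pool.Agent.Lib.MP_688fd0_co.SQ5.H84.NumMono
import Pool.Agent.Lib.MP_688fd0_co.SQ5.H87.Star4

/-!
MP_688fd0_co, type C2, FT, DEGEN3 (helper60): THE DEGENERATE BRANCH of FAR (`lst_D`): the output of helper84's `nums_lay` for the
degenerate layout gives `Lst A`.
-/

set_option autoImplicit false

namespace Pool.Agent.Lib.MP_688fd0_co.SQ5.H60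

open Function Pool.Agent.Lib.MP_688fd0_co.OSF Pool.Agent.Lib.MP_688fd0_co.SQ5.H64 Pool.Agent.Lib.MP_688fd0_co.SQ5.H95
  Pool.Agent.Lib.MP_688fd0_co.SQ5.FT Pool.Agent.Lib.MP_688fd0_co.SQ5.H76 Pool.Agent.Lib.MP_688fd0_co.SQ5.H85
  Pool.Agent.Lib.MP_688fd0_co.SQ5.H12 Pool.Agent.Lib.MP_688fd0_co.SQ5.H58 Pool.Agent.Lib.MP_688fd0_co.SQ5.H84
  Pool.Agent.Lib.MP_688fd0_co.SQ3 Pool.Agent.Lib.MP_688fd0_co.SQ5.H24 Pool.Agent.Lib.MP_688fd0_co.SQ5.H98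

/-- THE DEGENERATE BRANCH. -/
theorem lst_D {G : Type} [Group G] [Finite G] {N C : Subgroup G} {eps : G →* ℤˣ} {k P : ℕ} {A : Set G} {c₁ c₀ : ℕ}
    {a t b : G} (h : SQD.Inv N C eps k P A c₁ a t b) (hM : SQD.Marg N k c₀) (hc₀ : 1 ≤ c₀)
    (hout : ∃ g ∈ A, g ∉ Subgroup.closure ({a, t, b} : Set G))
    (hcen : ∀ o : ℕ, k * Nat.card C ∣ o → ∀ B : G, B ^ o ∈ N ∧ (∀ g, eps g = 1 → B ^ o * g = g * B ^ o) ∧
      ∀ g, eps g = -1 → g * B ^ o * g⁻¹ = (B ^ o)⁻¹)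
    {s a' b' : Fin 3} (hsa : s ≠ a') (hsb : s ≠ b') (hab : a' ≠ b')
    (hd : Deg (x0 (ivT h) a') (x0 (ivT h) b') (x0 (ivT h) s))
    {r n mm nh m TT Gr K E gap U : ℕ} (hr : 1 ≤ r)
    (hn : NumT (2 * r + 9) n k (8 * Nat.card (KH eps (Subgroup.closure ({a, t, b} : Set G)))) 4 mm (3 * (k * Nat.card C))
      (k * Nat.card C) (8 * (3 * (k * Nat.card C))) nh m TT Gr K E gap U) (hmm : mmD ≤ mm)
    (hn4 : (k + (Nat.card G).primeFactorsList.length + 2) ^ 4 ≤ n)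
    {D : ℤ} (hD4 : D % 4 = 0) (hD : 6 ≤ D) {R : ℕ} (hR0 : 2 * r + 9 + 5 ≤ R) (hR : R ≤ 2 * r + 9 + 33)
    {g : Geo (Ltc (hhT eps (Subgroup.closure ({a, t, b} : Set G)) ![a, t, b] a' -
        hhT eps (Subgroup.closure ({a, t, b} : Set G)) ![a, t, b] s)
        (hhT eps (Subgroup.closure ({a, t, b} : Set G)) ![a, t, b] b' -
          hhT eps (Subgroup.closure ({a, t, b} : Set G)) ![a, t, b] s))
      (Nat.card (Th eps (Subgroup.closure ({a, t, b} : Set G)))) R (dcL (2 * r + 9) (dW (dD r) (r + 4) D))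
      (spL (2 * r + 9)) (Gr : ℤ)}
    (hL : Lay g k nh m TT (2 * r + 9))
    (n1 : 2 * (Nat.card (Th eps (Subgroup.closure ({a, t, b} : Set G))) : ℤ) ≤
      (g.i0 + g.j0) * (D + H84.Wg (2 * r + 9) nh k))
    (n2 : g.i0 - g.j0 < 2 * K) (n3 : (E : ℤ) < g.i0 + g.j0)
    (n4 : (g.i0 + g.j0) * K ≤ Nat.card (Th eps (Subgroup.closure ({a, t, b} : Set G)))) : Lst A := by
  classical
  have : Fintype (Subgroup.closure ({a, t, b} : Set G)) := Fintype.ofFinite _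
  have gn := h.gn
  have hC : 0 < Nat.card C := Nat.card_pos
  have hk : 0 < k := by
    rw [← gn.idx]
    exact Nat.pos_of_ne_zero N.index_ne_zero_of_finite
  have hkC : 0 < k * Nat.card C := Nat.mul_pos hk hC
  have hp : 2 ≤ 8 * (3 * (k * Nat.card C)) := by omega
  have hN : ∀ z : Zr g, 8 * (3 * (k * Nat.card C)) ≤ g.rE z := by
    intro z
    have h2 := rE_ge g z
    have h3 : ((gap + 8 * (3 * (k * Nat.card C)) + 1 : ℕ) : ℤ) ≤ (Gr : ℕ) := by exact_mod_cast hn.hlen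
    push_cast at h3
    have h4 : ((8 * (3 * (k * Nat.card C)) : ℕ) : ℤ) ≤ (g.rE z : ℕ) := by
      push_cast
      linarith
    exact_mod_cast h4
  have hk0 : (2 : ℤ) ≤ (r : ℤ) + 1 := by omega
  have hk1 : (r : ℤ) + 10 ≤ (2 * r + 9 : ℕ) := by push_cast; omega
  obtain ⟨U0, -, b⟩ := base_D0 (ivT h) (B0 := BB0 h) (l0 := ll0 h s a' b') hsa hsb hab
    rfl rfl rfl gn (dvd_G0 h) (A0 := {y | (y : G) ∈ A}) lA0_inv (lA0_hq (xL_inj (inv_inj h) hsa hsb hab)) lA0_ii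
    (fun i => xL_A h s a' b' i) hd hr hD hD4 hR0 hR
    (Ltc_G0 (ivT h) s a' b') hL (hn.le_mm hmm) hk0 hk1 hp hN
  refine lst_br h hM hc₀ hout hcen hsa hsb hab hn hn4 hkC dvd_rfl hL (mnD hR0 (by omega) (by omega) g) (kk := r + 4)
    (by omega) (fun h => by have := h.1; omega) ?_ n2 n3 n4 H87.Star2.star4S b ?_ ?_ ?_ ?_ ?_ ?_
  · have e : dcL (2 * r + 9) (dW (dD r) (r + 4) D) (r + 4) = D := by
      rw [dcL_al (fun h => by have := h.1; omega), dW_self]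
    rw [e]
    exact n1
  · intro z y
    show (y.1.1 = (r : ℤ) + 5 ∨ y.1.1 = (r : ℤ) + 5 + 1) ↔ _
    push_cast
    omega
  · push_cast; omega
  · push_cast; omega
  · push_cast; omega
  · push_cast; omega
  · omega

end Pool.Agent.Lib.MP_688fd0_co.SQ5.H60
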