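import Pool.Agent.Lib.MP_688fd0_co.SQ5.H76.Chart

/-!
MP_688fd0_co, type C2, FT, DEGEN3 (helper60, finding 4381): the data.

`D3 D s0 ph Wd`: the bundle of one run (phase `ph` in block 0); the strip `Wd` has width 2, its neighbours width 4, the strips
`Wd - 2`, `Wd + 2` have widths divisible by 4. The active strands have the labels `Wd .. Wd + 3`.
`Deg a b t`: the group: `(a b)^2` and one of `(a t)^2`, `(b t)^2` commute with `a t`, `b t`; `a b`, `a t` do not commute.
-/

set_option autoImplicit false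

namespace Pool.Agent.Lib.MP_688fd0_co.SQ5.H60

open Pool.Agent.Lib.MP_688fd0_co.SQ5.H76

universe u

/-- The bundle of a run around a strip of width 2. -/
structure D3 (D : Bd) (s0 ph Wd : ℤ) : Prop where
  b : ∀ m : ℤ, D.b (s0 + m) = bw (ph + m)
  cs : ∀ m : ℤ, D.cs (s0 + m) = col (ph + m)
  h0 : D.hw Wd = 1
  h1 : D.hw (Wd - 1) = 2
  h2 : D.hw (Wd + 1) = 2
  e1 : D.hw (Wd - 2) % 2 = 0
  e2 : D.hw (Wd + 2) % 2 = 0

/-- The degenerate group. -/
structure Deg {Q : Type u} [Group Q] (a b t : Q) : Prop where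
  aa : a * a = 1
  bb : b * b = 1
  tt : t * t = 1
  z : Commute ((a * b) * (a * b)) (a * t)
  w : Commute ((a * t) * (a * t)) (a * b) ∨ Commute ((b * t) * (b * t)) (a * b)
  nc : ¬ Commute (a * b) (a * t)

namespace Deg

variable {Q : Type u} [Group Q] {a b t : Q} (H : Deg a b t)
include H

theorem ai : a⁻¹ = a := inv_eq_of_mul_eq_one_right H.aa
theorem bi : b⁻¹ = b := inv_eq_of_mul_eq_one_right H.bb
theorem ti : t⁻¹ = t := inv_eq_of_mul_eq_one_right H.tt

/-- `(a b)^2` commutes with `b t`. -/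
theorem zb : Commute ((a * b) * (a * b)) (b * t) := by
  have e : b * t = (a * b)⁻¹ * (a * t) := by
    rw [mul_inv_rev, H.ai, H.bi, mul_assoc, ← mul_assoc a a t, H.aa, one_mul]
  rw [e]
  exact (Commute.refl (a * b)).mul_left (Commute.refl (a * b)) |>.inv_right.mul_right H.z

end Deg

end Pool.Agent.Lib.MP_688fd0_co.SQ5.H60
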