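import Pool.Agent.Lib.MP_688fd0_co.SQ5.H53.HConn
import Pool.Agent.Lib.MP_688fd0_co.SQ5.H60.D3

/-!
MP_688fd0_co, type C2, FT, DEGEN3 (helper60): the window `[Wd, Wd + 3]` of a run is connected (`conn_d3`): the row of the label
over the lower wall of the 2-strip and the row of the label over its upper wall differ by the commutator `c0` of `a b`, `a t`,
which generates the commutator subgroup.
-/

set_option autoImplicit false

namespace Pool.Agent.Lib.MP_688fd0_co.SQ5.H60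

open Pool.Agent.Lib.MP_688fd0_co.OSF Pool.Agent.Lib.MP_688fd0_co.SQ5.H95 Pool.Agent.Lib.MP_688fd0_co.SQ5.H76
open Pool.Agent.Lib.MP_688fd0_co.SQ5.H53.RegC Subgroup Bd

open scoped commutatorElement

universe u v

section grp

variable {Q : Type u} [Group Q]

/-- Commutators of a generated subgroup. -/
theorem comm_le (Z : Subgroup Q) (S : Set Q) (hn : ∀ x ∈ S, ∀ z ∈ Z, x * z * x⁻¹ ∈ Z ∧ x⁻¹ * z * x ∈ Z)
    (hc : ∀ x ∈ S, ∀ y ∈ S, ⁅x, y⁆ ∈ Z) : ⁅closure S, closure S⁆ ≤ Z := by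
  -- the elements which normalise `Z`
  have hnor : ∀ g ∈ closure S, ∀ z ∈ Z, g * z * g⁻¹ ∈ Z ∧ g⁻¹ * z * g ∈ Z := by
    intro g hg
    induction hg using closure_induction with
    | mem x hx => exact hn x hx
    | one => intro z hz; simpa using hz
    | mul x y _ _ hx hy =>
      intro z hz
      have e1 : x * y * z * (x * y)⁻¹ = x * (y * z * y⁻¹) * x⁻¹ := by group
      have e2 : (x * y)⁻¹ * z * (x * y) = y⁻¹ * (x⁻¹ * z * x) * y := by group
      rw [e1, e2]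
      exact ⟨(hx _ (hy z hz).1).1, (hy _ (hx z hz).2).2⟩
    | inv x _ hx =>
      intro z hz
      rw [inv_inv]
      exact ⟨(hx z hz).2, (hx z hz).1⟩
  have key : ∀ y, (∀ x ∈ S, ⁅x, y⁆ ∈ Z) → ∀ g ∈ closure S, ⁅g, y⁆ ∈ Z := by
    intro y hy g hg
    induction hg using closure_induction with
    | mem x hx => exact hy x hx
    | one => simp
    | mul x x' hx1 _ hx hx' =>
      have e : ⁅x * x', y⁆ = x * ⁅x', y⁆ * x⁻¹ * ⁅x, y⁆ := by
        simp only [commutatorElement_def]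
        group
      rw [e]
      exact mul_mem (hnor x hx1 _ hx').1 hx
    | inv x hx1 hx =>
      have e : ⁅x⁻¹, y⁆ = x⁻¹ * ⁅x, y⁆⁻¹ * x := by
        simp only [commutatorElement_def]
        group
      rw [e]
      exact (hnor x hx1 _ (inv_mem hx)).2
  rw [commutator_le]
  intro g hg h hh
  refine key h (fun x hx => ?_) g hg
  have h1 := key x (fun y hy => hc y hy x hx) h hh
  rw [← commutatorElement_inv]
  exact inv_mem h1

/-- The commutator. -/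
def c0 (a b t : Q) : Q := (a * t)⁻¹ * (a * b) * (a * t) * (a * b)⁻¹

namespace Deg

variable {a b t : Q} (H : Deg a b t)
include H

/-- The commutator with the other letter. -/
theorem c0_b : c0 a b t = (b * t)⁻¹ * (a * b) * (b * t) * (a * b)⁻¹ := by
  have e : a * t = (a * b) * (b * t) := by rw [mul_assoc, ← mul_assoc b, H.bb, one_mul]
  unfold c0
  rw [e]
  group

/-- `a b` inverts `c0`. -/
theorem s_c0 : (a * b) * c0 a b t * (a * b)⁻¹ = (c0 a b t)⁻¹ := by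
  have h := H.z
  unfold c0
  generalize a * b = s at *
  generalize a * t = r at *
  calc s * (r⁻¹ * s * r * s⁻¹) * s⁻¹ = s * r⁻¹ * s⁻¹ * (s * s * r) * s⁻¹ * s⁻¹ := by group
    _ = s * r⁻¹ * s⁻¹ * (r * (s * s)) * s⁻¹ * s⁻¹ := by rw [h.eq]
    _ = _ := by group

omit H in
/-- If the square of `r` commutes with `s`. -/
theorem r_c0 {s r : Q} (h : Commute (r * r) s) : r * (r⁻¹ * s * r * s⁻¹) * r⁻¹ = (r⁻¹ * s * r * s⁻¹)⁻¹ := by
  calc r * (r⁻¹ * s * r * s⁻¹) * r⁻¹ = s * r⁻¹ * (r * r) * s⁻¹ * r⁻¹ := by group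
    _ = s * r⁻¹ * ((r * r) * s⁻¹) * r⁻¹ := by group
    _ = s * r⁻¹ * (s⁻¹ * (r * r)) * r⁻¹ := by rw [h.inv_right.eq]
    _ = _ := by group

/-- `a t` normalises the group of `c0`. -/
theorem t_c0 : (a * t) * c0 a b t * (a * t)⁻¹ = (c0 a b t)⁻¹ ∨ (a * t) * c0 a b t * (a * t)⁻¹ = c0 a b t := by
  rcases H.w with h | h
  · left
    exact r_c0 h
  · right
    have h1 : (b * t) * c0 a b t * (b * t)⁻¹ = (c0 a b t)⁻¹ := by
      rw [H.c0_b]
      exact r_c0 h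
    have e : a * t = (a * b) * (b * t) := by rw [mul_assoc, ← mul_assoc b, H.bb, one_mul]
    have h2 : (a * b) * (c0 a b t)⁻¹ * (a * b)⁻¹ = c0 a b t := by
      have h3 := congrArg (fun x => x⁻¹) H.s_c0
      rw [inv_inv] at h3
      have e3 : (a * b) * (c0 a b t)⁻¹ * (a * b)⁻¹ = ((a * b) * c0 a b t * (a * b)⁻¹)⁻¹ := by group
      rw [e3]
      exact h3
    have e2 : a * t * c0 a b t * (a * t)⁻¹ = (a * b) * ((b * t) * c0 a b t * (b * t)⁻¹) * (a * b)⁻¹ := by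
      rw [e]
      group
    rw [e2, h1, h2]

omit H in
theorem nrm {x c : Q} (h : x * c * x⁻¹ = c⁻¹ ∨ x * c * x⁻¹ = c) {z : Q} (hz : z ∈ zpowers c) :
    x * z * x⁻¹ ∈ zpowers c ∧ x⁻¹ * z * x ∈ zpowers c := by
  obtain ⟨n, rfl⟩ := hz
  have hx : x⁻¹ * c * x = c⁻¹ ∨ x⁻¹ * c * x = c := by
    rcases h with h | h
    · left
      have h1 := congrArg (fun y => (x⁻¹ * y * x)⁻¹) h
      have e1 : (x⁻¹ * (x * c * x⁻¹) * x)⁻¹ = c⁻¹ := by group
      have e2 : (x⁻¹ * c⁻¹ * x)⁻¹ = x⁻¹ * c * x := by group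
      rw [e1, e2] at h1
      exact h1.symm
    · right
      have h1 := congrArg (fun y => x⁻¹ * y * x) h
      have e1 : x⁻¹ * (x * c * x⁻¹) * x = c := by group
      rw [e1] at h1
      exact h1.symm
  have h1 : x * c ^ n * x⁻¹ = (x * c * x⁻¹) ^ n := (conj_zpow ..).symm
  have h2 : x⁻¹ * c ^ n * x = (x⁻¹ * c * x) ^ n := by
    have := (conj_zpow (a := x⁻¹) (b := c) (i := n)).symm
    rwa [inv_inv] at this
  simp only
  rw [h1, h2]
  constructor
  · rcases h with h | h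
    · rw [h, inv_zpow, ← zpow_neg]; exact ⟨_, rfl⟩
    · rw [h]; exact ⟨_, rfl⟩
  · rcases hx with h | h
    · rw [h, inv_zpow, ← zpow_neg]; exact ⟨_, rfl⟩
    · rw [h]; exact ⟨_, rfl⟩

/-- The commutator subgroup is cyclic. -/
theorem K0_le : H48.K0 (a * t) (a * b) ≤ zpowers (c0 a b t) := by
  refine comm_le _ _ ?_ ?_
  · rintro x (rfl | rfl) z hz
    · exact nrm H.t_c0 hz
    · exact nrm (Or.inl H.s_c0) hz
  · have h1 : ⁅a * t, a * b⁆ ∈ zpowers (c0 a b t) := by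
      have h2 : (a * t) * (c0 a b t) * (a * t)⁻¹ ∈ zpowers (c0 a b t) := (nrm H.t_c0 (mem_zpowers _)).1
      have e : (a * t) * (c0 a b t) * (a * t)⁻¹ = ⁅a * t, a * b⁆⁻¹ := by
        unfold c0
        rw [commutatorElement_def]
        group
      rw [e] at h2
      exact inv_mem_iff.1 h2
    rintro x (rfl | rfl) y (rfl | rfl)
    · rw [commutatorElement_self]; exact one_mem _
    · exact h1
    · rw [← commutatorElement_inv]; exact inv_mem h1
    · rw [commutatorElement_self]; exact one_mem _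

omit H in
theorem sn {s x : Q} (h : s * x * s⁻¹ = x⁻¹) (n : ℤ) : s ^ n * x * s ^ (-n) = x ∨ s ^ n * x * s ^ (-n) = x⁻¹ := by
  have h2 : s * x⁻¹ * s⁻¹ = x := by
    have e3 : s * x⁻¹ * s⁻¹ = (s * x * s⁻¹)⁻¹ := by group
    rw [e3, h, inv_inv]
  have h3 : s⁻¹ * x * s = x⁻¹ := by
    have h4 := congrArg (fun y => s⁻¹ * y * s) h2
    have e3 : s⁻¹ * (s * x⁻¹ * s⁻¹) * s = x⁻¹ := by group
    simp only [e3] at h4
    exact h4.symm
  have h4 : s⁻¹ * x⁻¹ * s = x := by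
    have e3 : s⁻¹ * x⁻¹ * s = (s⁻¹ * x * s)⁻¹ := by group
    rw [e3, h3, inv_inv]
  induction n using Int.induction_on with
  | zero => left; simp
  | succ m ih =>
    have e : s ^ ((m : ℤ) + 1) * x * s ^ (-((m : ℤ) + 1)) = s * (s ^ (m : ℤ) * x * s ^ (-(m : ℤ))) * s⁻¹ := by group
    rw [e]
    rcases ih with ih | ih
    · right; rw [ih, h]
    · left; rw [ih, h2]
  | pred m ih =>
    have e : s ^ (-(m : ℤ) - 1) * x * s ^ (-(-(m : ℤ) - 1)) = s⁻¹ * (s ^ (-(m : ℤ)) * x * s ^ (-(-(m : ℤ)))) * s := by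
      group
    rw [e]
    rcases ih with ih | ih
    · right; rw [ih, h3]
    · left; rw [ih, h4]

end Deg

end grp

section graph

variable {L : AddSubgroup (ℤ × ℤ)} {Q : Type u} [Group Q] {B : Lb.{u, v} Q} {l : L3 → B.L} {c : Cov B l L}
  (hi : ∀ i, B.inv (l i) = l i) {D : Bd} {s0 ph Wd : ℤ} (X : D3 D s0 ph Wd)
  (hd : Deg (B.q (l .a)) (B.q (l .b)) (B.q (l .t)))


theorem lam_lam (q : L3 → Q) (hd : Deg (q .a) (q .b) (q .t)) (D : Bd) (s n : ℤ) :
    (lam q D s n)⁻¹ * lam q D s (n + 1) = sg q ^ n * c0 (q .a) (q .b) (q .t) * sg q ^ (-n) := by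
  have h : c0 (q .a) (q .b) (q .t) = (LL q (D.b s))⁻¹ * sg q * LL q (D.b s) * (sg q)⁻¹ := by
    cases D.b s
    · exact hd.c0_b
    · rfl
  rw [h]
  unfold lam
  group

include hi X hd

/-- The node in the row `m + 1` of `p`, times the commutator. -/
theorem con_gm {m : ℤ} {p : ℤ × Q} (hp : Nod c D s0 Wd (Wd + 3) p) :
    ∃ p', Nod c D s0 Wd (Wd + 3) p' ∧ Con c (qq B l) D s0 Wd (Wd + 3) (fun _ => True) p p' ∧
      row (qq B l) D s0 (m + 1) p' = row (qq B l) D s0 (m + 1) p *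
        (sg (qq B l) ^ nn D Wd * c0 (B.q (l .a)) (B.q (l .b)) (B.q (l .t)) * sg (qq B l) ^ (-nn D Wd)) := by
  have hc0 := col_nonneg (ph + (m + 1))
  have hc2 := col_le (ph + (m + 1))
  rw [← X.cs] at hc0 hc2
  set C := D.cs (s0 + (m + 1)) with hC
  have h1 := nod_mk c hi D (m := m + 1) hp (κ := Wd + C) (by omega) (by omega)
  have h2 := nod_mk c hi D (m := m) h1 (κ := Wd + C + 1) (by omega) (by omega)
  refine ⟨_, h2, (row_conn c hi trivial hp h1 (row_mk _ _ _ _ _ _).symm).trans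
    (row_conn c hi trivial h1 h2 (row_mk _ _ _ _ _ _).symm), ?_⟩
  have e1 := row_succ D s0 (hqq hi) m (mk (qq B l) D s0 (m + 1) (row (qq B l) D s0 (m + 1) p) (Wd + C))
  have e2 := row_succ D s0 (hqq hi) m (mk (qq B l) D s0 m (row (qq B l) D s0 m
    (mk (qq B l) D s0 (m + 1) (row (qq B l) D s0 (m + 1) p) (Wd + C))) (Wd + C + 1))
  have k1 : (mk (qq B l) D s0 (m + 1) (row (qq B l) D s0 (m + 1) p) (Wd + C)).1 - D.cs (s0 + m + 1) = Wd := by
    show Wd + C - D.cs (s0 + m + 1) = Wd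
    rw [add_assoc, ← hC]
    ring
  have k2 : (mk (qq B l) D s0 m (row (qq B l) D s0 m
      (mk (qq B l) D s0 (m + 1) (row (qq B l) D s0 (m + 1) p) (Wd + C))) (Wd + C + 1)).1 - D.cs (s0 + m + 1) =
      Wd + 1 := by
    show Wd + C + 1 - D.cs (s0 + m + 1) = Wd + 1
    rw [add_assoc s0, ← hC]
    ring
  rw [k1, row_mk] at e1
  rw [k2, nn_succ, X.h0, row_mk] at e2
  have h3 : (lam (qq B l) D (s0 + m) (nn D Wd))⁻¹ * lam (qq B l) D (s0 + m) (nn D Wd + 1) =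
    sg (qq B l) ^ nn D Wd * c0 (B.q (l .a)) (B.q (l .b)) (B.q (l .t)) * sg (qq B l) ^ (-nn D Wd) :=
    lam_lam (qq B l) hd D (s0 + m) (nn D Wd)
  rw [e2, eq_mul_inv_of_mul_eq e1.symm]
  push_cast
  rw [mul_assoc _ (lam (qq B l) D (s0 + m) (nn D Wd))⁻¹, h3]

/-- The node in the row `m + 1` of `p`, times the inverse of the commutator. -/
theorem con_gi {m : ℤ} {p : ℤ × Q} (hp : Nod c D s0 Wd (Wd + 3) p) :
    ∃ p', Nod c D s0 Wd (Wd + 3) p' ∧ Con c (qq B l) D s0 Wd (Wd + 3) (fun _ => True) p p' ∧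
      row (qq B l) D s0 (m + 1) p' = row (qq B l) D s0 (m + 1) p *
        (sg (qq B l) ^ nn D Wd * c0 (B.q (l .a)) (B.q (l .b)) (B.q (l .t)) * sg (qq B l) ^ (-nn D Wd))⁻¹ := by
  have hc0 := col_nonneg (ph + (m + 1))
  have hc2 := col_le (ph + (m + 1))
  rw [← X.cs] at hc0 hc2
  set C := D.cs (s0 + (m + 1)) with hC
  have h1 := nod_mk c hi D (m := m + 1) hp (κ := Wd + C + 1) (by omega) (by omega)
  have h2 := nod_mk c hi D (m := m) h1 (κ := Wd + C) (by omega) (by omega)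
  refine ⟨_, h2, (row_conn c hi trivial hp h1 (row_mk _ _ _ _ _ _).symm).trans
    (row_conn c hi trivial h1 h2 (row_mk _ _ _ _ _ _).symm), ?_⟩
  have e1 := row_succ D s0 (hqq hi) m (mk (qq B l) D s0 (m + 1) (row (qq B l) D s0 (m + 1) p) (Wd + C + 1))
  have e2 := row_succ D s0 (hqq hi) m (mk (qq B l) D s0 m (row (qq B l) D s0 m
    (mk (qq B l) D s0 (m + 1) (row (qq B l) D s0 (m + 1) p) (Wd + C + 1))) (Wd + C))
  have k1 : (mk (qq B l) D s0 (m + 1) (row (qq B l) D s0 (m + 1) p) (Wd + C + 1)).1 - D.cs (s0 + m + 1) = Wd + 1 := by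
    show Wd + C + 1 - D.cs (s0 + m + 1) = Wd + 1
    rw [add_assoc s0, ← hC]
    ring
  have k2 : (mk (qq B l) D s0 m (row (qq B l) D s0 m
      (mk (qq B l) D s0 (m + 1) (row (qq B l) D s0 (m + 1) p) (Wd + C + 1))) (Wd + C)).1 - D.cs (s0 + m + 1) =
      Wd := by
    show Wd + C - D.cs (s0 + m + 1) = Wd
    rw [add_assoc s0, ← hC]
    ring
  rw [k1, nn_succ, X.h0, row_mk] at e1
  rw [k2, row_mk] at e2
  have h3 : (lam (qq B l) D (s0 + m) (nn D Wd))⁻¹ * lam (qq B l) D (s0 + m) (nn D Wd + 1) =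
    sg (qq B l) ^ nn D Wd * c0 (B.q (l .a)) (B.q (l .b)) (B.q (l .t)) * sg (qq B l) ^ (-nn D Wd) :=
    lam_lam (qq B l) hd D (s0 + m) (nn D Wd)
  rw [e2, eq_mul_inv_of_mul_eq e1.symm]
  push_cast
  rw [mul_assoc _ (lam (qq B l) D (s0 + m) (nn D Wd + 1))⁻¹, ← h3, mul_inv_rev, inv_inv]

/-- ROWS which differ by a power of the commutator are connected. -/
theorem con_zp {m : ℤ} {p p' : ℤ × Q} (hp : Nod c D s0 Wd (Wd + 3) p) (hp' : Nod c D s0 Wd (Wd + 3) p')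
    (h : (row (qq B l) D s0 (m + 1) p)⁻¹ * row (qq B l) D s0 (m + 1) p' ∈
      zpowers (c0 (B.q (l .a)) (B.q (l .b)) (B.q (l .t)))) :
    Con c (qq B l) D s0 Wd (Wd + 3) (fun _ => True) p p' := by
  have key : ∀ n : ℕ, ∀ e : ℤ, e = 1 ∨ e = -1 → ∀ p, Nod c D s0 Wd (Wd + 3) p → ∃ p', Nod c D s0 Wd (Wd + 3) p' ∧
      Con c (qq B l) D s0 Wd (Wd + 3) (fun _ => True) p p' ∧ row (qq B l) D s0 (m + 1) p' =
        row (qq B l) D s0 (m + 1) p *
          (sg (qq B l) ^ nn D Wd * c0 (B.q (l .a)) (B.q (l .b)) (B.q (l .t)) * sg (qq B l) ^ (-nn D Wd)) ^ (e * n) := by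
    intro n e he
    induction n with
    | zero => exact fun p hp => ⟨p, hp, Relation.ReflTransGen.refl, by simp⟩
    | succ n ih =>
      intro p hp
      obtain ⟨p1, a1, a2, a3⟩ := ih p hp
      rcases he with rfl | rfl
      · obtain ⟨p2, b1, b2, b3⟩ := con_gm hi X hd (m := m) a1
        refine ⟨p2, b1, a2.trans b2, ?_⟩
        rw [b3, a3]
        push_cast
        rw [one_mul, one_mul, zpow_add_one]
        simp only [mul_assoc]
      · obtain ⟨p2, b1, b2, b3⟩ := con_gi hi X hd (m := m) a1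
        refine ⟨p2, b1, a2.trans b2, ?_⟩
        rw [b3, a3]
        push_cast
        rw [mul_add, mul_one, zpow_add, zpow_neg_one]
        simp only [mul_assoc]
  obtain ⟨n, hn⟩ := h
  have hn : c0 (B.q (l .a)) (B.q (l .b)) (B.q (l .t)) ^ n =
    (row (qq B l) D s0 (m + 1) p)⁻¹ * row (qq B l) D s0 (m + 1) p' := hn
  -- the power of the conjugate
  obtain ⟨n', hn'⟩ : ∃ n' : ℤ, (sg (qq B l) ^ nn D Wd * c0 (B.q (l .a)) (B.q (l .b)) (B.q (l .t)) *
      sg (qq B l) ^ (-nn D Wd)) ^ n' = c0 (B.q (l .a)) (B.q (l .b)) (B.q (l .t)) ^ n := by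
    rcases Deg.sn hd.s_c0 (nn D Wd) with h | h
    · have h' : sg (qq B l) ^ nn D Wd * c0 (B.q (l .a)) (B.q (l .b)) (B.q (l .t)) *
        sg (qq B l) ^ (-nn D Wd) = c0 (B.q (l .a)) (B.q (l .b)) (B.q (l .t)) := h
      exact ⟨n, by rw [h']⟩
    · refine ⟨-n, ?_⟩
      have h' : sg (qq B l) ^ nn D Wd * c0 (B.q (l .a)) (B.q (l .b)) (B.q (l .t)) *
        sg (qq B l) ^ (-nn D Wd) = (c0 (B.q (l .a)) (B.q (l .b)) (B.q (l .t)))⁻¹ := h
      rw [h', inv_zpow, zpow_neg, inv_inv]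
  obtain ⟨e, k, he, rfl⟩ : ∃ (e : ℤ) (k : ℕ), (e = 1 ∨ e = -1) ∧ n' = e * k := by
    rcases Int.eq_nat_or_neg n' with ⟨k, rfl | rfl⟩
    · exact ⟨1, k, Or.inl rfl, by ring⟩
    · exact ⟨-1, k, Or.inr rfl, by ring⟩
  obtain ⟨p1, a1, a2, a3⟩ := key k e he p hp
  refine a2.trans (row_conn c hi (m := m + 1) trivial a1 hp' ?_)
  rw [a3, hn', hn, mul_inv_cancel_left]

/-- THE WINDOW IS CONNECTED. -/
theorem conn_d3 (hF : ∀ v y y', c.Over y v → c.Over y' v → y⁻¹ * y' ∈ H48.K0 (qq B l .a * qq B l .t) (qq B l .a * qq B l .b))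
    {p p' : ℤ × Q} (hp : Nod c D s0 Wd (Wd + 3) p) (hp' : Nod c D s0 Wd (Wd + 3) p') :
    Con c (qq B l) D s0 Wd (Wd + 3) (fun _ => True) p p' := by
  refine con_zp hi X hd (m := 0) hp hp' (hd.K0_le (hF (Pat.lv (s0 + (0 + 1)) (D.I.C 0 (s0 + (0 + 1)))) _ _ ?_ ?_))
  · refine (over_mk_iff c hi D (s0 := s0) (0 + 1) _ p.1).1 ?_
    rw [mk_row]
    exact hp.2.2
  · refine (over_mk_iff c hi D (s0 := s0) (0 + 1) _ p'.1).1 ?_
    rw [mk_row]
    exact hp'.2.2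

end graph


end Pool.Agent.Lib.MP_688fd0_co.SQ5.H60
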