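import Pool.Agent.Lib.MP_688fd0_co.SQ5.H60.D3

/-!
MP_688fd0_co, type C2, FT, DEGEN3 (helper60): word identities in the degenerate group.
-/

set_option autoImplicit false

namespace Pool.Agent.Lib.MP_688fd0_co.SQ5.H60

universe u

namespace Deg

variable {Q : Type u} [Group Q] {a b t : Q} (H : Deg a b t)
include H

/-- First closing. -/
theorem clo1 : (b * a) * (b * t) * (a * b) = (a * t) * (b * a) := by
  have hz := H.zb
  have ha := H.aa
  have hb := H.bb
  have ha' : ∀ x, a * (a * x) = x := fun x => by rw [← mul_assoc, ha, one_mul]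
  have hb' : ∀ x, b * (b * x) = x := fun x => by rw [← mul_assoc, hb, one_mul]
  have h1 : (b * a) * (b * t) * (a * b) * (a * b) = a * t := by
    calc (b * a) * (b * t) * (a * b) * (a * b) = (b * a) * ((b * t) * ((a * b) * (a * b))) := by simp only [mul_assoc]
      _ = (b * a) * (((a * b) * (a * b)) * (b * t)) := by rw [hz.eq]
      _ = a * t := by simp only [mul_assoc, ha', hb']
  have h2 : (a * b) * (b * a) = 1 := by simp only [mul_assoc, hb', ha]
  calc (b * a) * (b * t) * (a * b) = (b * a) * (b * t) * (a * b) * ((a * b) * (b * a)) := by rw [h2, mul_one]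
    _ = (b * a) * (b * t) * (a * b) * (a * b) * (b * a) := by simp only [mul_assoc]
    _ = _ := by rw [h1]

/-- Second closing. -/
theorem clo2 : (a * b) * (a * t) * (b * a) = (b * t) * (a * b) := by
  have hz := H.z
  have ha := H.aa
  have hb := H.bb
  have ha' : ∀ x, a * (a * x) = x := fun x => by rw [← mul_assoc, ha, one_mul]
  have hb' : ∀ x, b * (b * x) = x := fun x => by rw [← mul_assoc, hb, one_mul]
  have h0 : (a * b) * (a * t) = (b * t) * ((a * b) * (a * b)) := by
    rw [H.zb.eq.symm]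
    have h3 : (a * b) * (b * a) = 1 := by simp only [mul_assoc, hb', ha]
    calc (a * b) * (a * t) = (a * b) * (a * b) * (b * a) * (a * t) := by
          rw [mul_assoc (a * b) (a * b), h3, mul_one]
      _ = _ := by simp only [mul_assoc, ha', hb']
  have h2 : (a * b) * (b * a) = 1 := by simp only [mul_assoc, hb', ha]
  rw [h0]
  calc (b * t) * ((a * b) * (a * b)) * (b * a) = (b * t) * (a * b) * ((a * b) * (b * a)) := by simp only [mul_assoc]
    _ = _ := by rw [h2, mul_one]

/-- Closing of the gadget with five levels. -/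
theorem clo5 : (b * a) * ((b * t) * (b * a)) * ((b * t) * (a * b)) * ((a * t) * (b * a)) * ((b * t) * (a * b)) *
    ((a * t) * (a * b)) = (a * t) * (a * t) * (b * t) * (a * t) * (b * t) * (b * a) := by
  have ha := H.aa
  have hb := H.bb
  have ha' : ∀ x, a * (a * x) = x := fun x => by rw [← mul_assoc, ha, one_mul]
  have hb' : ∀ x, b * (b * x) = x := fun x => by rw [← mul_assoc, hb, one_mul]
  have hz := H.z
  generalize hs : a * b = s at *
  generalize hA : a * t = A at *
  have e1 : b * a = s⁻¹ := by rw [← hs, mul_inv_rev, H.ai, H.bi]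
  have e2 : b * t = s⁻¹ * A := by rw [← e1, ← hA]; simp only [mul_assoc, ha']
  rw [e1, e2]
  obtain ⟨z, hz'⟩ : ∃ z, z = s * s := ⟨_, rfl⟩
  rw [← hz'] at hz
  have e3 : s⁻¹ = z⁻¹ * s := by rw [hz']; group
  have c1 : s * z⁻¹ = z⁻¹ * s := by rw [hz']; group
  have c2 : A * z⁻¹ = z⁻¹ * A := (hz.inv_left).eq.symm
  have c1' : ∀ x, s * (z⁻¹ * x) = z⁻¹ * (s * x) := fun x => by rw [← mul_assoc, c1, mul_assoc]
  have c2' : ∀ x, A * (z⁻¹ * x) = z⁻¹ * (A * x) := fun x => by rw [← mul_assoc, c2, mul_assoc]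
  have d1 : s * z = z * s := by rw [hz', mul_assoc]
  have d2 : A * z = z * A := hz.eq.symm
  have d1' : ∀ x, s * (z * x) = z * (s * x) := fun x => by rw [← mul_assoc, d1, mul_assoc]
  have d2' : ∀ x, A * (z * x) = z * (A * x) := fun x => by rw [← mul_assoc, d2, mul_assoc]
  have q1 : ∀ x, s * (s * x) = z * x := fun x => by rw [← mul_assoc, ← hz']
  have q2 : ∀ x, z⁻¹ * (z * x) = x := fun x => by rw [← mul_assoc, inv_mul_cancel, one_mul]
  have q3 : ∀ x, z * (z⁻¹ * x) = x := fun x => by rw [← mul_assoc, mul_inv_cancel, one_mul]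
  rw [e3]
  simp only [mul_assoc, c1, c1', c2, c2', d1, d1', d2, d2', q1, q2, q3]

/-- `t z t = z⁻¹`. -/
theorem tz : t * ((a * b) * (a * b)) * t = ((a * b) * (a * b))⁻¹ := by
  have ha := H.aa
  have hb := H.bb
  have ht := H.tt
  have ha' : ∀ x, a * (a * x) = x := fun x => by rw [← mul_assoc, ha, one_mul]
  have ht' : ∀ x, t * (t * x) = x := fun x => by rw [← mul_assoc, ht, one_mul]
  have h1 : a * ((a * b) * (a * b)) * a = ((a * b) * (a * b))⁻¹ := by
    simp only [mul_inv_rev, H.ai, H.bi, mul_assoc, ha']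
  rw [← h1]
  have h2 : ((a * b) * (a * b)) * (a * t) = (a * t) * ((a * b) * (a * b)) := H.z.eq
  generalize (a * b) * (a * b) = z at *
  have h3 : z * a = a * t * z * t := by
    calc z * a = z * (a * t) * t := by simp only [mul_assoc, ht, mul_one]
      _ = _ := by rw [h2]
  rw [mul_assoc a z a, h3]
  simp only [mul_assoc, ha']

/-- The sea edges join different strands. -/
theorem sea_ne {n : ℕ} (hn : n % 2 = 0) (h0 : 1 ≤ n) : ((a * b) ^ (n - 1) * t) ^ 2 ≠ 1 := by
  intro h
  have ha := H.aa
  have hb := H.bb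
  have ht := H.tt
  have ha' : ∀ x, a * (a * x) = x := fun x => by rw [← mul_assoc, ha, one_mul]
  have hb' : ∀ x, b * (b * x) = x := fun x => by rw [← mul_assoc, hb, one_mul]
  have ht' : ∀ x, t * (t * x) = x := fun x => by rw [← mul_assoc, ht, one_mul]
  obtain ⟨k, hk⟩ : ∃ k, n - 1 = 2 * k + 1 := ⟨(n - 2) / 2, by omega⟩
  have tz := H.tz
  have h2 : (a * b) ^ (n - 1) = ((a * b) * (a * b)) ^ k * (a * b) := by
    rw [hk, pow_succ, pow_mul, pow_two]
  rw [h2] at h
  have hzs : Commute ((a * b) * (a * b)) (a * b) := (Commute.refl (a * b)).mul_left (Commute.refl (a * b))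
  have htk : t * ((a * b) * (a * b)) ^ k = (((a * b) * (a * b)) ^ k)⁻¹ * t := by
    generalize (a * b) * (a * b) = z at *
    have h3 : ∀ k : ℕ, t * z ^ k = (z ^ k)⁻¹ * t := by
      intro k
      induction k with
      | zero => simp
      | succ k ih =>
        have h4 : t * z = z⁻¹ * t := by
          rw [← tz]
          simp only [mul_assoc, ht, mul_one]
        rw [pow_succ, ← mul_assoc, ih, mul_assoc, h4, mul_inv_rev, ← mul_assoc]
        congr 1
        rw [← inv_pow]
        exact (Commute.refl z⁻¹).pow_left k |>.eq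
    exact h3 k
  have hzk := (hzs.pow_left k).eq
  generalize ((a * b) * (a * b)) ^ k = w at *
  have h5 : (w * (a * b) * t) ^ 2 = (a * b) * t * (a * b) * t := by
    calc (w * (a * b) * t) ^ 2 = (w * (a * b)) * (t * (w * (a * b) * t)) := by
          rw [pow_two]; simp only [mul_assoc]
      _ = ((a * b) * w) * (t * (w * (a * b) * t)) := by rw [← hzk]
      _ = (a * b) * (w * (t * w)) * (a * b) * t := by simp only [mul_assoc]
      _ = (a * b) * t * (a * b) * t := by rw [htk, ← mul_assoc w, mul_inv_cancel, one_mul]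
  rw [h5] at h
  apply H.nc
  show (a * b) * (a * t) = (a * t) * (a * b)
  -- `a b t a b t = 1`
  have h6 : t * (a * b) * t = (a * b)⁻¹ := by
    refine eq_inv_of_mul_eq_one_right ?_
    simpa only [mul_assoc] using h
  have h7 : (a * b)⁻¹ = b * a := by rw [mul_inv_rev, H.ai, H.bi]
  rw [h7] at h6
  -- `t a b t = b a`
  have h8 : a * (t * (a * b) * t) = a * (b * a) := by rw [h6]
  have h9 : (a * t) * (a * b) = a * (b * a) * t := by
    rw [← h8]
    simp only [mul_assoc, ht, mul_one]
  rw [h9]
  simp only [mul_assoc]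

end Deg

end Pool.Agent.Lib.MP_688fd0_co.SQ5.H60
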