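import Pool.Agent.Lib.MP_688fd0_co.SQ5.H60.Trail2

/-!
MP_688fd0_co, type C2, FT, DEGEN3 (helper60): the T-gadget of `Trail2` for a perfect matching `P`.

`Hl2`: the two holes. RESULT `Hl2.win`: the window `win (ω n0) (ω (n0 + 1)) σ` with upper pair `{ω (n + 1), ω n}` is realised
in every layer `[lo + k q, hi + k q]` of the run.
-/

set_option autoImplicit false

namespace Pool.Agent.Lib.MP_688fd0_co.SQ5.H60

open Function Equiv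
open Pool.Agent.Lib.MP_688fd0_co.OSF Pool.Agent.Lib.MP_688fd0_co.SQ2 Pool.Agent.Lib.MP_688fd0_co.SQ3
open Pool.Agent.Lib.MP_688fd0_co.SQ5.H64 Pool.Agent.Lib.MP_688fd0_co.SQ5.H95
open Pool.Agent.Lib.MP_688fd0_co.SQ5.H22

universe u v

variable {Q : Type u} [Group Q] {B : Lb.{u, v} Q} {S : Type*}

/-- The two holes from the rung at block `n0` (first line of length 1) to the cup at block `n` (last line `a n` of length 1). -/
structure Hl2 (P : Q → Q) (C : Chart Q S) (ω a α : ℕ → S) (n0 n : ℕ) : Prop where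
  lt : n0 < n
  h0 : C.h n0 (ω n0) = 1
  p0 : P (C.Z n0 (a n0) 0) = C.Z n0 (ω n0) (C.h n0 (ω n0))
  an : a n = ω (n + 1)
  hn : C.h n (a n) = 1
  om : ∀ m, n0 ≤ m → m ≤ n → P (C.Z m (ω m) 0) = C.Z m (ω (m + 1)) (C.h m (ω (m + 1)))
  st : ∀ m, n0 ≤ m → m < n → Stp P C m (a m) (α (m + 1)) (a (m + 1))
  op : ∀ m, n0 < m → m < n → a m ≠ ω m

/-- The positions `κ m s` of the strands at level `m`, `f m` = direction of the letter. -/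
structure Pl2 (ω a α : ℕ → S) (n0 n : ℕ) (κ : ℕ → S → ℤ) (f : ℕ → ℤ) : Prop where
  kap : ∀ m s, κ (m + 1) s = κ m s + f m
  f0 : ∀ m, f m ≠ 0
  kom : ∀ m, n0 ≤ m → m ≤ n → κ m (ω (m + 1)) = κ m (ω m) - f m
  k0 : κ n0 (ω n0) = κ n0 (a n0) - f n0
  kA : ∀ m, n0 < m → m ≤ n → κ m (α m) = κ m (a m) - f m
  kse : ∀ m, n0 ≤ m → m < n →
    (f (m + 1) = f m ∧ κ (m + 1) (α (m + 1)) = κ (m + 1) (a m) - f (m + 1)) ∨
    (f (m + 1) = - f m ∧ κ (m + 1) (α (m + 1)) = κ (m + 1) (a m))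
  ne : ∀ m, n0 ≤ m → m < n → α (m + 1) ≠ a m

/-- The new pairs, indices. -/
def NI2 (ω a α : ℕ → S) (h : ℕ → S → ℕ) (n0 n : ℕ) (m : ℕ) (s : S) (r : ℕ) (m' : ℕ) (s' : S) (r' : ℕ) : Prop :=
  (n0 ≤ m ∧ m < n ∧ s = ω (m + 1) ∧ r = h m s ∧ m' = m + 1 ∧ s' = s ∧ r' = 0) ∨
  (n0 < m ∧ m ≤ n ∧ s = ω m ∧ r = 0 ∧ m' + 1 = m ∧ s' = s ∧ r' = h m' s) ∨
  (m = n0 ∧ s = ω m ∧ r = 0 ∧ m' = m ∧ s' = s ∧ r' = 1) ∨
  (m = n0 ∧ s = ω m ∧ r = 1 ∧ m' = m ∧ s' = s ∧ r' = 0) ∨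
  (n0 < m ∧ m ≤ n ∧ s = α m ∧ r + 1 = h m s ∧ m' = m ∧ s' = s ∧ r' = h m s) ∨
  (n0 < m ∧ m ≤ n ∧ s = α m ∧ r = h m s ∧ m' = m ∧ s' = s ∧ r' + 1 = r) ∨
  (n0 ≤ m ∧ m ≤ n ∧ s = a m ∧ r = 0 ∧ m' = m ∧ s' = s ∧ r' = 1) ∨
  (n0 ≤ m ∧ m ≤ n ∧ s = a m ∧ r = 1 ∧ m' = m ∧ s' = s ∧ r' = 0)

/-- The new pairs. -/
def New2 (ω a α : ℕ → S) (C : Chart Q S) (n0 n : ℕ) (x y : Q) : Prop :=
  ∃ m s r m' s' r', NI2 ω a α C.h n0 n m s r m' s' r' ∧ x = C.Z m s r ∧ y = C.Z m' s' r'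

open Classical in
/-- The partner. -/
noncomputable def nu2 (ω a : ℕ → S) (h : ℕ → S → ℕ) (n0 n : ℕ) (m : ℕ) (s : S) (r : ℕ) : ℕ × S × ℕ :=
  if r = 0 then (if s = ω m then (if m = n0 then (m, s, 1) else (m - 1, s, h (m - 1) s)) else (m, s, 1))
  else if s = ω (m + 1) ∧ r = h m s ∧ m < n then (m + 1, s, 0)
  else if r = 1 ∧ (s = a m ∨ m = n0) then (m, s, 0)
  else if r + 1 = h m s then (m, s, h m s)
  else (m, s, r - 1)

namespace Hl2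

variable {P : Q → Q} {C : Chart Q S} {n0 n : ℕ} {κ : ℕ → S → ℤ} {f : ℕ → ℤ} {ω a α : ℕ → S} {E : ℕ}

theorem ω_ne (L : Pl2 ω a α n0 n κ f) {m : ℕ} (h1 : n0 ≤ m) (h2 : m ≤ n) : ω (m + 1) ≠ ω m := by
  intro h
  have := L.kom m h1 h2
  rw [h] at this
  have := L.f0 m
  omega

theorem wA (G : Hl2 P C ω a α n0 n) {m : ℕ} (h1 : n0 < m) (h2 : m ≤ n) :
    P (C.Z m (a m) 0) = C.Z m (α m) (C.h m (α m)) := by
  have := (G.st (m - 1) (by omega) (by omega)).wal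
  rwa [show m - 1 + 1 = m by omega] at this

theorem hα (G : Hl2 P C ω a α n0 n) {m : ℕ} (h1 : n0 < m) (h2 : m ≤ n) : 2 ≤ C.h m (α m) := by
  have := (G.st (m - 1) (by omega) (by omega)).h1
  rwa [show m - 1 + 1 = m by omega] at this

theorem pn (G : Hl2 P C ω a α n0 n) : P (C.Z n (ω n) 0) = C.Z n (a n) (C.h n (a n)) := by
  have := G.om n G.lt.le le_rfl
  rwa [← G.an] at this

theorem aα (L : Pl2 ω a α n0 n κ f) {m : ℕ} (h1 : n0 < m) (h2 : m ≤ n) : a m ≠ α m := by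
  intro h
  have h3 := L.kA m h1 h2
  rw [h] at h3
  have := L.f0 m
  omega

/-- `a m ≠ ω m` everywhere. -/
theorem aω (G : Hl2 P C ω a α n0 n) (L : Pl2 ω a α n0 n κ f) {m : ℕ} (h1 : n0 ≤ m) (h2 : m ≤ n) : a m ≠ ω m := by
  have hlt := G.lt
  rcases Nat.lt_or_ge n0 m with h3 | h3
  · rcases Nat.lt_or_ge m n with h4 | h4
    · exact G.op m h3 h4
    · have h5 : m = n := by omega
      subst h5
      rw [G.an]
      exact ω_ne L hlt.le le_rfl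
  · have h5 : m = n0 := by omega
    subst h5
    intro h
    have h6 := L.k0
    rw [h] at h6
    have := L.f0 m
    omega

section

variable {T : Tri B}

theorem ωα (G : Hl2 P C ω a α n0 n) (L : Pl2 ω a α n0 n κ f) (H : Rn T P C E) (hE : n < E) {m : ℕ} (h1 : n0 < m) (h2 : m ≤ n) :
    ω (m + 1) ≠ α m := by
  intro h
  have h4 := G.om m (by omega) h2
  rw [h, ← G.wA h1 h2] at h4
  have h5 := congrArg P h4
  rw [H.mch.inv, H.mch.inv] at h5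
  exact G.aω L h1.le h2 (H.inj _ _ _ _ _ _ (by omega) (by omega) (Nat.zero_le _) (Nat.zero_le _) h5).2.1.symm

theorem ha (G : Hl2 P C ω a α n0 n) {m : ℕ} (h1 : n0 ≤ m) (h2 : m < n) : 2 ≤ C.h m (a m) := (G.st m h1 h2).h0

/-- The partner is unique. -/
theorem nu_eq (G : Hl2 P C ω a α n0 n) (L : Pl2 ω a α n0 n κ f) (H : Rn T P C E) (hE : n < E) {m : ℕ} {s : S} {r m' : ℕ} {s' : S}
    {r' : ℕ} (h : NI2 ω a α C.h n0 n m s r m' s' r') : (m', s', r') = nu2 ω a C.h n0 n m s r := by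
  have hlt := G.lt
  unfold nu2
  rcases h with ⟨h1, h2, h3, h4, h5, h6, h7⟩ | ⟨h1, h2, h3, h4, h5, h6, h7⟩ | ⟨h1, h2, h3, h4, h5, h6⟩ |
    ⟨h1, h2, h3, h4, h5, h6⟩ | ⟨h1, h2, h3, h4, h5, h6, h7⟩ | ⟨h1, h2, h3, h4, h5, h6, h7⟩ |
    ⟨h1, h2, h3, h4, h5, h6, h7⟩ | ⟨h1, h2, h3, h4, h5, h6, h7⟩
  · have h8 := H.hpos m s (by omega)
    rw [if_neg (by omega), if_pos ⟨h3, h4, h2⟩, h5, h6, h7]
  · rw [if_pos h4, if_pos h3, if_neg (by omega), h6, h7, show m' = m - 1 by omega]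
  · rw [if_pos h3, if_pos h2, if_pos h1, h4, h5, h6]
  · have h8 : s ≠ ω (m + 1) := by
      rw [h2]
      exact (ω_ne L (by omega) (by omega)).symm
    rw [if_neg (by omega), if_neg (fun h => h8 h.1), if_pos ⟨h3, Or.inr h1⟩, h4, h5, h6]
  · have j1 := G.hα h1 h2
    rw [← h3] at j1
    have h8 : ¬ (s = ω (m + 1) ∧ r = C.h m s ∧ m < n) := by
      rintro ⟨-, h8, -⟩
      omega
    have h9 : ¬ (r = 1 ∧ (s = a m ∨ m = n0)) := by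
      rintro ⟨-, h9 | h9⟩
      · exact aα L h1 h2 (h9.symm.trans h3)
      · omega
    rw [if_neg (by omega), if_neg h8, if_neg h9, if_pos h4, h5, h6, h7]
  · have j1 := G.hα h1 h2
    rw [← h3] at j1
    have h8 : ¬ (s = ω (m + 1) ∧ r = C.h m s ∧ m < n) := by
      rintro ⟨a1, -, -⟩
      exact G.ωα L H hE h1 h2 (by rw [← a1, h3])
    rw [if_neg (by omega), if_neg h8, if_neg (by omega), if_neg (by omega), h5, h6, show r' = r - 1 by omega]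
  · rw [if_pos h4, if_neg (by rw [h3]; exact G.aω L h1 h2), h5, h6, h7]
  · have h8 : ¬ (s = ω (m + 1) ∧ r = C.h m s ∧ m < n) := by
      rintro ⟨-, a2, a3⟩
      have := G.ha h1 a3
      rw [h3] at a2
      omega
    rw [if_neg (by omega), if_neg h8, if_pos ⟨h4, Or.inl h3⟩, h5, h6, h7]

theorem _root_.Pool.Agent.Lib.MP_688fd0_co.SQ5.H60.NI2.sym {h : ℕ → S → ℕ} {m : ℕ} {s : S} {r m' : ℕ} {s' : S} {r' : ℕ}
    (hn : NI2 ω a α h n0 n m s r m' s' r') : NI2 ω a α h n0 n m' s' r' m s r := by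
  rcases hn with ⟨h1, h2, h3, h4, h5, h6, h7⟩ | ⟨h1, h2, h3, h4, h5, h6, h7⟩ | ⟨h1, h2, h3, h4, h5, h6⟩ |
    ⟨h1, h2, h3, h4, h5, h6⟩ | ⟨h1, h2, h3, h4, h5, h6, h7⟩ | ⟨h1, h2, h3, h4, h5, h6, h7⟩ |
    ⟨h1, h2, h3, h4, h5, h6, h7⟩ | ⟨h1, h2, h3, h4, h5, h6, h7⟩
  · subst h5 h6
    exact Or.inr (Or.inl ⟨by omega, by omega, h3, h7, rfl, rfl, h4⟩)
  · subst h5 h6
    exact Or.inl ⟨by omega, by omega, h3, h7, rfl, rfl, h4⟩
  · subst h4 h5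
    exact Or.inr (Or.inr (Or.inr (Or.inl ⟨h1, h2, h6, rfl, rfl, h3⟩)))
  · subst h4 h5
    exact Or.inr (Or.inr (Or.inl ⟨h1, h2, h6, rfl, rfl, h3⟩))
  · subst h5 h6
    exact Or.inr (Or.inr (Or.inr (Or.inr (Or.inr (Or.inl ⟨h1, h2, h3, h7, rfl, rfl, by omega⟩)))))
  · subst h5 h6
    exact Or.inr (Or.inr (Or.inr (Or.inr (Or.inl ⟨h1, h2, h3, by omega, rfl, rfl, h4⟩))))
  · subst h5 h6
    exact Or.inr (Or.inr (Or.inr (Or.inr (Or.inr (Or.inr (Or.inr ⟨h1, h2, h3, h7, rfl, rfl, h4⟩))))))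
  · subst h5 h6
    exact Or.inr (Or.inr (Or.inr (Or.inr (Or.inr (Or.inr (Or.inl ⟨h1, h2, h3, h7, rfl, rfl, h4⟩))))))

/-- The indices of a new pair are in the region. -/
theorem val (G : Hl2 P C ω a α n0 n) (H : Rn T P C E) (hE : n < E) {m : ℕ} {s : S} {r m' : ℕ} {s' : S} {r' : ℕ}
    (hn : NI2 ω a α C.h n0 n m s r m' s' r') : n0 ≤ m ∧ m ≤ n ∧ r ≤ C.h m s := by
  have hlt := G.lt
  rcases hn with ⟨h1, h2, h3, h4, h5, h6, h7⟩ | ⟨h1, h2, h3, h4, h5, h6, h7⟩ | ⟨h1, h2, h3, h4, h5, h6⟩ |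
    ⟨h1, h2, h3, h4, h5, h6⟩ | ⟨h1, h2, h3, h4, h5, h6, h7⟩ | ⟨h1, h2, h3, h4, h5, h6, h7⟩ |
    ⟨h1, h2, h3, h4, h5, h6, h7⟩ | ⟨h1, h2, h3, h4, h5, h6, h7⟩
  · exact ⟨h1, h2.le, h4.le⟩
  · exact ⟨h1.le, h2, by omega⟩
  · exact ⟨h1.ge, by omega, by omega⟩
  · have := H.hpos m s (by omega)
    exact ⟨h1.ge, by omega, by omega⟩
  · exact ⟨h1.le, h2, by omega⟩
  · exact ⟨h1.le, h2, h4.le⟩
  · exact ⟨h1, h2, by omega⟩
  · have := H.hpos m s (by omega)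
    exact ⟨h1, h2, by omega⟩

theorem new_reg (G : Hl2 P C ω a α n0 n) (H : Rn T P C E) (hE : n < E) {x y : Q} (h : New2 ω a α C n0 n x y) :
    x ∈ C.reg n0 n := by
  obtain ⟨m, s, r, m', s', r', hn, rfl, rfl⟩ := h
  obtain ⟨h1, h2, h3⟩ := G.val H hE hn
  exact ⟨m, h1, h2, C.mem h3⟩

/-- New pairs are edges of the old 2-factor. -/
theorem new_adj (G : Hl2 P C ω a α n0 n) (H : Rn T P C E) (hE : n < E) {x y : Q} (h : New2 ω a α C n0 n x y) :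
    T.Adj x y := by
  have hlt := G.lt
  obtain ⟨m, s, r, m', s', r', hn, rfl, rfl⟩ := h
  rcases hn with ⟨h1, h2, h3, h4, h5, h6, h7⟩ | ⟨h1, h2, h3, h4, h5, h6, h7⟩ | ⟨h1, h2, h3, h4, h5, h6⟩ |
    ⟨h1, h2, h3, h4, h5, h6⟩ | ⟨h1, h2, h3, h4, h5, h6, h7⟩ | ⟨h1, h2, h3, h4, h5, h6, h7⟩ |
    ⟨h1, h2, h3, h4, h5, h6, h7⟩ | ⟨h1, h2, h3, h4, h5, h6, h7⟩
  · rw [h4, h5, h6, h7]
    exact (H.gate m s (by omega)).1
  · rw [h4, ← h5, h6, h7]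
    exact (H.gate m' s (by omega)).1.symm
  · rw [h3, h4, h5, h6]
    have := H.hpos m s (by omega)
    exact (H.line m s 0 (by omega) (by omega)).1
  · rw [h3, h4, h5, h6]
    have := H.hpos m s (by omega)
    exact (H.line m s 0 (by omega) (by omega)).1.symm
  · rw [h5, h6, h7, ← h4]
    exact (H.line m s r (by omega) (by omega)).1
  · rw [h5, h6, ← h7]
    exact (H.line m s r' (by omega) (by omega)).1.symm
  · rw [h4, h5, h6, h7]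
    have := H.hpos m s (by omega)
    exact (H.line m s 0 (by omega) (by omega)).1
  · rw [h4, h5, h6, h7]
    have := H.hpos m s (by omega)
    exact (H.line m s 0 (by omega) (by omega)).1.symm

/-- The vertices of the two paths have new partners. -/
theorem dom_w (_G : Hl2 P C ω a α n0 n) {m : ℕ} (h1 : n0 ≤ m) (h2 : m ≤ n) : ∃ m' s' r',
    NI2 ω a α C.h n0 n m (ω m) 0 m' s' r' ∧ ((m' + 1 = m ∧ n0 < m) ∨ (m' = m ∧ m = n0 ∧ s' = ω m ∧ r' = 1)) := by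
  rcases Nat.lt_or_ge n0 m with h | h
  · exact ⟨m - 1, ω m, C.h (m - 1) (ω m), Or.inr (Or.inl ⟨h, h2, rfl, rfl, by omega, rfl, rfl⟩), Or.inl ⟨by omega, h⟩⟩
  · have h3 : m = n0 := by omega
    exact ⟨m, ω m, 1, Or.inr (Or.inr (Or.inl ⟨h3, rfl, rfl, rfl, rfl, rfl⟩)), Or.inr ⟨rfl, h3, rfl, rfl⟩⟩

theorem dom_b (_G : Hl2 P C ω a α n0 n) {m : ℕ} (h1 : n0 ≤ m) (h2 : m < n) : ∃ m' s' r',
    NI2 ω a α C.h n0 n m (ω (m + 1)) (C.h m (ω (m + 1))) m' s' r' ∧ m' = m + 1 :=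
  ⟨m + 1, ω (m + 1), 0, Or.inl ⟨h1, h2, rfl, rfl, rfl, rfl, rfl⟩, rfl⟩

theorem dom_j (G : Hl2 P C ω a α n0 n) {m : ℕ} (h1 : n0 < m) (h2 : m ≤ n) : ∃ m' s' r',
    NI2 ω a α C.h n0 n m (α m) (C.h m (α m) - 1) m' s' r' ∧ m' = m :=
  ⟨m, α m, C.h m (α m), Or.inr (Or.inr (Or.inr (Or.inr (Or.inl ⟨h1, h2, rfl, by have := G.hα h1 h2; omega, rfl, rfl,
    rfl⟩)))), rfl⟩

theorem dom_j' (G : Hl2 P C ω a α n0 n) {m : ℕ} (h1 : n0 < m) (h2 : m ≤ n) : ∃ m' s' r',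
    NI2 ω a α C.h n0 n m (α m) (C.h m (α m)) m' s' r' ∧ m' = m :=
  ⟨m, α m, C.h m (α m) - 1, Or.inr (Or.inr (Or.inr (Or.inr (Or.inr (Or.inl ⟨h1, h2, rfl, rfl, rfl, rfl,
    by have := G.hα h1 h2; omega⟩))))), rfl⟩

theorem dom_a0 (_G : Hl2 P C ω a α n0 n) {m : ℕ} (h1 : n0 ≤ m) (h2 : m ≤ n) :
    NI2 ω a α C.h n0 n m (a m) 0 m (a m) 1 :=
  Or.inr (Or.inr (Or.inr (Or.inr (Or.inr (Or.inr (Or.inl ⟨h1, h2, rfl, rfl, rfl, rfl, rfl⟩))))))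

theorem dom_a1 (_G : Hl2 P C ω a α n0 n) {m : ℕ} (h1 : n0 ≤ m) (h2 : m ≤ n) :
    NI2 ω a α C.h n0 n m (a m) 1 m (a m) 0 :=
  Or.inr (Or.inr (Or.inr (Or.inr (Or.inr (Or.inr (Or.inr ⟨h1, h2, rfl, rfl, rfl, rfl, rfl⟩))))))

/-- The domain of the new pairs is closed under `P`. -/
theorem new_cl (G : Hl2 P C ω a α n0 n) (H : Rn T P C E) {x y : Q} (h : New2 ω a α C n0 n x y) :
    ∃ z, New2 ω a α C n0 n (P x) z := by
  have hlt := G.lt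
  have hi : ∀ x y, P x = y → P y = x := fun x y h => by rw [← h, H.mch.inv]
  have put : ∀ {m : ℕ} {s : S} {r : ℕ} {w : Q}, P w = C.Z m s r → (∃ m' s' r', NI2 ω a α C.h n0 n m s r m' s' r') →
      ∃ z, New2 ω a α C n0 n (P w) z := by
    rintro m s r w hw ⟨m', s', r', hn⟩
    exact ⟨C.Z m' s' r', m, s, r, m', s', r', hn, hw, rfl⟩
  obtain ⟨m, s, r, m', s', r', hn, rfl, rfl⟩ := h
  rcases hn with ⟨h1, h2, h3, h4, h5, h6, h7⟩ | ⟨h1, h2, h3, h4, h5, h6, h7⟩ | ⟨h1, h2, h3, h4, h5, h6⟩ |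
    ⟨h1, h2, h3, h4, h5, h6⟩ | ⟨h1, h2, h3, h4, h5, h6, h7⟩ | ⟨h1, h2, h3, h4, h5, h6, h7⟩ |
    ⟨h1, h2, h3, h4, h5, h6, h7⟩ | ⟨h1, h2, h3, h4, h5, h6, h7⟩
  · rw [h4, h3]
    exact put (hi _ _ (G.om m h1 h2.le)) (by
      obtain ⟨m', s', r', h, _⟩ := G.dom_w h1 h2.le
      exact ⟨m', s', r', h⟩)
  · rw [h4, h3]
    rcases Nat.lt_or_ge m n with h | h
    · exact put (G.om m h1.le h2) (by
        obtain ⟨m', s', r', h, _⟩ := G.dom_b h1.le h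
        exact ⟨m', s', r', h⟩)
    · have h8 : m = n := le_antisymm h2 h
      subst h8
      have h9 := G.pn
      rw [G.hn] at h9
      exact put h9 ⟨_, _, _, G.dom_a1 h1.le h2⟩
  · rw [h3, h2]
    exact put (G.om m h1.ge (by omega)) (by
      obtain ⟨m', s', r', h, _⟩ := G.dom_b (m := m) h1.ge (by omega)
      exact ⟨m', s', r', h⟩)
  · subst h1
    have h8 := hi _ _ G.p0
    rw [G.h0] at h8
    rw [h3, h2]
    exact put h8 ⟨_, _, _, G.dom_a0 le_rfl hlt.le⟩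
  · have h8 := (G.st (m - 1) (by omega) (by omega)).sea
    rw [show m - 1 + 1 = m by omega] at h8
    rw [h3] at h4 ⊢
    rw [show r = C.h m (α m) - 1 by omega]
    exact put (hi _ _ h8) ⟨_, _, _, G.dom_a1 (m := m - 1) (by omega) (by omega)⟩
  · rw [h4, h3]
    exact put (hi _ _ (G.wA h1 h2)) ⟨_, _, _, G.dom_a0 h1.le h2⟩
  · rw [h4, h3]
    rcases Nat.lt_or_ge n0 m with h | h
    · refine put (G.wA h h2) ?_
      obtain ⟨m', s', r', h, _⟩ := G.dom_j' h h2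
      exact ⟨m', s', r', h⟩
    · have h8 : m = n0 := le_antisymm h h1
      subst h8
      have h9 := G.p0
      rw [G.h0] at h9
      exact put h9 ⟨m, ω m, 0, Or.inr (Or.inr (Or.inr (Or.inl ⟨rfl, rfl, rfl, rfl, rfl, rfl⟩)))⟩
  · rw [h4, h3]
    rcases Nat.lt_or_ge m n with h | h
    · refine put (G.st m h1 h).sea ?_
      obtain ⟨m', s', r', h, _⟩ := G.dom_j (m := m + 1) (by omega) (by omega)
      exact ⟨m', s', r', h⟩
    · have h8 : m = n := le_antisymm h2 h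
      subst h8
      have h9 := hi _ _ G.pn
      rw [G.hn] at h9
      refine put h9 ?_
      obtain ⟨m', s', r', h, _⟩ := G.dom_w h1 h2
      exact ⟨m', s', r', h⟩

theorem chg (G : Hl2 P C ω a α n0 n) (L : Pl2 ω a α n0 n κ f) (H : Rn T P C E) (hE : n < E) :
    Tri.Chg T P (New2 ω a α C n0 n) where
  fn x y y' h h' := by
    obtain ⟨m, s, r, m₁, s₁, r₁, hn, hx, rfl⟩ := h
    obtain ⟨m₀, s₀, r₀, m₂, s₂, r₂, hn', hx', rfl⟩ := h'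
    obtain ⟨v1, v2, v3⟩ := G.val H hE hn
    obtain ⟨w1, w2, w3⟩ := G.val H hE hn'
    obtain ⟨rfl, rfl, rfl⟩ := H.inj _ _ _ _ _ _ (by omega) (by omega) v3 w3 (hx.symm.trans hx')
    have h1 := (G.nu_eq L H hE hn).trans (G.nu_eq L H hE hn').symm
    simp only [Prod.mk.injEq] at h1
    obtain ⟨rfl, rfl, rfl⟩ := h1
    rfl
  sym x y h := by
    obtain ⟨m, s, r, m', s', r', hn, rfl, rfl⟩ := h
    exact ⟨m', s', r', m, s, r, hn.sym, rfl, rfl⟩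
  adj x y h := G.new_adj H hE h
  cl x y h := G.new_cl H h

theorem new_at (G : Hl2 P C ω a α n0 n) (H : Rn T P C E) (hE : n < E) {m : ℕ} {s : S} {r m' : ℕ} {s' : S} {r' : ℕ}
    (hm : m ≤ n) (hr : r ≤ C.h m s) (hm' : m' ≤ n) (hr' : r' ≤ C.h m' s')
    (h : New2 ω a α C n0 n (C.Z m s r) (C.Z m' s' r')) : NI2 ω a α C.h n0 n m s r m' s' r' := by
  obtain ⟨m₁, s₁, r₁, m₂, s₂, r₂, hn, hx, hy⟩ := h
  obtain ⟨v1, v2, v3⟩ := G.val H hE hn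
  obtain ⟨w1, w2, w3⟩ := G.val H hE hn.sym
  obtain ⟨rfl, rfl, rfl⟩ := H.inj _ _ _ _ _ _ (by omega) (by omega) hr v3 hx
  obtain ⟨rfl, rfl, rfl⟩ := H.inj _ _ _ _ _ _ (by omega) (by omega) hr' w3 hy
  exact hn

/-- All conditions on the changed 2-factor. -/
theorem ok (G : Hl2 P C ω a α n0 n) (L : Pl2 ω a α n0 n κ f) (H : Rn T P C E) (hE : n < E) (hii : ∀ g, B.inv (B.inv g) = g) :
    Ok2 C (Ed (((G.chg L H hE).mch H.mch).hf hii)) ω a α n0 n κ f := by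
  have hlt := G.lt
  have hN := G.chg L H hE
  have old : ∀ {m : ℕ} {s : S} {r m' : ℕ} {s' : S} {r' m₁ : ℕ} {s₁ : S} {r₁ : ℕ},
      P (C.Z m s r) = C.Z m' s' r' → m' ≤ n → r' ≤ C.h m' s' → NI2 ω a α C.h n0 n m s r m₁ s₁ r₁ →
      (m₁ ≠ m' ∨ s₁ ≠ s') → Ed ((hN.mch H.mch).hf hii) (C.Z m s r) (C.Z m' s' r') := by
    intro m s r m' s' r' m₁ s₁ r₁ h1 h2 h3 h4 h5
    refine hN.ed_of_new H.mch hii h1 ⟨m, s, r, m₁, s₁, r₁, h4, rfl, rfl⟩ fun h => ?_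
    obtain ⟨v1, v2, v3⟩ := G.val H hE h4.sym
    obtain ⟨e1, e2, -⟩ := H.inj _ _ _ _ _ _ (by omega) (by omega) v3 h3 h
    rcases h5 with h5 | h5
    · exact h5 e1
    · exact h5 e2
  refine
    { sym := fun _ _ h => h.symm
      lt := hlt
      h0 := G.h0
      e0 := ?_
      k0 := L.k0
      line := ?_
      gate := ?_
      sea := ?_
      wall := ?_
      wA := ?_
      kA := L.kA
      op := fun m h1 h2 => ⟨G.op m h1 h2, G.ωα L H hE h1 h2.le⟩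
      hα := fun m h1 h2 => G.hα h1 h2
      ha := fun m h1 h2 => G.ha h1 h2
      hn := G.hn
      en := ?_
      kn := by rw [G.an]; exact L.kom n hlt.le le_rfl
      kap := L.kap
      kom := fun m h1 h2 => L.kom m h1 h2.le
      kse := L.kse
      f0 := L.f0
      ne := L.ne }
  · have h1 := G.p0
    have h2 := old h1 hlt.le le_rfl (G.dom_a0 le_rfl hlt.le) (Or.inr (G.aω L le_rfl hlt.le))
    rwa [G.h0] at h2
  · intro m s r h1 h2 h3 h4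
    obtain ⟨a1, a2⟩ := H.line m s r (by omega) h3
    refine hN.ed_of_not H.mch hii a1 (fun h => h4 ?_) a2
    have h5 := G.new_at H hE h2 h3.le h2 (show r + 1 ≤ C.h m s from h3) h
    rcases h5 with ⟨k1, k2, k3, k4, k5, k6, k7⟩ | ⟨k1, k2, k3, k4, k5, k6, k7⟩ | ⟨k1, k2, k3, k4, k5, k6⟩ |
      ⟨k1, k2, k3, k4, k5, k6⟩ | ⟨k1, k2, k3, k4, k5, k6, k7⟩ | ⟨k1, k2, k3, k4, k5, k6, k7⟩ |
      ⟨k1, k2, k3, k4, k5, k6, k7⟩ | ⟨k1, k2, k3, k4, k5, k6, k7⟩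
    · omega
    · omega
    · exact Or.inl ⟨k1, k2, k3⟩
    · omega
    · exact Or.inr (Or.inl ⟨k1, k3, by rw [← k3]; exact k4⟩)
    · omega
    · exact Or.inr (Or.inr ⟨k3, k4⟩)
    · omega
  · intro m s h1 h2 h3
    obtain ⟨a1, a2⟩ := H.gate m s (by omega)
    refine hN.ed_of_not H.mch hii a1 (fun h => ?_) a2
    have h5 := G.new_at H hE h2.le le_rfl (show m + 1 ≤ n from h2) (Nat.zero_le _) h
    rcases h5 with ⟨k1, k2, k3, k4, k5, k6, k7⟩ | ⟨k1, k2, k3, k4, k5, k6, k7⟩ | ⟨k1, k2, k3, k4, k5, k6⟩ |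
      ⟨k1, k2, k3, k4, k5, k6⟩ | ⟨k1, k2, k3, k4, k5, k6, k7⟩ | ⟨k1, k2, k3, k4, k5, k6, k7⟩ |
      ⟨k1, k2, k3, k4, k5, k6, k7⟩ | ⟨k1, k2, k3, k4, k5, k6, k7⟩
    · exact h3 k3
    all_goals omega
  · intro m h1 h2
    exact old (G.st m h1 h2).sea h2 (Nat.sub_le _ _) (G.dom_a1 h1 h2.le) (Or.inl (by omega))
  · intro m h1 h2
    obtain ⟨m₁, s₁, r₁, h3, h4⟩ := G.dom_w h1 h2.le
    refine old (G.om m h1 h2.le) h2.le le_rfl h3 ?_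
    rcases h4 with ⟨h4, h5⟩ | ⟨h4, h5, h6, -⟩
    · exact Or.inl (by omega)
    · exact Or.inr (by rw [h6]; exact (ω_ne L h1 h2.le).symm)
  · intro m h1 h2
    exact old (G.wA h1 h2) h2 le_rfl (G.dom_a0 h1.le h2) (Or.inr (aα L h1 h2))
  · obtain ⟨m₁, s₁, r₁, h3, h4⟩ := G.dom_w hlt.le le_rfl
    have h5 := old G.pn le_rfl le_rfl h3 (Or.inl (by omega))
    rwa [G.hn] at h5

/-- THE T-GADGET for a matching. -/
theorem real [DecidableEq S] [Finite S] (G : Hl2 P C ω a α n0 n) (L : Pl2 ω a α n0 n κ f) (H : Rn T P C E) (hE : n < E)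
    (hii : ∀ g, B.inv (B.inv g) = g) {A : Set S} (hA : ∀ m, n0 ≤ m → m ≤ n → ω m ∈ A ∧ a m ∈ A ∧ (n0 < m → α m ∈ A)) :
    ∃ σ : Perm S, (∀ s, s ∉ A → σ s = s) ∧ σ (ω n0) = ω (n + 1) ∧ σ (ω (n0 + 1)) = ω n ∧ ω n0 ≠ ω (n0 + 1) ∧
    Real (Ed (((G.chg L H hE).mch H.mch).hf hii)) (C.reg n0 n) (fun s => C.Z n0 s 0) (fun s => C.Z n s (C.h n s))
      (win (ω n0) (ω (n0 + 1)) σ) := by
  obtain ⟨σ, h1, h2, h3, h4⟩ := (G.ok L H hE hii).real hA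
  exact ⟨σ, h1, by rw [h2, G.an], h3, (ω_ne L le_rfl G.lt.le).symm, h4⟩

end

end Hl2

end Pool.Agent.Lib.MP_688fd0_co.SQ5.H60
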