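import Pool.Agent.Lib.MP_688fd0_co.SQ5.H60.Gad2
import Pool.Agent.Lib.MP_688fd0_co.SQ5.H60.D3
import Pool.Agent.Lib.MP_688fd0_co.SQ5.H22.Gad4

/-!
MP_688fd0_co, type C2, FT, DEGEN3 (helper60), part (B): T-gadgets which start and end in a strip of width 2, in the chart of a
run (helper76's `Bd`, `Rg`).

`HG`: the rung at the wall `J` in block `m0`, the hole line at the wall `W j` in block `m0 + j`. `hE`: its white ends. RESULT
`HG.gadget`, in the form of helper22's `GadR.gadget`.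
-/

set_option autoImplicit false

namespace Pool.Agent.Lib.MP_688fd0_co.SQ5.H60

open Function Equiv
open Pool.Agent.Lib.MP_688fd0_co.OSF Pool.Agent.Lib.MP_688fd0_co.SQ2 Pool.Agent.Lib.MP_688fd0_co.SQ3
open Pool.Agent.Lib.MP_688fd0_co.SQ5.H64 Pool.Agent.Lib.MP_688fd0_co.SQ5.H22
open Pool.Agent.Lib.MP_688fd0_co.SQ5.H95 (HF)
open Pool.Agent.Lib.MP_688fd0_co.SQ5.H76 (L3 V nb nb_nb wl ow Bd Cov Geo Sd qq bw col thr thr_Z Z_over q_sq tri EqL)
open Pool.Agent.Lib.MP_688fd0_co.SQ5.H20 (LG KG SG)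

universe u v

variable {Q : Type u} [Group Q] {B : Lb.{u, v} Q} {l : L3 → B.L} {L : AddSubgroup (ℤ × ℤ)}

/-- The geometry of the hole line. -/
structure HG (B : Lb.{u, v} Q) (l : L3 → B.L) (D : Bd) (s0 κ0 κ1 : ℤ) (m0 i : ℕ) (J : ℤ) (W : ℕ → ℤ) : Prop where
  ipos : 0 < i
  h0 : D.hw (D.sp (J + D.cs (s0 + m0)) (s0 + m0)) = 1
  w0 : W 0 + D.cs (s0 + m0) + (if D.b (s0 + m0) = true then 1 else -1) = J + D.cs (s0 + m0)
  sk : ∀ j < i, D.sk (W j + D.cs (s0 + (m0 + j : ℕ))) (s0 + (m0 + j : ℕ)) =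
    W (j + 1) + D.cs (s0 + (m0 + j : ℕ) + 1) + if D.b (s0 + (m0 + j : ℕ) + 1) = true then 1 else -1
  hw2 : ∀ j < i, 2 ≤ D.hw (D.sp (W j + D.cs (s0 + (m0 + j : ℕ))) (s0 + (m0 + j : ℕ)))
  hws : ∀ j < i, D.b (s0 + (m0 + j : ℕ)) = D.b (s0 + (m0 + j : ℕ) + 1) →
    D.hw (D.sp (W j + D.cs (s0 + (m0 + j : ℕ))) (s0 + (m0 + j : ℕ))) = 2
  ne : ∀ j < i, ((B.q (l .a) * B.q (l .b)) ^ (D.hw (D.sp (W j + D.cs (s0 + (m0 + j : ℕ))) (s0 + (m0 + j : ℕ))) - 1) *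
    B.q (l .t)) ^ 2 ≠ 1
  hn : D.hw (D.sp (W i + D.cs (s0 + (m0 + i : ℕ))) (s0 + (m0 + i : ℕ))) = 1
  wn : W i + D.cs (s0 + (m0 + i : ℕ)) = J + D.cs (s0 + (m0 + i : ℕ) + 1)
  op : ∀ j, 0 < j → j < i → W j ≠ J
  lab : ∀ j ≤ i, κ0 ≤ W j + D.cs (s0 + (m0 + j : ℕ)) ∧ W j + D.cs (s0 + (m0 + j : ℕ)) ≤ κ1
  labα : ∀ j, 0 < j → j ≤ i → κ0 ≤ W j + D.cs (s0 + (m0 + j : ℕ)) + (if D.b (s0 + (m0 + j : ℕ)) = true then 1 else -1) ∧
    W j + D.cs (s0 + (m0 + j : ℕ)) + (if D.b (s0 + (m0 + j : ℕ)) = true then 1 else -1) ≤ κ1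
  labJ : ∀ j ≤ i + 1, κ0 ≤ J + D.cs (s0 + (m0 + j : ℕ)) ∧ J + D.cs (s0 + (m0 + j : ℕ)) ≤ κ1

/-- The white ends of the hole line. -/
def hE (q : L3 → Q) (b : ℕ → Bool) (v0 : Q) : ℕ → Q
  | 0 => v0 * (q (ow (b 0)) * q (wl (b 0)))
  | j + 1 => hE q b v0 j * (q (ow (b j)) * q .t) * (q (ow (b (j + 1))) * q (wl (b (j + 1))))

/-- The white ends of the wall path. -/
def hB (q : L3 → Q) (b : ℕ → Bool) (v0 : Q) : ℕ → Q
  | 0 => v0
  | j + 1 => hB q b v0 j * (q (wl (b j)) * q .t)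

theorem hB_pr {q : L3 → Q} {b : ℕ → Bool} {x : ℤ} (hb : ∀ j : ℕ, b j = bw (x + j)) (v0 : Q) (j : ℕ) :
    hB q b v0 j = v0 * H20.pr (LG (q .a) (q .b) (q .t)) x j := by
  induction j with
  | zero => simp [hB, H20.pr]
  | succ j ih =>
    show hB q b v0 j * (q (wl (b j)) * q .t) = v0 * (H20.pr _ x j * LG _ _ _ (x + j))
    rw [ih, hb, ← LL_bw, mul_assoc]
    rfl

namespace HG

variable {M R : ℕ} {dc : ℕ → ℤ} {spc : ℕ → Prop} {G : ℤ} {g : Geo L M R dc spc G} {c : Cov B l L} {D : Bd} {s0 : ℤ} {E : ℕ}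
  {K0 K1 κ0 κ1 ph : ℤ} {m0 i : ℕ} {J : ℤ} {W : ℕ → ℤ} (X : HG B l D s0 κ0 κ1 m0 i J W)

include X

/-- The hole line. -/
theorem ovA {v0 : Q} (hv : c.Over v0 (D.st (J + D.cs (s0 + m0)) (s0 + m0) 0)) (j : ℕ) (hj : j ≤ i) :
    c.Over (hE (qq B l) (fun j => D.b (s0 + (m0 + j : ℕ))) v0 j)
      (D.st (W j + D.cs (s0 + (m0 + j : ℕ))) (s0 + (m0 + j : ℕ)) 0) := by
  induction j with
  | zero =>
    have h1 := over_end c D (κ := W 0 + D.cs (s0 + m0)) (κ' := J + D.cs (s0 + m0)) (s := s0 + m0) (y := v0) X.w0.symm (by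
      have : D.ln (J + D.cs (s0 + m0)) (s0 + m0) - 1 = 0 := by
        unfold Bd.ln
        rw [X.h0]
      rw [this]
      exact hv)
    exact h1
  | succ j ih =>
    have h1 := over_sea c D (ih (by omega)) (X.hw2 j (by omega)) (X.hws j (by omega))
    have h2 := over_end c D (X.sk j (by omega)) h1
    have e : s0 + ((m0 + (j + 1) : ℕ) : ℤ) = s0 + (m0 + j : ℕ) + 1 := by push_cast; ring
    show c.Over (hE (qq B l) (fun j => D.b (s0 + (m0 + j : ℕ))) v0 j *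
      (qq B l (ow (D.b (s0 + (m0 + j : ℕ)))) * qq B l .t) * (qq B l (ow (D.b (s0 + (m0 + (j + 1) : ℕ)))) *
      qq B l (wl (D.b (s0 + (m0 + (j + 1) : ℕ)))))) _
    rw [e]
    exact h2

/-- The wall of the rung. -/
theorem overB {v0 : Q} (hv : c.Over v0 (D.st (J + D.cs (s0 + m0)) (s0 + m0) 0)) (j : ℕ) :
    c.Over (hB (qq B l) (fun j => D.b (s0 + (m0 + j : ℕ))) v0 j)
      (D.st (J + D.cs (s0 + (m0 + j : ℕ))) (s0 + (m0 + j : ℕ)) 0) := by
  clear X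
  induction j with
  | zero => exact hv
  | succ j ih =>
    have h1 := over_wall c D ih
    have e : s0 + ((m0 + (j + 1) : ℕ) : ℤ) = s0 + (m0 + j : ℕ) + 1 := by push_cast; ring
    rw [e, D.hcs]
    have e3 : J + (D.cs (s0 + (m0 + j : ℕ)) + if D.b (s0 + (m0 + j : ℕ)) = true then 1 else -1) =
        J + D.cs (s0 + (m0 + j : ℕ)) + if D.b (s0 + (m0 + j : ℕ)) = true then 1 else -1 := by ring
    rw [e3]
    exact h1

/-- The sea edge joins different strands. -/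
theorem ne_sea (hi : ∀ i, B.inv (l i) = l i) {j : ℕ} (hj : j < i) {s : Sd c D s0 κ0 κ1}
    (hs : s.1.1 = W j + D.cs (s0 + (m0 + j : ℕ))) (hb : D.b (s0 + (m0 + j : ℕ)) ≠ D.b (s0 + (m0 + j : ℕ) + 1))
    (h : (D.chart c s0 κ0 κ1).Z (m0 + j) s 1 * B.q (l .t) =
      (D.chart c s0 κ0 κ1).Z (m0 + j + 1) s ((D.chart c s0 κ0 κ1).h (m0 + j + 1) s - 1)) : False := by
  set m := m0 + j with hm
  set q : L3 → Q := qq B l with hq
  have hqq : ∀ i, q i * q i = 1 := fun i => q_sq hi i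
  have hqi : ∀ i, (q i)⁻¹ = q i := fun i => inv_eq_of_mul_eq_one_left (hqq i)
  obtain ⟨k, hk⟩ : ∃ k, D.hw (D.sp s.1.1 (s0 + m)) = k + 1 := ⟨D.hw (D.sp s.1.1 (s0 + m)) - 1, by
    have := X.hw2 j hj
    rw [← hm, ← hs] at this
    omega⟩
  have hsk : D.sk s.1.1 (s0 + m) = s.1.1 := by
    unfold Bd.sk
    revert hb
    cases D.b (s0 + m) <;> cases D.b (s0 + m + 1) <;> simp
  have hln : D.ln s.1.1 (s0 + m) = 2 * k + 1 := by
    unfold Bd.ln
    omega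
  have hln' : (D.chart c s0 κ0 κ1).h (m + 1) s - 1 = 2 * k := by
    show D.ln s.1.1 (s0 + ((m + 1 : ℕ) : ℤ)) - 1 = 2 * k
    have e : s0 + ((m + 1 : ℕ) : ℤ) = s0 + m + 1 := by push_cast; ring
    have h1 := ln_sk D s.1.1 (s0 + m)
    rw [hsk] at h1
    rw [e, h1, hln]
    omega
  have hne := X.ne j hj
  rw [← hm, ← hs, hk, Nat.add_sub_cancel] at hne
  have hne' := sea_rel q hqq (D.b (s0 + m)) k hne
  apply hne'
  rw [hln', cZ_lw c D m s 1, cZ_lw c D (m + 1) s (2 * k), cZ_up,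
    cZ_lw c D m s ((D.chart c s0 κ0 κ1).h m s)] at h
  have e : s0 + ((m + 1 : ℕ) : ℤ) = s0 + m + 1 := by push_cast; ring
  have hh : (D.chart c s0 κ0 κ1).h m s = 2 * k + 1 := hln
  rw [hh, e] at h
  have hb' : D.b (s0 + m + 1) = !D.b (s0 + m) := by
    revert hb
    cases D.b (s0 + m) <;> cases D.b (s0 + m + 1) <;> simp
  have hlw : Bd.lw (qq B l) (D.b (s0 + m + 1)) (2 * k) = (q (wl (D.b (s0 + m))) * q (ow (D.b (s0 + m)))) ^ k := by
    rw [lw_even, hb']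
    cases D.b (s0 + m) <;> simp [wl, ow, hq]
  have hlw1 : Bd.lw (qq B l) (D.b (s0 + m)) 1 = q (ow (D.b (s0 + m))) := by
    show 1 * _ = _
    rw [one_mul]
    rfl
  have hlw2 : Bd.lw (qq B l) (D.b (s0 + m)) (2 * k + 1) =
      q (ow (D.b (s0 + m))) * (q (wl (D.b (s0 + m))) * q (ow (D.b (s0 + m)))) ^ k := by
    have h1 : ∀ (x y : Q) (k : ℕ), (x * y) ^ k * x = x * (y * x) ^ k := by
      intro x y k
      induction k with
      | zero => simp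
      | succ k ih =>
        rw [pow_succ', mul_assoc, ih, pow_succ']
        simp only [mul_assoc]
    rw [Bd.lw_succ, lw_even]
    have h2 : H76.ll (D.b (s0 + m)) (2 * k) = ow (D.b (s0 + m)) := by unfold H76.ll; rw [if_pos (by omega)]
    rw [h2]
    exact h1 _ _ k
  rw [hlw, hlw1, hlw2] at h
  set z := (q (wl (D.b (s0 + m))) * q (ow (D.b (s0 + m)))) ^ k with hz
  set w0 := (D.chart c s0 κ0 κ1).Z m s 0 with hw0
  have h3 : w0 * q (ow (D.b (s0 + m))) * q .t = w0 * (q (ow (D.b (s0 + m))) * z) * q .t * z := h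
  have h4 : q .t = z * q .t * z := by
    have e1 : w0 * (q (ow (D.b (s0 + m))) * z) * q .t * z = w0 * q (ow (D.b (s0 + m))) * (z * q .t * z) := by group
    rw [e1] at h3
    exact mul_left_cancel h3
  rw [pow_two]
  calc z * q .t * (z * q .t) = z * q .t * z * q .t := by group
    _ = 1 := by rw [← h4, hqq]

/-- THE T-GADGET OF A RUNG. -/
theorem gadget [Finite Q] [DecidableEq (Sd c D s0 κ0 κ1)] (hrg : Geo.Rg g D s0 E K0 K1 κ0 κ1)
    (hbw : ∀ m : ℤ, D.b (s0 + m) = bw (ph + m)) (hl : Function.Injective l)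
    (hi : ∀ i, B.inv (l i) = l i) (hq : Function.Injective (qq B l)) (hii : ∀ x, B.inv (B.inv x) = x) {v0 : Q}
    (hE' : m0 + i < E) (hv : c.Over v0 (D.st (J + D.cs (s0 + m0)) (s0 + m0) 0))
    (hclo : hE (qq B l) (fun j => D.b (s0 + (m0 + j : ℕ))) v0 i = hB (qq B l) (fun j => D.b (s0 + (m0 + j : ℕ))) v0 i *
      (B.q (l (wl (D.b (s0 + (m0 + i : ℕ))))) * B.q (l (ow (D.b (s0 + (m0 + i : ℕ))))))) :
    ∃ (ω : ℕ → Sd c D s0 κ0 κ1) (A : Set (Sd c D s0 κ0 κ1)) (σ : Perm (Sd c D s0 κ0 κ1)),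
      (∀ j ≤ i + 1, (ω (m0 + j)).1.1 = J + D.cs (s0 + (m0 + j : ℕ)) ∧ (D.chart c s0 κ0 κ1).Z (m0 + j) (ω (m0 + j)) 0 =
        v0 * H20.pr (LG (B.q (l .a)) (B.q (l .b)) (B.q (l .t))) (ph + m0) j) ∧
      A.ncard ≤ 3 * (i + 1) ∧ (∀ s, s ∉ A → σ s = s) ∧ ω m0 ∈ A ∧ ω (m0 + 1) ∈ A ∧ ω m0 ≠ ω (m0 + 1) ∧
      σ (ω m0) = ω (m0 + i + 1) ∧ σ (ω (m0 + 1)) = ω (m0 + i) ∧ IsPair (H64.win (ω m0) (ω (m0 + 1)) σ) ∧
      ∃ F' : HF B, (∀ x, x ∉ (D.chart c s0 κ0 κ1).reg m0 (m0 + i) → F'.H x = (g.F c hl hi hii).H x) ∧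
        (∀ x, ∀ y ∈ F'.H x, ∃ j : L3, y = l j) ∧
        Real F'.Ed ((D.chart c s0 κ0 κ1).reg m0 (m0 + i)) (fun s => (D.chart c s0 κ0 κ1).Z m0 s 0)
          (fun s => (D.chart c s0 κ0 κ1).Z (m0 + i) s ((D.chart c s0 κ0 κ1).h (m0 + i) s))
          (H64.win (ω m0) (ω (m0 + 1)) σ) := by
  classical
  set Ch := D.chart c s0 κ0 κ1 with hCh
  set P := g.Pm c with hP
  set bb : ℕ → Bool := fun j => D.b (s0 + (m0 + j : ℕ)) with hbb
  have H : Rn (tri l hi hq) P Ch E := hrg.rn c hi hq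
  have hov := X.overB (c := c) hv
  have how := X.ovA (c := c) hv
  have hi0 := X.ipos
  -- the wall path
  have hexω : ∀ m, ∃ s : Sd c D s0 κ0 κ1, ∀ j ≤ i + 1, m = m0 + j → s.1.1 = J + D.cs (s0 + (m0 + j : ℕ)) ∧
      Ch.Z (m0 + j) s 0 = hB (qq B l) bb v0 j := by
    intro m
    have key : ∀ j ≤ i + 1, ∃ s : Sd c D s0 κ0 κ1, s.1.1 = J + D.cs (s0 + (m0 + j : ℕ)) ∧
        Ch.Z (m0 + j) s 0 = hB (qq B l) bb v0 j := by
      intro j hj
      obtain ⟨h1, h2⟩ := X.labJ j hj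
      exact ex_at c D hi (m0 + j) h1 h2 (hov j)
    by_cases h : m0 ≤ m ∧ m ≤ m0 + (i + 1)
    · obtain ⟨s, hs⟩ := key (m - m0) (by omega)
      refine ⟨s, fun j _ hj => ?_⟩
      have : m - m0 = j := by omega
      rw [this] at hs
      exact hs
    · obtain ⟨s, -⟩ := key 0 (by omega)
      exact ⟨s, fun j hj hj' => by omega⟩
  choose ω hω using hexω
  have hω' : ∀ j ≤ i + 1, (ω (m0 + j)).1.1 = J + D.cs (s0 + (m0 + j : ℕ)) ∧
      Ch.Z (m0 + j) (ω (m0 + j)) 0 = hB (qq B l) bb v0 j :=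
    fun j hj => hω (m0 + j) j hj rfl
  have hωm : ∀ m, m0 ≤ m → m ≤ m0 + (i + 1) → (ω m).1.1 = J + D.cs (s0 + m) ∧
      Ch.Z m (ω m) 0 = hB (qq B l) bb v0 (m - m0) := by
    intro m hm hm'
    obtain ⟨j, rfl⟩ := Nat.exists_eq_add_of_le hm
    rw [Nat.add_sub_cancel_left]
    exact hω' j (by omega)
  -- the hole line
  have hexa : ∀ m, ∃ s : Sd c D s0 κ0 κ1, m0 ≤ m → m ≤ m0 + i → s.1.1 = W (m - m0) + D.cs (s0 + m) ∧
      Ch.Z m s 0 = hE (qq B l) bb v0 (m - m0) := by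
    intro m
    by_cases h : m0 ≤ m ∧ m ≤ m0 + i
    · obtain ⟨j, rfl⟩ := Nat.exists_eq_add_of_le h.1
      obtain ⟨h1, h2⟩ := X.lab j (by omega)
      obtain ⟨s, hs⟩ := ex_at c D hi (m0 + j) h1 h2 (how j (by omega))
      refine ⟨s, fun _ _ => ?_⟩
      rw [Nat.add_sub_cancel_left]
      exact hs
    · exact ⟨ω m0, fun h1 h2 => absurd ⟨h1, h2⟩ h⟩
  choose a ha using hexa
  -- the partners
  have hexα : ∀ m, ∃ s : Sd c D s0 κ0 κ1, m0 < m → m ≤ m0 + i →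
      s.1.1 = W (m - m0) + D.cs (s0 + m) + (if D.b (s0 + m) = true then 1 else -1) ∧
      P (Ch.Z m (a m) 0) = Ch.Z m s (Ch.h m s) := by
    intro m
    by_cases h : m0 < m ∧ m ≤ m0 + i
    · obtain ⟨j, hj⟩ := Nat.exists_eq_add_of_le h.1.le
      have h12 := X.labα j (by omega) (by omega)
      have hjm : m - m0 = j := by omega
      rw [← hj] at h12
      have h3 := (ha m h.1.le h.2).1
      rw [hjm] at h3 ⊢
      obtain ⟨hy, h4⟩ := hrg.wall c hi (by omega : m ≤ E) (a m)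
        (κ' := W j + D.cs (s0 + m) + (if D.b (s0 + m) = true then 1 else -1))
        (by rw [h3]; split_ifs <;> ring) h12.1 h12.2
      exact ⟨_, fun _ _ => ⟨rfl, h4⟩⟩
    · exact ⟨ω m0, fun h1 h2 => absurd ⟨h1, h2⟩ h⟩
  choose α hα using hexα
  -- basic facts
  have hPz : ∀ m (s : Sd c D s0 κ0 κ1), m ≤ E → P (Ch.Z m s 0) = Ch.Z m s 0 * B.q (l (wl (D.b (s0 + m)))) := by
    intro m s hm
    show Ch.Z m s 0 * B.q (l (g.mt c (Ch.Z m s 0))) = _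
    rw [hrg.mt_zero c s.2.1 s.2.2.1 hm (Z_over D c hi m s 0)]
  have huniq : ∀ m (s s' : Sd c D s0 κ0 κ1), m ≤ E → Ch.Z m s 0 = Ch.Z m s' 0 → s = s' := by
    intro m s s' hm h
    exact (H.inj m s 0 m s' 0 hm hm (Nat.zero_le _) (Nat.zero_le _) h).2.1
  have hom : ∀ m, m0 ≤ m → m ≤ m0 + i → P (Ch.Z m (ω m) 0) = Ch.Z m (ω (m + 1)) (Ch.h m (ω (m + 1))) := by
    intro m h1 h2
    rw [hPz m _ (by omega)]
    have h3 := (hωm (m + 1) (by omega) (by omega)).2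
    rw [cZ_up, show m + 1 - m0 = m - m0 + 1 by omega] at h3
    have h4 : hB (qq B l) bb v0 (m - m0 + 1) = Ch.Z m (ω m) 0 * (B.q (l (wl (D.b (s0 + m)))) * B.q (l .t)) := by
      rw [(hωm m h1 (by omega)).2]
      show hB (qq B l) bb v0 (m - m0) * (qq B l (wl (bb (m - m0))) * qq B l .t) = _
      have e : bb (m - m0) = D.b (s0 + m) := by
        show D.b (s0 + (m0 + (m - m0) : ℕ)) = _
        rw [show m0 + (m - m0) = m by omega]
      rw [e]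
      rfl
    rw [h4, ← mul_assoc] at h3
    exact (mul_right_cancel h3).symm
  have hoddh : ∀ m (s : Sd c D s0 κ0 κ1), 1 ≤ Ch.h m s ∧ H76.ll (D.b (s0 + m)) (Ch.h m s - 1) = ow (D.b (s0 + m)) := by
    intro m s
    have h1 := D.ln_pos s.1.1 (s0 + m)
    refine ⟨h1, ?_⟩
    unfold H76.ll
    rw [if_pos]
    show (D.ln s.1.1 (s0 + m) - 1) % 2 = 0
    unfold Bd.ln
    omega
  have h3a : ∀ m, m0 ≤ m → m < m0 + i → 3 ≤ Ch.h m (a m) := by
    intro m hm hm'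
    show 3 ≤ D.ln (a m).1.1 (s0 + m)
    obtain ⟨j, rfl⟩ := Nat.exists_eq_add_of_le hm
    have h1 := X.hw2 j (by omega)
    have h2 := (ha (m0 + j) hm hm'.le).1
    rw [Nat.add_sub_cancel_left] at h2
    rw [← h2] at h1
    unfold Bd.ln
    omega
  have hwE : ∀ m, m0 ≤ m → m < m0 + i → Ch.Z (m + 1) (a (m + 1)) 0 =
      Ch.Z m (a m) 0 * (B.q (l (ow (D.b (s0 + m)))) * B.q (l .t)) *
      (B.q (l (ow (D.b (s0 + (m + 1 : ℕ))))) * B.q (l (wl (D.b (s0 + (m + 1 : ℕ)))))) := by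
    intro m hm hm'
    rw [(ha (m + 1) (by omega) (by omega)).2, (ha m hm hm'.le).2, show m + 1 - m0 = m - m0 + 1 by omega]
    show hE (qq B l) bb v0 (m - m0) * (qq B l (ow (bb (m - m0))) * qq B l .t) *
      (qq B l (ow (bb (m - m0 + 1))) * qq B l (wl (bb (m - m0 + 1)))) = _
    have e : bb (m - m0) = D.b (s0 + m) := by
      show D.b (s0 + (m0 + (m - m0) : ℕ)) = _
      rw [show m0 + (m - m0) = m by omega]
    have e' : bb (m - m0 + 1) = D.b (s0 + (m + 1 : ℕ)) := by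
      show D.b (s0 + (m0 + (m - m0 + 1) : ℕ)) = _
      rw [show m0 + (m - m0 + 1) = m + 1 by omega]
    rw [e, e']
    rfl
  have hwal : ∀ m, m0 < m → m ≤ m0 + i → P (Ch.Z m (a m) 0) = Ch.Z m (α m) (Ch.h m (α m)) :=
    fun m h1 h2 => (hα m h1 h2).2
  have hlast : ∀ m, m0 ≤ m → m < m0 + i → Ch.Z (m + 1) (α (m + 1)) (Ch.h (m + 1) (α (m + 1)) - 1) =
      Ch.Z m (a m) 0 * (B.q (l (ow (D.b (s0 + m)))) * B.q (l .t)) := by
    intro m h1 h2
    obtain ⟨o1, o2⟩ := hoddh (m + 1) (α (m + 1))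
    have h3 := hwal (m + 1) (by omega) h2
    rw [hPz (m + 1) _ (by omega), hwE m h1 h2] at h3
    have h4 := cZ_succ c D (m + 1) (α (m + 1)) (Ch.h (m + 1) (α (m + 1)) - 1)
    rw [Nat.sub_add_cancel o1, o2, ← hCh, ← h3] at h4
    have h5 : ∀ x y z : Q, z * z = 1 → x * (y * z) * z = x * y := by
      intro x y z hz
      rw [mul_assoc, mul_assoc, hz, mul_one]
    rw [h5 _ _ _ (q_sq hi _)] at h4
    exact (mul_right_cancel h4).symm
  have hsea : ∀ m, m0 ≤ m → m < m0 + i →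
      P (Ch.Z m (a m) 1) = Ch.Z (m + 1) (α (m + 1)) (Ch.h (m + 1) (α (m + 1)) - 1) := by
    intro m h1 h2
    rw [hlast m h1 h2]
    have h3 := h3a m h1 h2
    show Ch.Z m (a m) 1 * B.q (l (g.mt c (Ch.Z m (a m) 1))) = _
    rw [hrg.mt_mid c (a m).2.1 (a m).2.2.1 (by omega : m ≤ E) (Z_over D c hi m (a m) 1) Nat.one_pos (by
      show 1 < Ch.h m (a m)
      omega)]
    have h4 := cZ_succ c D m (a m) 0
    rw [← hCh] at h4
    rw [h4, mul_assoc]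
    rfl
  have hf : ∀ m : ℕ, D.cs (s0 + (m + 1 : ℕ)) = D.cs (s0 + m) + if D.b (s0 + m) = true then 1 else -1 := by
    intro m
    have e : s0 + ((m + 1 : ℕ) : ℤ) = s0 + m + 1 := by push_cast; ring
    rw [e, D.hcs]
  have hαlab : ∀ m, m0 ≤ m → m < m0 + i → (α (m + 1)).1.1 = D.sk (a m).1.1 (s0 + m) := by
    intro m h1 h2
    obtain ⟨j, rfl⟩ := Nat.exists_eq_add_of_le h1
    have h3 := X.sk j (by omega)
    have e : s0 + ((m0 + j + 1 : ℕ) : ℤ) = s0 + (m0 + j : ℕ) + 1 := by push_cast; ring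
    rw [(hα (m0 + j + 1) (by omega) h2).1, (ha (m0 + j) h1 h2.le).1, Nat.add_sub_cancel_left, h3, e,
      show m0 + j + 1 - m0 = j + 1 by omega]
  have hline1 : ∀ m (s : Sd c D s0 κ0 κ1), Ch.h m s = 1 → Ch.Z m s (Ch.h m s) = Ch.Z m s 0 * B.q (l (ow (D.b (s0 + m)))) := by
    intro m s h1
    have h2 := cZ_succ c D m s 0
    rw [h1]
    rw [← hCh] at h2
    rw [h2]
    rfl
  -- the first block
  have hω0 : Ch.h m0 (ω m0) = 1 := by
    show D.ln (ω m0).1.1 (s0 + m0) = 1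
    rw [(hωm m0 le_rfl (by omega)).1]
    unfold Bd.ln
    rw [X.h0]
  have hp0 : P (Ch.Z m0 (a m0) 0) = Ch.Z m0 (ω m0) (Ch.h m0 (ω m0)) := by
    rw [hPz m0 _ (by omega), hline1 m0 _ hω0, (ha m0 le_rfl (by omega)).2, (hωm m0 le_rfl (by omega)).2, Nat.sub_self]
    show v0 * (qq B l (ow (bb 0)) * qq B l (wl (bb 0))) * B.q (l (wl (D.b (s0 + m0)))) = v0 * B.q (l (ow (D.b (s0 + m0))))
    have e : bb 0 = D.b (s0 + m0) := rfl
    rw [e]
    have h5 : ∀ x y z : Q, z * z = 1 → x * (y * z) * z = x * y := by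
      intro x y z hz
      rw [mul_assoc, mul_assoc, hz, mul_one]
    exact h5 _ _ _ (q_sq hi _)
  -- the last block
  have hωi : Ch.h (m0 + i) (ω (m0 + i + 1)) = 1 := by
    show D.ln (ω (m0 + i + 1)).1.1 (s0 + (m0 + i : ℕ)) = 1
    have h1 := (hωm (m0 + i + 1) (by omega) (by omega)).1
    have e : s0 + ((m0 + i + 1 : ℕ) : ℤ) = s0 + (m0 + i : ℕ) + 1 := by push_cast; ring
    rw [h1, e, ← X.wn]
    unfold Bd.ln
    rw [X.hn]
  have han : a (m0 + i) = ω (m0 + i + 1) := by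
    refine huniq (m0 + i) _ _ (by omega) ?_
    have h1 := hom (m0 + i) (by omega) le_rfl
    rw [hPz _ _ (by omega), hline1 _ _ hωi] at h1
    have h2 : Ch.Z (m0 + i) (ω (m0 + i + 1)) 0 =
        Ch.Z (m0 + i) (ω (m0 + i)) 0 * (B.q (l (wl (D.b (s0 + (m0 + i : ℕ))))) * B.q (l (ow (D.b (s0 + (m0 + i : ℕ)))))) := by
      rw [← mul_assoc, h1, mul_assoc, q_sq hi, mul_one]
    rw [h2, (ha (m0 + i) (by omega) le_rfl).2, Nat.add_sub_cancel_left, hclo, (hω' i (by omega)).2]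
  have hN : Hl2 P Ch ω a α m0 (m0 + i) := by
    refine
      { lt := by omega
        h0 := hω0
        p0 := hp0
        an := han
        hn := by rw [han]; exact hωi
        om := fun m h1 h2 => hom m h1 h2
        st := fun m h1 h2 => ⟨?_, ?_, hsea m h1 h2, hwal (m + 1) (by omega) h2⟩
        op := fun m h1 h2 h => ?_ }
    · exact le_trans (by norm_num) (h3a m h1 h2)
    · show 2 ≤ D.ln (α (m + 1)).1.1 (s0 + ((m + 1 : ℕ) : ℤ))
      have e : s0 + ((m + 1 : ℕ) : ℤ) = s0 + m + 1 := by push_cast; ring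
      rw [hαlab m h1 h2, e, ln_sk]
      have := h3a m h1 h2
      exact le_trans (by norm_num) this
    · have h3 := (ha m h1.le h2.le).1
      rw [h, (hωm m h1.le (by omega)).1] at h3
      exact X.op (m - m0) (by omega) (by omega) (by linarith)
  have L : Pl2 ω a α m0 (m0 + i) (fun m s => s.1.1 - D.cs (s0 + m)) (fun m => - if D.b (s0 + m) = true then 1 else -1) := by
    refine
      { kap := fun m s => ?_
        f0 := fun m => ?_
        kom := fun m h1 h2 => ?_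
        k0 := ?_
        kA := fun m h1 h2 => ?_
        kse := fun m h1 h2 => ?_
        ne := fun m h1 h2 h => ?_ }
    · show s.1.1 - D.cs (s0 + (m + 1 : ℕ)) = s.1.1 - D.cs (s0 + m) + -(if D.b (s0 + m) = true then 1 else -1)
      rw [hf]
      ring
    · show -(if D.b (s0 + m) = true then (1 : ℤ) else -1) ≠ 0
      split_ifs <;> norm_num
    · show (ω (m + 1)).1.1 - D.cs (s0 + m) = (ω m).1.1 - D.cs (s0 + m) - -(if D.b (s0 + m) = true then 1 else -1)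
      rw [(hωm (m + 1) (by omega) (by omega)).1, (hωm m h1 (by omega)).1, hf]
      ring
    · show (ω m0).1.1 - D.cs (s0 + m0) = (a m0).1.1 - D.cs (s0 + m0) - -(if D.b (s0 + m0) = true then 1 else -1)
      rw [(hωm m0 le_rfl (by omega)).1, (ha m0 le_rfl (by omega)).1, Nat.sub_self]
      have := X.w0
      linarith
    · show (α m).1.1 - D.cs (s0 + m) = (a m).1.1 - D.cs (s0 + m) - -(if D.b (s0 + m) = true then 1 else -1)
      rw [(hα m h1 h2).1, (ha m h1.le h2).1]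
      ring
    · show (-(if D.b (s0 + (m + 1 : ℕ)) = true then (1 : ℤ) else -1) = -(if D.b (s0 + m) = true then 1 else -1) ∧
          (α (m + 1)).1.1 - D.cs (s0 + (m + 1 : ℕ)) = (a m).1.1 - D.cs (s0 + (m + 1 : ℕ)) -
            -(if D.b (s0 + (m + 1 : ℕ)) = true then 1 else -1)) ∨
        (-(if D.b (s0 + (m + 1 : ℕ)) = true then (1 : ℤ) else -1) = - -(if D.b (s0 + m) = true then 1 else -1) ∧
          (α (m + 1)).1.1 - D.cs (s0 + (m + 1 : ℕ)) = (a m).1.1 - D.cs (s0 + (m + 1 : ℕ)))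
      rw [hαlab m h1 h2]
      have e : s0 + ((m + 1 : ℕ) : ℤ) = s0 + m + 1 := by push_cast; ring
      unfold Bd.sk
      rw [e]
      cases D.b (s0 + m) <;> cases D.b (s0 + m + 1)
      · exact Or.inl ⟨by simp, by simp; ring⟩
      · exact Or.inr ⟨by simp, by simp⟩
      · exact Or.inr ⟨by simp, by simp⟩
      · exact Or.inl ⟨by simp, by simp; ring⟩
    · have h3 := hαlab m h1 h2
      rw [h] at h3
      have hb : D.b (s0 + m) ≠ D.b (s0 + m + 1) := by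
        intro hb
        unfold Bd.sk at h3
        rw [← hb] at h3
        cases hbb : D.b (s0 + m) <;> rw [hbb] at h3 <;> simp at h3
        omega
      have h4 := hlast m h1 h2
      rw [h] at h4
      obtain ⟨j, rfl⟩ := Nat.exists_eq_add_of_le h1
      have h5 := (ha (m0 + j) h1 h2.le).1
      rw [Nat.add_sub_cancel_left] at h5
      refine X.ne_sea hi (by omega : j < i) h5 hb ?_
      rw [← hCh, h4]
      have h6 := cZ_succ c D (m0 + j) (a (m0 + j)) 0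
      rw [← hCh] at h6
      rw [h6, mul_assoc]
      rfl
  -- the moved strands
  set A : Set (Sd c D s0 κ0 κ1) := (ω '' Set.Icc m0 (m0 + i)) ∪ ((a '' Set.Icc m0 (m0 + i)) ∪ (α '' Set.Icc m0 (m0 + i)))
    with hA
  have hsup : ∀ m, m0 ≤ m → m ≤ m0 + i → ω m ∈ A ∧ a m ∈ A ∧ (m0 < m → α m ∈ A) := fun m h1 h2 =>
    ⟨Or.inl ⟨m, ⟨h1, h2⟩, rfl⟩, Or.inr (Or.inl ⟨m, ⟨h1, h2⟩, rfl⟩), fun _ => Or.inr (Or.inr ⟨m, ⟨h1, h2⟩, rfl⟩)⟩
  have hcard : A.ncard ≤ 3 * (i + 1) := by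
    have hI : (Set.Icc m0 (m0 + i)).ncard = i + 1 := by
      rw [← Finset.coe_Icc, Set.ncard_coe_finset, Nat.card_Icc]
      omega
    have him : ∀ f : ℕ → Sd c D s0 κ0 κ1, (f '' Set.Icc m0 (m0 + i)).ncard ≤ i + 1 := fun f => by
      rw [← hI]
      exact Set.ncard_image_le (Set.finite_Icc _ _)
    have h1 := him ω
    have h2 := him a
    have h3 := him α
    have h4 := Set.ncard_union_le (ω '' Set.Icc m0 (m0 + i)) ((a '' Set.Icc m0 (m0 + i)) ∪ (α '' Set.Icc m0 (m0 + i)))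
    have h5 := Set.ncard_union_le (a '' Set.Icc m0 (m0 + i)) (α '' Set.Icc m0 (m0 + i))
    rw [hA]
    omega
  obtain ⟨σ, s1, s2, s3, hne, s4⟩ := hN.real L H hE' hii hsup
  have hbr : ∀ j : ℕ, bb j = bw (ph + m0 + j) := by
    intro j
    show D.b (s0 + (m0 + j : ℕ)) = _
    rw [hbw]
    push_cast
    rw [add_assoc]
  refine ⟨ω, A, σ, fun j hj => ⟨(hω' j hj).1, ?_⟩, hcard, s1, Or.inl ⟨m0, ⟨le_rfl, by omega⟩, rfl⟩,
    Or.inl ⟨m0 + 1, ⟨by omega, by omega⟩, rfl⟩, hne, s2, s3, win_pair hne σ, ?_⟩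
  · rw [(hω' j hj).2, hB_pr hbr]
    rfl
  · have hNN := hN.chg L H hE'
    refine ⟨(hNN.mch H.mch).hf hii, fun x hx => ?_, ?_, s4⟩
    · rw [hNN.H_off H.mch hii, ← g.mch_hf c hl hi hq hii]
      rintro y ⟨m, s, r, m', s', r', h1, rfl, rfl⟩
      obtain ⟨v1, v2, v3⟩ := hN.val H hE' h1
      exact hx ⟨m, v1, v2, Ch.mem v3⟩
    · rintro x y ⟨j, hj, -⟩
      exact ⟨_, hj⟩

end HG

end Pool.Agent.Lib.MP_688fd0_co.SQ5.H60
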