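import Pool.Agent.Lib.MP_688fd0_co.SQ5.H60.Gad3
import Pool.Agent.Lib.MP_688fd0_co.SQ5.H60.DegW

/-!
MP_688fd0_co, type C2, FT, DEGEN3 (helper60): the six gadgets: geometry and closings.

Phase `x` of the first block: wall `Wd`: `x = 5, 7`, height 1; wall `Wd + 1`: `x = 1, 3, 6`, height 1, and `x = 0`, height 5.
-/

set_option autoImplicit false

namespace Pool.Agent.Lib.MP_688fd0_co.SQ5.H60

open Pool.Agent.Lib.MP_688fd0_co.OSF
open Pool.Agent.Lib.MP_688fd0_co.SQ5.H76 (L3 wl ow Bd qq bw col)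
open Pool.Agent.Lib.MP_688fd0_co.SQ5.H20 (LG KG SG)

universe u v

variable {Q : Type u} [Group Q] {B : Lb.{u, v} Q} {l : L3 → B.L} {D : Bd} {s0 ph Wd κ0 κ1 : ℤ}

theorem bwT {x : ℤ} (h : x % 8 = 0 ∨ x % 8 = 1 ∨ x % 8 = 3 ∨ x % 8 = 6) : bw x = true := decide_eq_true h

theorem bwF {x : ℤ} (h : x % 8 = 2 ∨ x % 8 = 4 ∨ x % 8 = 5 ∨ x % 8 = 7) : bw x = false :=
  decide_eq_false (by omega)

theorem colv {x r : ℤ} (h : x % 8 = r) : col x = if r = 0 then 0 else if r = 2 then 2 else if r = 4 then 2 else if r = 6 then 0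
    else 1 := by
  unfold col
  rw [h]

theorem hw_ge (D : Bd) {K : ℤ} (h : D.hw K % 2 = 0) : 2 ≤ D.hw K := by
  have := D.hpos K
  omega

/-- Everything in phases. -/
structure Phs (B : Lb.{u, v} Q) (l : L3 → B.L) (D : Bd) (Wd κ0 κ1 x : ℤ) (i : ℕ) (J : ℤ) (W : ℕ → ℤ) : Prop where
  ipos : 0 < i
  h0 : J - (if bw x = true then 1 else 0) = Wd
  w0 : W 0 + (if bw x = true then 1 else -1) = J
  sk : ∀ j < i, W j + (if bw (x + j + 1) = true then 1 else 0) - (if bw (x + j) = true then 0 else 1) =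
    W (j + 1) + (if bw (x + j) = true then 1 else -1) + if bw (x + j + 1) = true then 1 else -1
  ev : ∀ j < i, D.hw (W j - (if bw (x + j) = true then 1 else 0)) % 2 = 0
  hws : ∀ j < i, bw (x + j) = bw (x + j + 1) → D.hw (W j - (if bw (x + j) = true then 1 else 0)) = 2
  hn : W i - (if bw (x + i) = true then 1 else 0) = Wd
  wn : W i + col (x + i) = J + col (x + i + 1)
  op : ∀ j, 0 < j → j < i → W j ≠ J
  lab : ∀ j ≤ i, κ0 ≤ W j + col (x + j) ∧ W j + col (x + j) ≤ κ1
  labα : ∀ j, 0 < j → j ≤ i → κ0 ≤ W j + col (x + j) + (if bw (x + j) = true then 1 else -1) ∧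
    W j + col (x + j) + (if bw (x + j) = true then 1 else -1) ≤ κ1
  labJ : ∀ j ≤ i + 1, κ0 ≤ J + col (x + j) ∧ J + col (x + j) ≤ κ1

theorem Phs.hg (H : D3 D s0 ph Wd) (hd : Deg (B.q (l .a)) (B.q (l .b)) (B.q (l .t))) {m0 i : ℕ} {J : ℤ} {W : ℕ → ℤ}
    (P : Phs B l D Wd κ0 κ1 (ph + m0) i J W) : HG B l D s0 κ0 κ1 m0 i J W := by
  have hb : ∀ j : ℕ, D.b (s0 + (m0 + j : ℕ)) = bw (ph + m0 + j) := fun j => by
    rw [H.b]
    push_cast
    rw [add_assoc]
  have hb1 : ∀ j : ℕ, D.b (s0 + (m0 + j : ℕ) + 1) = bw (ph + m0 + j + 1) := fun j => by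
    rw [add_assoc s0, H.b]
    push_cast
    congr 1
    ring
  have hc : ∀ j : ℕ, D.cs (s0 + (m0 + j : ℕ)) = col (ph + m0 + j) := fun j => by
    rw [H.cs]
    push_cast
    rw [add_assoc]
  have hc1 : ∀ j : ℕ, D.cs (s0 + (m0 + j : ℕ) + 1) = col (ph + m0 + j + 1) := fun j => by
    rw [add_assoc s0, H.cs]
    push_cast
    congr 1
    ring
  have hcol : ∀ x : ℤ, col (x + 1) = col x + if bw x = true then 1 else -1 := H76.col_succ
  have hb0 : D.b (s0 + m0) = bw (ph + m0) := H.b m0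
  have hc0 : D.cs (s0 + m0) = col (ph + m0) := H.cs m0
  have hsp : ∀ (w : ℤ) (j : ℕ), D.sp (w + D.cs (s0 + (m0 + j : ℕ))) (s0 + (m0 + j : ℕ)) =
      w - if bw (ph + m0 + j) = true then 1 else 0 := fun w j => by
    unfold Bd.sp
    rw [hb]
    ring
  have hev := P.ev
  refine
    { ipos := P.ipos
      h0 := ?_
      w0 := ?_
      sk := fun j hj => ?_
      hw2 := fun j hj => ?_
      hws := fun j hj h => ?_
      ne := fun j hj => ?_
      hn := ?_
      wn := ?_
      op := P.op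
      lab := fun j hj => ?_
      labα := fun j h1 h2 => ?_
      labJ := fun j hj => ?_ }
  · have := hsp J 0
    rw [Nat.add_zero, Nat.cast_zero, add_zero] at this
    rw [this, P.h0]
    exact H.h0
  · rw [hb0, hc0]
    have := P.w0
    linarith
  · unfold Bd.sk
    rw [hb, hb1, hc, hc1, hcol]
    have := P.sk j hj
    linarith
  · rw [hsp]
    exact hw_ge D (P.ev j hj)
  · rw [hb, hb1] at h
    rw [hsp]
    exact P.hws j hj h
  · rw [hsp]
    exact hd.sea_ne (P.ev j hj) (D.hpos _)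
  · rw [hsp, P.hn]
    exact H.h0
  · rw [hc, hc1]
    exact P.wn
  · rw [hc]
    exact P.lab j hj
  · rw [hc, hb]
    exact P.labα j h1 h2
  · rw [hc]
    exact P.labJ j hj

theorem phs0 (H : D3 D s0 ph Wd) (hκ0 : κ0 ≤ Wd) (hκ1 : Wd + 3 ≤ κ1) {x : ℤ} (hx : x % 8 = 5 ∨ x % 8 = 7) :
    Phs B l D Wd κ0 κ1 x 1 Wd (fun _ => Wd + 1) := by
  have b0 : bw x = false := bwF (by omega)
  have b1 : bw (x + 1) = true := bwT (by omega)
  have c0 : col x = 1 := by
    rcases hx with h | h <;> rw [colv h] <;> norm_num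
  have c1 : col (x + 1) = 0 := by
    rcases hx with h | h
    · rw [colv (show (x + 1) % 8 = 6 by omega)]; norm_num
    · rw [colv (show (x + 1) % 8 = 0 by omega)]; norm_num
  have c2 : col (x + 1 + 1) = 1 := by
    rw [H76.col_succ, c1, b1]; norm_num
  refine ⟨one_pos, ?_, ?_, ?_, ?_, ?_, ?_, ?_, ?_, ?_, ?_, ?_⟩
  · simp [b0]
  · simp [b0]
  · intro j hj
    obtain rfl : j = 0 := by omega
    simp [b0, b1]
  · intro j hj
    obtain rfl : j = 0 := by omega
    simp [b0, H.h2]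
  · intro j hj h
    obtain rfl : j = 0 := by omega
    simp [b0, b1] at h
  · simp [b1]
  · simp only [Nat.cast_one]
    rw [c1, c2]
    ring
  · intro j h1 h2
    omega
  · intro j hj
    interval_cases j
    · simp only [Nat.cast_zero, add_zero]
      rw [c0]
      omega
    · simp only [Nat.cast_one]
      rw [c1]
      omega
  · intro j h1 h2
    obtain rfl : j = 1 := by omega
    simp only [Nat.cast_one]
    rw [c1, b1]
    simp
    omega
  · intro j hj
    interval_cases j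
    · simp only [Nat.cast_zero, add_zero]
      rw [c0]
      omega
    · simp only [Nat.cast_one]
      rw [c1]
      omega
    · have e : x + ((2 : ℕ) : ℤ) = x + 1 + 1 := by push_cast; ring
      rw [e, c2]
      omega

theorem phs1 (H : D3 D s0 ph Wd) (hκ0 : κ0 ≤ Wd) (hκ1 : Wd + 3 ≤ κ1) {x : ℤ} (hx : x % 8 = 1 ∨ x % 8 = 3 ∨ x % 8 = 6) :
    Phs B l D Wd κ0 κ1 x 1 (Wd + 1) (fun _ => Wd) := by
  have b0 : bw x = true := bwT (by omega)
  have b1 : bw (x + 1) = false := bwF (by omega)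
  obtain ⟨c0, c0'⟩ : 0 ≤ col x ∧ col x ≤ 1 := by
    rcases hx with h | h | h <;> rw [colv h] <;> norm_num
  have c1 : col (x + 1) = col x + 1 := by
    rw [H76.col_succ, b0]; norm_num
  have c2 : col (x + 1 + 1) = col x := by
    rw [H76.col_succ, c1, b1]; norm_num
  refine ⟨one_pos, ?_, ?_, ?_, ?_, ?_, ?_, ?_, ?_, ?_, ?_, ?_⟩
  · simp [b0]
  · simp [b0]
  · intro j hj
    obtain rfl : j = 0 := by omega
    simp [b0, b1]
  · intro j hj
    obtain rfl : j = 0 := by omega
    simp [b0, H.h1]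
  · intro j hj h
    obtain rfl : j = 0 := by omega
    simp [b0, b1] at h
  · simp [b1]
  · simp only [Nat.cast_one]
    rw [c1, c2]
    ring
  · intro j h1 h2
    omega
  · intro j hj
    interval_cases j
    · simp only [Nat.cast_zero, add_zero]
      omega
    · simp only [Nat.cast_one]
      rw [c1]
      omega
  · intro j h1 h2
    obtain rfl : j = 1 := by omega
    simp only [Nat.cast_one]
    rw [c1, b1]
    simp
    omega
  · intro j hj
    interval_cases j
    · simp only [Nat.cast_zero, add_zero]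
      omega
    · simp only [Nat.cast_one]
      rw [c1]
      omega
    · have e : x + ((2 : ℕ) : ℤ) = x + 1 + 1 := by push_cast; ring
      rw [e, c2]
      omega

/-- The walls of the hole line of the gadget of height 5. -/
def W5 (Wd : ℤ) (j : ℕ) : ℤ := if j = 0 ∨ j = 5 then Wd else Wd - 1

theorem phs5 (H : D3 D s0 ph Wd) (hκ0 : κ0 ≤ Wd) (hκ1 : Wd + 3 ≤ κ1) {x : ℤ} (hx : x % 8 = 0) :
    Phs B l D Wd κ0 κ1 x 5 (Wd + 1) (W5 Wd) := by
  have b0 : bw x = true := bwT (by omega)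
  have b1 : bw (x + 1) = true := bwT (by omega)
  have b2 : bw (x + 2) = false := bwF (by omega)
  have b3 : bw (x + 3) = true := bwT (by omega)
  have b4 : bw (x + 4) = false := bwF (by omega)
  have b5 : bw (x + 5) = false := bwF (by omega)
  have c0 : col x = 0 := by rw [colv hx]; norm_num
  have c1 : col (x + 1) = 1 := by rw [colv (show (x + 1) % 8 = 1 by omega)]; norm_num
  have c2 : col (x + 2) = 2 := by rw [colv (show (x + 2) % 8 = 2 by omega)]; norm_num
  have c3 : col (x + 3) = 1 := by rw [colv (show (x + 3) % 8 = 3 by omega)]; norm_num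
  have c4 : col (x + 4) = 2 := by rw [colv (show (x + 4) % 8 = 4 by omega)]; norm_num
  have c5 : col (x + 5) = 1 := by rw [colv (show (x + 5) % 8 = 5 by omega)]; norm_num
  have c6 : col (x + 6) = 0 := by rw [colv (show (x + 6) % 8 = 6 by omega)]; norm_num
  have e2 : x + 1 + 1 = x + 2 := by ring
  have e3 : x + 2 + 1 = x + 3 := by ring
  have e4 : x + 3 + 1 = x + 4 := by ring
  have e5 : x + 4 + 1 = x + 5 := by ring
  have e6 : x + 5 + 1 = x + 6 := by ring
  have w1 : Wd - 1 - 1 = Wd - 2 := by ring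
  refine ⟨by norm_num, ?_, ?_, ?_, ?_, ?_, ?_, ?_, ?_, ?_, ?_, ?_⟩
  · simp [b0]
  · simp [b0, W5]
  · intro j hj
    interval_cases j <;> simp [b0, b1, b2, b3, b4, b5, e2, e3, e4, e5, W5]
    all_goals ring
  · intro j hj
    interval_cases j <;> simp [b0, b1, b2, b3, b4, b5, W5, H.h1, w1, H.e1]
  · intro j hj h
    interval_cases j <;> simp [b0, b1, b2, b3, b4, b5, e2, e3, e4, e5] at h
    · simp [b0, W5, H.h1]
    · simp [b4, W5, H.h1]
  · simp [b5, W5]
  · simp only [Nat.cast_ofNat]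
    rw [c5, e6, c6]
    simp [W5]
  · intro j h1 h2
    interval_cases j <;> simp [W5]
    all_goals omega
  · intro j hj
    interval_cases j <;> simp [c0, c1, c2, c3, c4, c5, W5] <;> omega
  · intro j h1 h2
    interval_cases j <;> simp [c0, c1, c2, c3, c4, c5, b1, b2, b3, b4, b5, W5] <;> omega
  · intro j hj
    interval_cases j <;> simp [c0, c1, c2, c3, c4, c5, c6] <;> omega

/-! ### Closings -/

theorem clo_one (hd : Deg (B.q (l .a)) (B.q (l .b)) (B.q (l .t))) {b : ℕ → Bool} (h : b 1 ≠ b 0) (v0 : Q) :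
    hE (qq B l) b v0 1 = hB (qq B l) b v0 1 * (B.q (l (wl (b 1))) * B.q (l (ow (b 1)))) := by
  show v0 * (qq B l (ow (b 0)) * qq B l (wl (b 0))) * (qq B l (ow (b 0)) * qq B l .t) *
    (qq B l (ow (b 1)) * qq B l (wl (b 1))) = v0 * (qq B l (wl (b 0)) * qq B l .t) * _
  have key : (qq B l (ow (b 0)) * qq B l (wl (b 0))) * (qq B l (ow (b 0)) * qq B l .t) *
    (qq B l (ow (b 1)) * qq B l (wl (b 1))) = (qq B l (wl (b 0)) * qq B l .t) *
    (B.q (l (wl (b 1))) * B.q (l (ow (b 1)))) := by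
    cases h0 : b 0 <;> cases h1 : b 1
    · exact absurd (h1.trans h0.symm) h
    · exact hd.clo2
    · exact hd.clo1
    · exact absurd (h1.trans h0.symm) h
  calc _ = v0 * ((qq B l (ow (b 0)) * qq B l (wl (b 0))) * (qq B l (ow (b 0)) * qq B l .t) *
    (qq B l (ow (b 1)) * qq B l (wl (b 1)))) := by simp only [mul_assoc]
    _ = _ := by rw [key]; simp only [mul_assoc]

theorem clo_five (hd : Deg (B.q (l .a)) (B.q (l .b)) (B.q (l .t))) {b : ℕ → Bool} (h0 : b 0 = true) (h1 : b 1 = true)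
    (h2 : b 2 = false) (h3 : b 3 = true) (h4 : b 4 = false) (h5 : b 5 = false) (v0 : Q) :
    hE (qq B l) b v0 5 = hB (qq B l) b v0 5 * (B.q (l (wl (b 5))) * B.q (l (ow (b 5)))) := by
  show v0 * (qq B l (ow (b 0)) * qq B l (wl (b 0))) * (qq B l (ow (b 0)) * qq B l .t) *
    (qq B l (ow (b 1)) * qq B l (wl (b 1))) * (qq B l (ow (b 1)) * qq B l .t) *
    (qq B l (ow (b 2)) * qq B l (wl (b 2))) * (qq B l (ow (b 2)) * qq B l .t) *
    (qq B l (ow (b 3)) * qq B l (wl (b 3))) * (qq B l (ow (b 3)) * qq B l .t) *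
    (qq B l (ow (b 4)) * qq B l (wl (b 4))) * (qq B l (ow (b 4)) * qq B l .t) *
    (qq B l (ow (b 5)) * qq B l (wl (b 5))) =
    v0 * (qq B l (wl (b 0)) * qq B l .t) * (qq B l (wl (b 1)) * qq B l .t) * (qq B l (wl (b 2)) * qq B l .t) *
      (qq B l (wl (b 3)) * qq B l .t) * (qq B l (wl (b 4)) * qq B l .t) * _
  rw [h0, h1, h2, h3, h4, h5]
  have key := hd.clo5
  have key' := congrArg (fun y => v0 * y) key
  simp only [mul_assoc] at key' ⊢
  exact key'

end Pool.Agent.Lib.MP_688fd0_co.SQ5.H60
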