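import Pool.Agent.Lib.MP_688fd0_co.SQ5.H60.Conn3
import Pool.Agent.Lib.MP_688fd0_co.SQ5.H49.BaseZ

/-!
MP_688fd0_co, type C2, FT, DEGEN3 (helper60): the regions of a window `[Wd, Wd + 3]` around a 2-strip are connected by three
arcs (`conn_win3`); the two windows of the degenerate layout are a cluster (`conn_D`).
-/

set_option autoImplicit false

namespace Pool.Agent.Lib.MP_688fd0_co.SQ5.H60

open Function Pool.Agent.Lib.MP_688fd0_co.OSF Pool.Agent.Lib.MP_688fd0_co.SQ5.H95 Pool.Agent.Lib.MP_688fd0_co.SQ5.H76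
open Pool.Agent.Lib.MP_688fd0_co.SQ5.H53.RegC Pool.Agent.Lib.MP_688fd0_co.SQ5.H53.HConn

universe u v

variable {L : AddSubgroup (ℤ × ℤ)} {M R : ℕ} {dc : ℕ → ℤ} {spc : ℕ → Prop} {Gr : ℤ} {g : Geo L M R dc spc Gr} {m0 : ℕ}
  {hw : ℤ → ℕ} (H : Geo.Mn g m0 hw)

/-- The bundle of a run of the main group. -/
theorem d3_of (z : ℤ) {Wd : ℤ} (h0 : hw Wd = 1) (h1 : hw (Wd - 1) = 2) (h2 : hw (Wd + 1) = 2) (e1 : hw (Wd - 2) % 2 = 0)
    (e2 : hw (Wd + 2) % 2 = 0) : D3 (H.bd z) (g.rs z) (g.rp z) Wd where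
  b m := by
    show bw (g.rp z + (g.rs z + m - g.rs z)) = _
    rw [add_sub_cancel_left]
  cs m := by
    show col (g.rp z + (g.rs z + m - g.rs z)) = _
    rw [add_sub_cancel_left]
  h0 := h0
  h1 := h1
  h2 := h2
  e1 := e1
  e2 := e2

variable {Q : Type} [Group Q] {B : Lb.{0, v} Q} {l : L3 → B.L} (c : Cov B l L)
  (hi : ∀ i, B.inv (l i) = l i) (hq : Injective (qq B l)) (hii : ∀ x, B.inv (B.inv x) = x) {κ0 κ1 V0 V1 Wd : ℤ}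
  (h0 : 2 ≤ κ0) (h1 : κ1 ≤ m0) {p : ℕ} (hp : 2 ≤ p) (hN : ∀ z : Zr g, p ≤ g.rE z)
  (Λ : ∀ z : Zr g, SimpleGraph (VV c H κ0 κ1 V0 V1 z))

section arcs

variable {c}

include H hi in
/-- Three arcs between connected windows. -/
theorem arc3_d3 {z z' x : ℤ} (hz : z + 1 = z' + x * g.w.Et) (hk0 : κ0 ≤ Wd) (hk1 : Wd + 3 ≤ κ1)
    (hc : ∀ s s' : VL c (H.bd z) (g.rs z) κ0 κ1 Wd (Wd + 3), (H53.RegC.LamV c (H.bd z) (g.rs z) κ0 κ1 Wd (Wd + 3)).Reachable s s')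
    (hc' : ∀ s s' : VL c (H.bd z') (g.rs z') κ0 κ1 Wd (Wd + 3),
      (H53.RegC.LamV c (H.bd z') (g.rs z') κ0 κ1 Wd (Wd + 3)).Reachable s s')
    (s : VL c (H.bd z) (g.rs z) κ0 κ1 Wd (Wd + 3)) (s' : VL c (H.bd z') (g.rs z') κ0 κ1 Wd (Wd + 3)) :
    Arc3 (qq B l) (g.rE z) (dle g z) (H53.RegC.LamV c (H.bd z) (g.rs z) κ0 κ1 Wd (Wd + 3))
      (H53.RegC.LamV c (H.bd z') (g.rs z') κ0 κ1 Wd (Wd + 3)) s s' := by
  have ev := evt H hz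
  have hg := grf_lam c (H.bd z) (g.rs z) hk0 hk1 (fun _ => True)
  have hg' := grf_lam c (H.bd z') (g.rs z') hk0 hk1 (fun _ => True)
  obtain ⟨o, o1, o2⟩ : ∃ o : ℤ, (o = 0 ∨ o = 1) ∧ (0 ≤ o + dle g z ∧ o + dle g z ≤ 1) := by
    rcases dle_cases g z with h | h
    · exact ⟨1, Or.inr rfl, by rw [h]; norm_num⟩
    · exact ⟨0, Or.inl rfl, by rw [h]; norm_num⟩
  have lt : ∀ i : Fin 3, (i.1 : ℤ) ≤ 2 := fun i => by have := i.2; omega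
  have n1 : ∀ i : Fin 3, Nod c (H.bd z) (g.rs z) Wd (Wd + 3)
      (H53.RegC.mk (qq B l) (H.bd z) (g.rs z) 0 (row (qq B l) (H.bd z) (g.rs z) 0 s.1.1) (Wd + o + i.1)) := fun i =>
    nod_mk c hi (H.bd z) (m := 0) (hg.nod s) (by omega) (by have := lt i; omega)
  have n2 : ∀ i : Fin 3, Nod c (H.bd z') (g.rs z') Wd (Wd + 3) (pass (qq B l) (H.bd z) (g.rs z) (g.rE z) (dle g z)
      (H53.RegC.mk (qq B l) (H.bd z) (g.rs z) 0 (row (qq B l) (H.bd z) (g.rs z) 0 s.1.1) (Wd + o + i.1))) := fun i =>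
    nod_pass c hi ev (n1 i) (by show Wd ≤ Wd + o + i.1 + dle g z; omega)
      (by show Wd + o + i.1 + dle g z ≤ Wd + 3; have := lt i; omega)
  choose P hP using fun i => hg.exists_node (n1 i)
  choose P' hP' using fun i => hg'.exists_node (n2 i)
  refine ⟨P, P', fun i j hij => ?_, fun i j hij => ?_, fun i => ⟨hc _ _, hc' _ _, by rw [hP, hP']⟩⟩
  · have h3 : Wd + o + i.1 = Wd + o + j.1 := by
      have h4 := hP i
      have h5 := hP j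
      rw [hij, h5] at h4
      exact (congrArg Prod.fst h4).symm
    exact Fin.ext (by omega)
  · have h3 : Wd + o + i.1 + dle g z = Wd + o + j.1 + dle g z := by
      have h4 := hP' i
      have h5 := hP' j
      rw [hij, h5] at h4
      exact (congrArg Prod.fst h4).symm
    exact Fin.ext (by omega)

end arcs

variable (hV0 : V0 ≤ Wd) (hV1 : Wd + 3 ≤ V1)
  (hΛ : ∀ (z : Zr g) (s s' : VV c H κ0 κ1 V0 V1 z), (H20.Lam c (H.bd z) (g.rs z) κ0 κ1 Wd (Wd + 3)).Adj s.1 s'.1 →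
    (Λ z).Adj s s')
  (hk0 : κ0 ≤ Wd) (hk1 : Wd + 3 ≤ κ1)

include hi hk0 hk1 in
/-- The window of one run is connected. -/
theorem reach_d3 (z : ℤ) (X : D3 (H.bd z) (g.rs z) (g.rp z) Wd) (hd : Deg (B.q (l .a)) (B.q (l .b)) (B.q (l .t)))
    (hF : ∀ v y y', c.Over y v → c.Over y' v → y⁻¹ * y' ∈ H48.K0 (qq B l .a * qq B l .t) (qq B l .a * qq B l .b))
    (s s' : VL c (H.bd z) (g.rs z) κ0 κ1 Wd (Wd + 3)) :
    (H53.RegC.LamV c (H.bd z) (g.rs z) κ0 κ1 Wd (Wd + 3)).Reachable s s' := by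
  have hg := grf_lam c (H.bd z) (g.rs z) hk0 hk1 (fun _ => True)
  exact hg.reach (conn_d3 hi X hd hF (hg.nod s) (hg.nod s'))

include hV0 hV1 hΛ hk0 hk1 in
/-- THE REGIONS OF THE WINDOW ARE CONNECTED by steps of three arcs. -/
theorem conn_win3 (hX : ∀ z : ℤ, D3 (H.bd z) (g.rs z) (g.rp z) Wd) (hd : Deg (B.q (l .a)) (B.q (l .b)) (B.q (l .t)))
    (hF : ∀ v y y', c.Over y v → c.Over y' v → y⁻¹ * y' ∈ H48.K0 (qq B l .a * qq B l .t) (qq B l .a * qq B l .b))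
    (z z' : Zr g) (s : VV c H κ0 κ1 V0 V1 z) (s' : VV c H κ0 κ1 V0 V1 z') (a0 : Wd ≤ s.1.1.1)
    (a1 : s.1.1.1 ≤ Wd + 3) (a2 : Wd ≤ s'.1.1.1) (a3 : s'.1.1.1 ≤ Wd + 3) :
    Relation.ReflTransGen (fun r r' => WinR H c Λ Wd (Wd + 3) r ∧ WinR H c Λ Wd (Wd + 3) r' ∧
      (inst H c hi hq hii κ0 κ1 h0 h1 p hp hN).RAdj (VV c H κ0 κ1 V0 V1) (Rgs.cpC (VV c H κ0 κ1 V0 V1) Λ) r r')
      ⟨z, Rgs.cpC (VV c H κ0 κ1 V0 V1) Λ z s⟩ ⟨z', Rgs.cpC (VV c H κ0 κ1 V0 V1) Λ z' s'⟩ := by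
  have hc : ∀ z : Zr g, ∀ s s' : NW H c κ0 κ1 Wd (Wd + 3) z,
      (H53.RegC.LamV c (H.bd z) (g.rs z) κ0 κ1 Wd (Wd + 3)).Reachable s s' := fun z =>
    reach_d3 H c hi hk0 hk1 z (hX z) hd hF
  have h := conn_zr (N := fun z : Zr g => NW H c κ0 κ1 Wd (Wd + 3) z) (Rr H c hi hq hii h0 h1 hp hN Λ hV0 hV1)
    (rr_equiv H c hi hq hii h0 h1 hp hN Λ hV0 hV1) (fun z z' x hz s' => ?_) z (fun s s' => ?_) ⟨z, ⟨s.1, a0, a1⟩⟩
    ⟨z', ⟨s'.1, a2, a3⟩⟩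
  · exact rtg_mono (fun _ _ h => h.1) h
  · have ev := evt H (z := z) (z' := z') (x := x) hz
    have hg := grf_lam c (H.bd z) (g.rs z) hk0 hk1 (fun _ => True)
    have hg' := grf_lam c (H.bd z') (g.rs z') hk0 hk1 (fun _ => True)
    have n1 := nod_mk c hi (H.bd z') (m := 0) (hg'.nod s') (κ := Wd + 1) (by omega) (by omega)
    have n2 := nod_unpass c hi ev (k0 := Wd) (k1 := Wd + 3) n1
      (by show Wd ≤ Wd + 1 - dle g z; rcases dle_cases g z with h | h <;> rw [h] <;> omega)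
      (by show Wd + 1 - dle g z ≤ Wd + 3; rcases dle_cases g z with h | h <;> rw [h] <;> omega)
    obtain ⟨s1, -⟩ := hg.exists_node n2
    obtain ⟨h3, h4⟩ := st_of_arc3 H c hi hq hii h0 h1 hp hN Λ hV0 hV1 hΛ
      (arc3_d3 H hi hz hk0 hk1 (hc z) (hc z') s1 s')
    exact ⟨s1, Relation.ReflTransGen.single ⟨h3, h4⟩⟩
  · show Relation.ReflTransGen _ (reg H c Λ hV0 hV1 ⟨z, s⟩) (reg H c Λ hV0 hV1 ⟨z, s'⟩)
    rw [reg_eq H c Λ hV0 hV1 hΛ (hc z s s')]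

/-! ### The two windows -/

/-- The half widths of the degenerate layout. -/
structure Two3 (hw : ℤ → ℕ) (r : ℤ) : Prop where
  a0 : hw r % 2 = 0
  a1 : hw (r + 1) = 2
  a2 : hw (r + 2) = 1
  a3 : hw (r + 3) = 2
  a4 : hw (r + 4) % 2 = 0
  a5 : hw (r + 5) = 2
  a6 : hw (r + 6) = 1
  a7 : hw (r + 7) = 2
  a8 : hw (r + 8) % 2 = 0

theorem Two3.lo {hw : ℤ → ℕ} {r : ℤ} (T : Two3 hw r) {H : Geo.Mn g m0 hw} (z : ℤ) :
    D3 (H.bd z) (g.rs z) (g.rp z) (r + 2) :=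
  d3_of H z T.a2 (by rw [show r + 2 - 1 = r + 1 by ring]; exact T.a1)
    (by rw [show r + 2 + 1 = r + 3 by ring]; exact T.a3) (by rw [show r + 2 - 2 = r by ring]; exact T.a0)
    (by rw [show r + 2 + 2 = r + 4 by ring]; exact T.a4)

theorem Two3.up {hw : ℤ → ℕ} {r : ℤ} (T : Two3 hw r) {H : Geo.Mn g m0 hw} (z : ℤ) :
    D3 (H.bd z) (g.rs z) (g.rp z) (r + 6) :=
  d3_of H z T.a6 (by rw [show r + 6 - 1 = r + 5 by ring]; exact T.a5)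
    (by rw [show r + 6 + 1 = r + 7 by ring]; exact T.a7) (by rw [show r + 6 - 2 = r + 4 by ring]; exact T.a4)
    (by rw [show r + 6 + 2 = r + 8 by ring]; exact T.a8)

theorem conn_D {r : ℤ} (T : Two3 hw r) [Finite Q] (h0 : 2 ≤ κ0) (h1 : κ1 ≤ m0) {p : ℕ} (hp : 2 ≤ p)
    (hN : ∀ z : Zr g, p ≤ g.rE z) (hk0 : κ0 ≤ r + 2) (hk1 : r + 9 ≤ κ1) (hEt : 4 ≤ g.w.Et)
    (hd : Deg (B.q (l .a)) (B.q (l .b)) (B.q (l .t)))
    (hF : ∀ v y y', c.Over y v → c.Over y' v → y⁻¹ * y' ∈ H48.K0 (qq B l .a * qq B l .t) (qq B l .a * qq B l .b))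
    (hex : ∀ (z : Zr g) (κ : ℤ), ∃ y : Q, c.Over y ((H.bd z).st κ (g.rs z) 0)) :
    ∀ u : Unit, FT.Cls (FT.PAdj (inst H c hi hq hii κ0 κ1 h0 h1 p hp hN) (VV c H κ0 κ1 (r + 2) (r + 9))
      (H49.BaseZ.Lam2 H c κ0 κ1 (r + 2) (r + 5) (r + 9))) {r | (fun _ : Zr g => ()) r.1 = u} := by
  refine H49.BaseZ.conn2 H c hi hq hii hex h0 h1 p hp hN hk0 hk1 (by omega) (by omega) hEt ?_ ?_
  · intro z z' s s' a0 a1 a2 a3
    have h := conn_win3 H c hi hq hii h0 h1 hp hN (H49.BaseZ.Lam2 H c κ0 κ1 (r + 2) (r + 5) (r + 9)) (Wd := r + 2)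
      le_rfl (by omega) (fun z s s' h => ⟨Or.inl ⟨by have := h.1.2; omega, by have := h.2.1.2; omega⟩, h.2.2⟩) hk0 (by omega)
      (fun z => T.lo z) hd hF z z' s s' a0 (by omega) a2 (by omega)
    rw [show r + 2 + 3 = r + 5 by ring] at h
    exact h
  · intro z z' s s' a0 a1 a2 a3
    have h := conn_win3 H c hi hq hii h0 h1 hp hN (H49.BaseZ.Lam2 H c κ0 κ1 (r + 2) (r + 5) (r + 9)) (Wd := r + 6)
      (by omega) (by omega) (fun z s s' h => ⟨Or.inr ⟨by have := h.1.1; omega, by have := h.2.1.1; omega⟩, h.2.2⟩) (by omega)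
      (by omega) (fun z => T.up z) hd hF z z' s s' (by omega) (by omega) (by omega) (by omega)
    rw [show r + 6 + 3 = r + 9 by ring] at h
    rw [show r + 5 + 1 = r + 6 by ring]
    exact h

end Pool.Agent.Lib.MP_688fd0_co.SQ5.H60
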