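import Pool.Agent.Lib.MP_688fd0_co.SQ5.H22.Run

/-!
MP_688fd0_co, type C2, FT, DEGEN3 (helper60, finding 4381): T-gadgets whose first and last line are lines of a 2-strip.

As helper22's `Trail.Ok`, but in the first block the hole `A` crosses the line of `ω n0` (one edge), the wall and the first edge
of the line of `a n0`; in the last block it crosses the last edge of `α n`, the wall, the line of `a n` (one edge) and the wall of
`ω n`. The inner steps are wall steps. RESULT (`Ok2.real`): the blocks `n0 .. n` realise `win (ω n0) (ω (n0 + 1)) σ` with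
`σ (ω n0) = a n`, `σ (ω (n0 + 1)) = ω n`.
-/

set_option autoImplicit false

namespace Pool.Agent.Lib.MP_688fd0_co.SQ5.H60

open Function Equiv
open Pool.Agent.Lib.MP_688fd0_co.SQ5.H64
open Pool.Agent.Lib.MP_688fd0_co.SQ5.H22

variable {V S : Type*}

/-- The removed edges of the lines. -/
def Cut2 (C : Chart V S) (ω a α : ℕ → S) (n0 m : ℕ) (s : S) (r : ℕ) : Prop :=
  (m = n0 ∧ s = ω m ∧ r = 0) ∨ (n0 < m ∧ s = α m ∧ r + 1 = C.h m (α m)) ∨ (s = a m ∧ r = 0)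

/-- The edges of the new 2-factor `E`, and the wall indices `κ` (flow direction `f`). -/
structure Ok2 (C : Chart V S) (E : V → V → Prop) (ω a α : ℕ → S) (n0 n : ℕ) (κ : ℕ → S → ℤ) (f : ℕ → ℤ) : Prop where
  sym : ∀ x y, E x y → E y x
  lt : n0 < n
  h0 : C.h n0 (ω n0) = 1
  e0 : E (C.Z n0 (a n0) 0) (C.Z n0 (ω n0) 1)
  k0 : κ n0 (ω n0) = κ n0 (a n0) - f n0
  line : ∀ m s r, n0 ≤ m → m ≤ n → r < C.h m s → ¬ Cut2 C ω a α n0 m s r → E (C.Z m s r) (C.Z m s (r + 1))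
  gate : ∀ m s, n0 ≤ m → m < n → s ≠ ω (m + 1) → E (C.Z m s (C.h m s)) (C.Z (m + 1) s 0)
  sea : ∀ m, n0 ≤ m → m < n → E (C.Z m (a m) 1) (C.Z (m + 1) (α (m + 1)) (C.h (m + 1) (α (m + 1)) - 1))
  wall : ∀ m, n0 ≤ m → m < n → E (C.Z m (ω m) 0) (C.Z m (ω (m + 1)) (C.h m (ω (m + 1))))
  wA : ∀ m, n0 < m → m ≤ n → E (C.Z m (a m) 0) (C.Z m (α m) (C.h m (α m)))
  kA : ∀ m, n0 < m → m ≤ n → κ m (α m) = κ m (a m) - f m
  op : ∀ m, n0 < m → m < n → a m ≠ ω m ∧ ω (m + 1) ≠ α m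
  hα : ∀ m, n0 < m → m ≤ n → 2 ≤ C.h m (α m)
  ha : ∀ m, n0 ≤ m → m < n → 2 ≤ C.h m (a m)
  hn : C.h n (a n) = 1
  en : E (C.Z n (ω n) 0) (C.Z n (a n) 1)
  kn : κ n (a n) = κ n (ω n) - f n
  kap : ∀ m s, κ (m + 1) s = κ m s + f m
  kom : ∀ m, n0 ≤ m → m < n → κ m (ω (m + 1)) = κ m (ω m) - f m
  kse : ∀ m, n0 ≤ m → m < n →
    (f (m + 1) = f m ∧ κ (m + 1) (α (m + 1)) = κ (m + 1) (a m) - f (m + 1)) ∨
    (f (m + 1) = - f m ∧ κ (m + 1) (α (m + 1)) = κ (m + 1) (a m))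
  f0 : ∀ m, f m ≠ 0
  ne : ∀ m, n0 ≤ m → m < n → α (m + 1) ≠ a m

variable [DecidableEq S]

/-- The strand fed by the sea. -/
def o2 (ω a : ℕ → S) (m : ℕ) : S := if a m = ω (m + 1) then ω m else a m

/-- The strand which leads to the sea. -/
def g2 (ω α : ℕ → S) (m : ℕ) : S := if α m = ω m then ω (m + 1) else α m

/-- The lower ends of an inner block. -/
def lo2 (C : Chart V S) (ω α : ℕ → S) (m : ℕ) (s : S) : V :=
  if s = ω m then C.Z m (α m) (C.h m (α m) - 1) else C.Z m s 0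

/-- The upper ends of an inner block. -/
def up2 (C : Chart V S) (ω a : ℕ → S) (m : ℕ) (s : S) : V :=
  if s = ω (m + 1) then C.Z m (a m) 1 else C.Z m s (C.h m s)

namespace Ok2

variable {C : Chart V S} {E : V → V → Prop} {ω a α : ℕ → S} {n0 n : ℕ} {κ : ℕ → S → ℤ} {f : ℕ → ℤ}

omit [DecidableEq S] in
theorem ω_ne (H : Ok2 C E ω a α n0 n κ f) {m : ℕ} (h1 : n0 ≤ m) (h2 : m < n) : ω (m + 1) ≠ ω m := by
  intro h
  have := H.kom m h1 h2
  rw [h] at this
  have := H.f0 m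
  omega

theorem lo_mem (C : Chart V S) (ω α : ℕ → S) (m : ℕ) (s : S) : lo2 C ω α m s ∈ C.blk m := by
  unfold lo2
  split_ifs
  · exact C.mem (Nat.sub_le _ _)
  · exact C.mem (Nat.zero_le _)

theorem up_mem (H : Ok2 C E ω a α n0 n κ f) {m : ℕ} (h1 : n0 ≤ m) (h2 : m < n) (s : S) : up2 C ω a m s ∈ C.blk m := by
  unfold up2
  split_ifs
  · have := H.ha m h1 h2
    exact C.mem (by omega)
  · exact C.mem le_rfl

theorem lo_self (C : Chart V S) (ω α : ℕ → S) (m : ℕ) : lo2 C ω α m (ω m) = C.Z m (α m) (C.h m (α m) - 1) := by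
  simp [lo2]

theorem lo_of_ne {m : ℕ} {s : S} (h : s ≠ ω m) : lo2 C ω α m s = C.Z m s 0 := by
  simp [lo2, h]

theorem up_self (C : Chart V S) (ω a : ℕ → S) (m : ℕ) : up2 C ω a m (ω (m + 1)) = C.Z m (a m) 1 := by
  simp [up2]

theorem up_of_ne {m : ℕ} {s : S} (h : s ≠ ω (m + 1)) : up2 C ω a m s = C.Z m s (C.h m s) := by
  simp [up2, h]

omit [DecidableEq S] in
/-- A line without cut. -/
theorem uncut (H : Ok2 C E ω a α n0 n κ f) {m : ℕ} (h1 : n0 ≤ m) (h2 : m ≤ n) {s : S} {r r' : ℕ} (h3 : r ≤ r')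
    (h4 : r' ≤ C.h m s) (h5 : ∀ t, r ≤ t → t < r' → ¬ Cut2 C ω a α n0 m s t) :
    Cn E (C.blk m) (C.Z m s r) (C.Z m s r') :=
  seg r r' h3 h4 fun t h6 h7 => H.line m s t h1 h2 (by omega) (h5 t h6 h7)

omit [DecidableEq S] in
/-- The wall edge of the hole `B`. -/
theorem cwall (H : Ok2 C E ω a α n0 n κ f) {m : ℕ} (h1 : n0 ≤ m) (h2 : m < n) :
    Cn E (C.blk m) (C.Z m (ω (m + 1)) (C.h m (ω (m + 1)))) (C.Z m (ω m) 0) :=
  Cn.of (H.sym _ _ (H.wall m h1 h2)) (C.mem le_rfl) (C.mem (Nat.zero_le _))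

/-! ### The first block -/

omit [DecidableEq S] in
theorem aω (H : Ok2 C E ω a α n0 n κ f) : a n0 ≠ ω n0 ∧ a n0 ≠ ω (n0 + 1) := by
  have h1 := H.k0
  have h2 := H.kom n0 le_rfl H.lt
  have h3 := H.f0 n0
  constructor
  · intro h
    rw [h] at h1
    omega
  · intro h
    rw [h] at h1
    omega

theorem first (H : Ok2 C E ω a α n0 n κ f) :
    Real E (C.blk n0) (fun s => C.Z n0 s 0) (up2 C ω a n0) (win (ω n0) (ω (n0 + 1)) (swap (ω n0) (a n0))) := by
  have hlt := H.lt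
  have hne := (H.ω_ne le_rfl hlt).symm
  obtain ⟨ha1, ha2⟩ := H.aω
  have h0 := H.h0
  have cut : ∀ s r, Cut2 C ω a α n0 n0 s r → (s = ω n0 ∨ s = a n0) ∧ r = 0 := by
    rintro s r (⟨_, h1, h2⟩ | ⟨h1, _⟩ | ⟨h1, h2⟩)
    · exact ⟨Or.inl h1, h2⟩
    · omega
    · exact ⟨Or.inr h1, h2⟩
  have hx : ∀ r r', 1 ≤ r → r ≤ r' → r' ≤ C.h n0 (a n0) → Cn E (C.blk n0) (C.Z n0 (a n0) r) (C.Z n0 (a n0) r') :=
    fun r r' h1 h2 h3 => H.uncut le_rfl hlt.le h2 h3 fun t h4 _ h6 => by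
      have := (cut _ _ h6).2
      omega
  have hs : ∀ s, s ≠ ω n0 → s ≠ a n0 → ∀ r r', r ≤ r' → r' ≤ C.h n0 s → Cn E (C.blk n0) (C.Z n0 s r) (C.Z n0 s r') :=
    fun s h1 h1' r r' h2 h3 => H.uncut le_rfl hlt.le h2 h3 fun t _ _ h6 => by
      rcases (cut _ _ h6).1 with h7 | h7
      · exact h1 h7
      · exact h1' h7
  have hha := H.ha n0 le_rfl hlt
  have he : Cn E (C.blk n0) (C.Z n0 (a n0) 0) (C.Z n0 (ω n0) 1) :=
    Cn.of H.e0 (C.mem (Nat.zero_le _)) (C.mem h0.ge)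
  refine Real.of_win H.sym hne _ (fun s => C.mem (Nat.zero_le _)) (fun s => H.up_mem le_rfl hlt s) ?_ ?_ ?_ ?_
  · refine Cn.symm' H.sym ((hs _ hne.symm ha2.symm 0 _ (Nat.zero_le _) le_rfl).trans' ?_)
    exact H.cwall le_rfl hlt
  · rw [swap_apply_left, swap_apply_of_ne_of_ne hne.symm ha2.symm, up_self, up_of_ne ha2]
    exact Cn.symm' H.sym (hx 1 _ le_rfl (by omega) le_rfl)
  · intro s h1 h2
    by_cases h3 : s = a n0
    · rw [h3, swap_apply_right, up_of_ne hne, h0]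
      exact he
    · rw [swap_apply_of_ne_of_ne h1 h3, up_of_ne h2]
      exact hs s h1 h3 0 _ (Nat.zero_le _) le_rfl
  · rintro v ⟨s, r, hr, rfl⟩
    by_cases h1 : s = ω n0
    · subst h1
      rcases Nat.eq_zero_or_pos r with h2 | h2
      · subst h2
        exact Or.inl ⟨ω n0, Cn.rfl' _⟩
      · refine Or.inr ⟨ω n0, ?_⟩
        rw [up_of_ne hne, h0, show r = 1 by omega]
        exact Cn.rfl' _
    · by_cases h2 : s = a n0
      · subst h2
        rcases Nat.eq_zero_or_pos r with h3 | h3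
        · subst h3
          exact Or.inl ⟨a n0, Cn.rfl' _⟩
        · refine Or.inr ⟨a n0, ?_⟩
          rw [up_of_ne ha2]
          exact hx r _ h3 hr le_rfl
      · exact Or.inl ⟨s, Cn.symm' H.sym (hs s h1 h2 0 r (Nat.zero_le _) hr)⟩

/-! ### The last block -/

omit [DecidableEq S] in
theorem aωn (H : Ok2 C E ω a α n0 n κ f) : a n ≠ ω n ∧ α n ≠ ω n ∧ α n ≠ a n := by
  have h1 := H.kn
  have h2 := H.kA n H.lt le_rfl
  have h3 := H.f0 n
  refine ⟨?_, ?_, ?_⟩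
  · intro h
    rw [h] at h1
    omega
  · intro h
    rw [h] at h2
    omega
  · intro h
    rw [h] at h2
    omega

theorem last (H : Ok2 C E ω a α n0 n κ f) :
    Real E (C.blk n) (lo2 C ω α n) (fun s => C.Z n s (C.h n s)) (win (ω n) (α n) (swap (α n) (a n))) := by
  have hlt := H.lt
  obtain ⟨e1, e2, e3⟩ := H.aωn
  have hj := H.hα n hlt le_rfl
  have hn := H.hn
  have cut : ∀ s r, Cut2 C ω a α n0 n s r → (s = α n ∧ r + 1 = C.h n (α n)) ∨ (s = a n ∧ r = 0) := by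
    rintro s r (⟨h1, _⟩ | ⟨_, h1, h2⟩ | ⟨h1, h2⟩)
    · omega
    · exact Or.inl ⟨h1, h2⟩
    · exact Or.inr ⟨h1, h2⟩
  have hs : ∀ s, s ≠ α n → s ≠ a n → ∀ r r', r ≤ r' → r' ≤ C.h n s → Cn E (C.blk n) (C.Z n s r) (C.Z n s r') :=
    fun s h1 h1' r r' h2 h3 => H.uncut hlt.le le_rfl h2 h3 fun t _ _ h6 => by
      rcases cut _ _ h6 with h7 | h7
      · exact h1 h7.1
      · exact h1' h7.1
  have hα : ∀ r r', r ≤ r' → r' ≤ C.h n (α n) - 1 → Cn E (C.blk n) (C.Z n (α n) r) (C.Z n (α n) r') :=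
    fun r r' h2 h3 => H.uncut hlt.le le_rfl h2 (by omega) fun t _ h5 h6 => by
      rcases cut _ _ h6 with h7 | h7
      · have := h7.2
        omega
      · exact e3 h7.1
  have hen : Cn E (C.blk n) (C.Z n (a n) 1) (C.Z n (ω n) (C.h n (ω n))) := by
    refine Cn.trans' (Cn.of (H.sym _ _ H.en) (C.mem hn.ge) (C.mem (Nat.zero_le _))) ?_
    exact hs _ e2.symm e1.symm 0 _ (Nat.zero_le _) le_rfl
  have hwa : Cn E (C.blk n) (C.Z n (a n) 0) (C.Z n (α n) (C.h n (α n))) :=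
    Cn.of (H.wA n hlt le_rfl) (C.mem (Nat.zero_le _)) (C.mem le_rfl)
  refine Real.of_win H.sym e2.symm _ (fun s => lo_mem C ω α n s) (fun s => C.mem le_rfl) ?_ ?_ ?_ ?_
  · rw [lo_self, lo_of_ne e2]
    exact Cn.symm' H.sym (hα 0 _ (Nat.zero_le _) le_rfl)
  · rw [swap_apply_of_ne_of_ne e2.symm e1.symm, swap_apply_left, hn]
    exact Cn.symm' H.sym hen
  · intro s h1 h2
    rw [lo_of_ne h1]
    by_cases h3 : s = a n
    · rw [h3, swap_apply_right]
      exact hwa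
    · rw [swap_apply_of_ne_of_ne h2 h3]
      exact hs s h2 h3 0 _ (Nat.zero_le _) le_rfl
  · rintro v ⟨s, r, hr, rfl⟩
    by_cases h1 : s = α n
    · subst h1
      rcases Nat.lt_or_ge (C.h n (α n) - 1) r with h2 | h2
      · have : r = C.h n (α n) := by omega
        subst this
        exact Or.inr ⟨α n, Cn.rfl' _⟩
      · refine Or.inl ⟨ω n, ?_⟩
        rw [lo_self]
        exact hα r _ h2 le_rfl
    · by_cases h3 : s = a n
      · subst h3
        rcases Nat.eq_zero_or_pos r with h4 | h4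
        · subst h4
          exact Or.inr ⟨α n, hwa⟩
        · refine Or.inr ⟨a n, ?_⟩
          rw [hn, show r = 1 by omega]
          exact Cn.rfl' _
      · exact Or.inr ⟨s, hs s h1 h3 r _ hr le_rfl⟩

/-! ### The inner blocks -/

theorem mid (H : Ok2 C E ω a α n0 n κ f) {m : ℕ} (h1 : n0 < m) (h2 : m < n) :
    ∃ τ : Perm S, τ (ω m) = ω (m + 1) ∧ τ (g2 ω α m) = o2 ω a m ∧ g2 ω α m ≠ ω m ∧
      (∀ s, s ≠ ω m → s ≠ ω (m + 1) → s ≠ α m → s ≠ a m → τ s = s) ∧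
      Real E (C.blk m) (lo2 C ω α m) (up2 C ω a m) (win (ω m) (g2 ω α m) τ) := by
  have hw : ω (m + 1) ≠ ω m := H.ω_ne h1.le h2
  have hf := H.f0 m
  have hko := H.kom m h1.le h2
  have hip := H.ha m h1.le h2
  have hjp := H.hα m h1 h2.le
  have hE := H.wA m h1 h2.le
  have hk := H.kA m h1 h2.le
  obtain ⟨haω, hωα⟩ := H.op m h1 h2
  have haα : a m ≠ α m := by
    intro h
    rw [h] at hk
    omega
  have cut : ∀ s r, Cut2 C ω a α n0 m s r → (s = α m ∧ r + 1 = C.h m (α m)) ∨ (s = a m ∧ r = 0) := by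
    rintro s r (⟨h3, _⟩ | ⟨_, h3, h4⟩ | ⟨h3, h4⟩)
    · omega
    · exact Or.inl ⟨h3, h4⟩
    · exact Or.inr ⟨h3, h4⟩
  have hs : ∀ s, s ≠ α m → s ≠ a m → ∀ r r', r ≤ r' → r' ≤ C.h m s →
      Cn E (C.blk m) (C.Z m s r) (C.Z m s r') :=
    fun s h1' h1'' r r' h2' h3 => H.uncut h1.le h2.le h2' h3 fun t _ _ h6 => by
      rcases cut _ _ h6 with h7 | h7
      · exact h1' h7.1
      · exact h1'' h7.1
  have hα : ∀ r r', r ≤ r' → r' ≤ C.h m (α m) - 1 → Cn E (C.blk m) (C.Z m (α m) r) (C.Z m (α m) r') :=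
    fun r r' h2' h3 => H.uncut h1.le h2.le h2' (by omega) fun t _ h5 h6 => by
      rcases cut _ _ h6 with h7 | h7
      · have := h7.2
        omega
      · exact haα h7.1.symm
  have hβ : ∀ r r', 1 ≤ r → r ≤ r' → r' ≤ C.h m (a m) → Cn E (C.blk m) (C.Z m (a m) r) (C.Z m (a m) r') :=
    fun r r' h0 h2' h3 => H.uncut h1.le h2.le h2' h3 fun t h5 _ h6 => by
      rcases cut _ _ h6 with h7 | h7
      · exact haα h7.1
      · have := h7.2
        omega
  have hwa : Cn E (C.blk m) (C.Z m (a m) 0) (C.Z m (α m) (C.h m (α m))) :=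
    Cn.of hE (C.mem (Nat.zero_le _)) (C.mem le_rfl)
  have hupα : up2 C ω a m (α m) = C.Z m (α m) (C.h m (α m)) := up_of_ne (Ne.symm hωα)
  have hall : ∀ v ∈ C.blk m, (∃ s, Cn E (C.blk m) v (lo2 C ω α m s)) ∨ ∃ s, Cn E (C.blk m) v (up2 C ω a m s) := by
    rintro v ⟨s, r, hr, rfl⟩
    by_cases h3 : s = α m
    · subst h3
      rcases Nat.lt_or_ge (C.h m (α m) - 1) r with h4 | h4
      · have h5 : r = C.h m (α m) := by omega
        refine Or.inr ⟨α m, ?_⟩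
        rw [hupα, h5]
        exact Cn.rfl' _
      · refine Or.inl ⟨ω m, ?_⟩
        rw [lo_self]
        exact hα r _ h4 le_rfl
    · by_cases h4 : s = a m
      · subst h4
        rcases Nat.eq_zero_or_pos r with h5 | h5
        · subst h5
          refine Or.inr ⟨α m, ?_⟩
          rw [hupα]
          exact hwa
        · refine Or.inr ⟨ω (m + 1), ?_⟩
          rw [up_self]
          exact Cn.symm' H.sym (hβ 1 r le_rfl h5 hr)
      · by_cases h5 : s = ω (m + 1)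
        · refine Or.inl ⟨s, ?_⟩
          rw [lo_of_ne (by rw [h5]; exact hw)]
          exact Cn.symm' H.sym (hs s h3 h4 0 r (Nat.zero_le _) hr)
        · refine Or.inr ⟨s, ?_⟩
          rw [up_of_ne h5]
          exact hs s h3 h4 r _ hr le_rfl
  have hi1 : 1 ≤ C.h m (a m) := by omega
  by_cases hαω : α m = ω m
  · have hg : g2 ω α m = ω (m + 1) := by simp [g2, hαω]
    have haω' : a m ≠ ω (m + 1) := by
      intro h
      rw [← h] at hko
      rw [hαω] at hk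
      omega
    have ho : o2 ω a m = a m := by simp [o2, haω']
    rw [hg, ho]
    have t1 : (swap (ω m) (a m) * swap (ω m) (ω (m + 1))) (ω m) = ω (m + 1) := by
      rw [Perm.mul_apply, swap_apply_left, swap_apply_of_ne_of_ne hw haω'.symm]
    have t2 : (swap (ω m) (a m) * swap (ω m) (ω (m + 1))) (ω (m + 1)) = a m := by
      rw [Perm.mul_apply, swap_apply_right, swap_apply_left]
    refine ⟨swap (ω m) (a m) * swap (ω m) (ω (m + 1)), t1, t2, hw, fun s a1 a2 _ a4 => by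
        rw [Perm.mul_apply, swap_apply_of_ne_of_ne a1 a2, swap_apply_of_ne_of_ne a1 a4],
      Real.of_win H.sym hw.symm _ (fun s => lo_mem C ω α m s) (fun s => H.up_mem h1.le h2 s) ?_ ?_ ?_ hall⟩
    · rw [lo_self, lo_of_ne hw]
      refine Cn.symm' H.sym ((hs _ hωα haω'.symm 0 _ (Nat.zero_le _) le_rfl).trans' ((H.cwall h1.le h2).trans' ?_))
      rw [← hαω]
      exact hα 0 _ (Nat.zero_le _) le_rfl
    · rw [t1, t2, up_self, up_of_ne haω']
      exact hβ 1 _ le_rfl hi1 le_rfl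
    · intro s h3 h4
      rw [lo_of_ne h3]
      by_cases h5 : s = a m
      · have t3 : (swap (ω m) (a m) * swap (ω m) (ω (m + 1))) s = α m := by
          rw [Perm.mul_apply, swap_apply_of_ne_of_ne h3 h4, h5, swap_apply_right, hαω]
        rw [t3, hupα, h5]
        exact hwa
      · rw [Perm.mul_apply, swap_apply_of_ne_of_ne h3 h4, swap_apply_of_ne_of_ne h3 h5, up_of_ne h4]
        exact hs s (by rw [hαω]; exact h3) h5 0 _ (Nat.zero_le _) le_rfl
  · have hg : g2 ω α m = α m := by simp [g2, hαω]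
    rw [hg]
    have t1 : (swap (ω m) (ω (m + 1)) * swap (α m) (a m)) (ω m) = ω (m + 1) := by
      rw [Perm.mul_apply, swap_apply_of_ne_of_ne (Ne.symm hαω) haω.symm, swap_apply_left]
    have t2 : (swap (ω m) (ω (m + 1)) * swap (α m) (a m)) (α m) = o2 ω a m := by
      rw [Perm.mul_apply, swap_apply_left]
      by_cases h3 : a m = ω (m + 1)
      · rw [h3, swap_apply_right]
        simp [o2, h3]
      · rw [swap_apply_of_ne_of_ne haω h3]
        simp [o2, h3]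
    refine ⟨swap (ω m) (ω (m + 1)) * swap (α m) (a m), t1, t2, hαω, fun s a1 a2 a3 a4 => by
        rw [Perm.mul_apply, swap_apply_of_ne_of_ne a3 a4, swap_apply_of_ne_of_ne a1 a2],
      Real.of_win H.sym (Ne.symm hαω) _ (fun s => lo_mem C ω α m s) (fun s => H.up_mem h1.le h2 s) ?_ ?_ ?_ hall⟩
    · rw [lo_self, lo_of_ne hαω]
      exact Cn.symm' H.sym (hα 0 _ (Nat.zero_le _) le_rfl)
    · rw [t1, t2, up_self]
      by_cases h3 : a m = ω (m + 1)
      · have ho : o2 ω a m = ω m := by simp [o2, h3]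
        rw [ho, up_of_ne hw.symm]
        refine (hβ 1 _ le_rfl hi1 le_rfl).trans' ?_
        have h4 := H.cwall h1.le h2
        rw [← h3] at h4
        exact h4.trans' (hs _ (Ne.symm hαω) haω.symm 0 _ (Nat.zero_le _) le_rfl)
      · have ho : o2 ω a m = a m := by simp [o2, h3]
        rw [ho, up_of_ne h3]
        exact hβ 1 _ le_rfl hi1 le_rfl
    · intro s h3 h4
      rw [lo_of_ne h3]
      by_cases h5 : s = a m
      · have t3 : (swap (ω m) (ω (m + 1)) * swap (α m) (a m)) s = α m := by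
          rw [Perm.mul_apply, h5, swap_apply_right, swap_apply_of_ne_of_ne hαω (Ne.symm hωα)]
        rw [t3, hupα, h5]
        exact hwa
      · rw [Perm.mul_apply, swap_apply_of_ne_of_ne h4 h5]
        by_cases h6 : s = ω (m + 1)
        · subst h6
          rw [swap_apply_right, up_of_ne hw.symm]
          exact (hs _ h4 h5 0 _ (Nat.zero_le _) le_rfl).trans' ((H.cwall h1.le h2).trans'
            (hs _ (Ne.symm hαω) haω.symm 0 _ (Nat.zero_le _) le_rfl))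
        · rw [swap_apply_of_ne_of_ne h3 h6, up_of_ne h6]
          exact hs s h4 h5 0 _ (Nat.zero_le _) le_rfl

/-! ### No loops -/

theorem o_ne (H : Ok2 C E ω a α n0 n κ f) {m : ℕ} (h1 : n0 ≤ m) (h2 : m + 1 < n) : g2 ω α (m + 1) ≠ o2 ω a m := by
  have e1 := H.kse m h1 (by omega)
  have e2 := H.kom m h1 (by omega)
  have e3 := H.kom (m + 1) (by omega) h2
  have e4 := H.ne m h1 (by omega)
  have f1 := H.f0 m
  have f2 := H.f0 (m + 1)
  have k1 := H.kap m (ω m)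
  have k2 := H.kap m (ω (m + 1))
  intro h
  unfold g2 o2 at h
  split_ifs at h with h3 h4 h4
  · exact e4 (h3.trans h4.symm)
  · rw [h] at e3
    rw [h3] at e1
    rcases e1 with ⟨e5, e6⟩ | ⟨e5, e6⟩ <;> omega
  · rw [h4] at e1
    rw [h] at e1
    rcases e1 with ⟨e5, e6⟩ | ⟨e5, e6⟩ <;> omega
  · exact e4 h

theorem o_ne_last (H : Ok2 C E ω a α n0 n κ f) {m : ℕ} (h1 : n0 ≤ m) (h2 : m + 1 = n) : α n ≠ o2 ω a m := by
  subst h2
  have e1 := H.kse m h1 (by omega)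
  have e2 := H.kom m h1 (by omega)
  have e4 := H.ne m h1 (by omega)
  have f1 := H.f0 m
  have f2 := H.f0 (m + 1)
  have k1 := H.kap m (ω m)
  have k2 := H.kap m (ω (m + 1))
  intro h
  unfold o2 at h
  split_ifs at h with h4
  · rw [h4] at e1
    rw [h] at e1
    rcases e1 with ⟨e5, e6⟩ | ⟨e5, e6⟩ <;> omega
  · exact e4 h

/-! ### The stack -/

theorem glue (H : Ok2 C E ω a α n0 n κ f) {m : ℕ} (h1 : n0 ≤ m) (h2 : m < n) (s : S) :
    E (up2 C ω a m s) (lo2 C ω α (m + 1) s) := by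
  by_cases h : s = ω (m + 1)
  · subst h
    rw [up_self, lo_self]
    exact H.sea m h1 h2
  · rw [up_of_ne h, lo_of_ne h]
    exact H.gate m s h1 h2 h

theorem part [Finite S] (H : Ok2 C E ω a α n0 n κ f) {A : Set S}
    (hA : ∀ m, n0 ≤ m → m ≤ n → ω m ∈ A ∧ a m ∈ A ∧ (n0 < m → α m ∈ A)) : ∀ d : ℕ, n0 + d < n → ∃ σ : Perm S,
    (∀ s, s ∉ A → σ s = s) ∧ σ (ω n0) = o2 ω a (n0 + d) ∧ σ (ω (n0 + 1)) = ω (n0 + d + 1) ∧
    Real E (C.reg n0 (n0 + d)) (fun s => C.Z n0 s 0) (up2 C ω a (n0 + d)) (win (ω n0) (ω (n0 + 1)) σ) := by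
  have hne : ω n0 ≠ ω (n0 + 1) := (H.ω_ne le_rfl H.lt).symm
  obtain ⟨ha1, ha2⟩ := H.aω
  have neA : ∀ {s t : S}, s ∉ A → t ∈ A → s ≠ t := fun hs ht h => hs (h ▸ ht)
  have ho : ∀ m, n0 ≤ m → m < n → o2 ω a m ∈ A := by
    intro m h1 h2
    unfold o2
    split_ifs
    · exact (hA m h1 h2.le).1
    · exact (hA m h1 h2.le).2.1
  have hgA : ∀ m, n0 < m → m < n → g2 ω α m ∈ A := by
    intro m h1 h2
    unfold g2
    split_ifs
    · exact (hA (m + 1) (by omega) h2).1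
    · exact (hA m h1.le h2.le).2.2 h1
  intro d
  induction d with
  | zero =>
    intro _
    refine ⟨swap (ω n0) (a n0), fun s hs => ?_, ?_, ?_, ?_⟩
    · exact swap_apply_of_ne_of_ne (neA hs (hA n0 le_rfl H.lt.le).1) (neA hs (hA n0 le_rfl H.lt.le).2.1)
    · rw [swap_apply_left]
      change _ = o2 ω a n0
      rw [o2, if_neg ha2]
    · exact swap_apply_of_ne_of_ne hne.symm ha2.symm
    · change Real E (C.reg n0 n0) _ (up2 C ω a n0) _
      rw [C.reg_self]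
      exact H.first
  | succ d ih =>
    intro hd
    obtain ⟨σ, s0, s1, s2, s3⟩ := ih (by omega)
    obtain ⟨τ, t1, t2, t3, t0, t4⟩ := H.mid (m := n0 + d + 1) (by omega) (by omega)
    have h1 : g2 ω α (n0 + d + 1) ≠ σ (ω n0) := by
      rw [s1]
      exact H.o_ne (by omega) (by omega)
    have h2 : g2 ω α (n0 + d + 1) ≠ σ (ω (n0 + 1)) := by
      rw [s2]
      exact t3
    have h3 : σ (ω n0) ≠ σ (ω (n0 + 1)) := fun h => hne (σ.injective h)
    have h5 : ∀ s, s ∉ A → (τ * swap (σ (ω n0)) (g2 ω α (n0 + d + 1)) * σ) s = s := by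
      intro s hs
      have e1 : s ≠ σ (ω n0) := neA hs (s1 ▸ ho _ (by omega) (by omega))
      have e2 : s ≠ g2 ω α (n0 + d + 1) := neA hs (hgA (n0 + d + 1) (by omega) hd)
      rw [Perm.mul_apply, s0 s hs, Perm.mul_apply, swap_apply_of_ne_of_ne e1 e2]
      exact t0 s (neA hs (hA (n0 + d + 1) (by omega) (by omega)).1) (neA hs (hA (n0 + d + 1 + 1) (by omega) hd).1)
        (neA hs ((hA (n0 + d + 1) (by omega) (by omega)).2.2 (by omega))) (neA hs (hA (n0 + d + 1) (by omega) (by omega)).2.1)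
    rw [← s2] at t1 t4
    refine ⟨τ * swap (σ (ω n0)) (g2 ω α (n0 + d + 1)) * σ, h5, ?_, ?_, ?_⟩
    · rw [Perm.mul_apply, Perm.mul_apply, swap_apply_left, t2]
      rfl
    · rw [Perm.mul_apply, Perm.mul_apply, swap_apply_of_ne_of_ne h3.symm h2.symm, t1]
      rfl
    · rw [← stk_win hne h1 h2]
      change Real E (C.reg n0 (n0 + d + 1)) _ (up2 C ω a (n0 + d + 1)) _
      rw [C.reg_succ (by omega)]
      exact Real.stack H.sym (win_pair hne σ) (win_pair h2.symm τ) s3 t4 (fun s => H.glue (by omega) (by omega) s)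
        (noLoop_win hne h1 h2)

/-- THE T-GADGET. -/
theorem real [Finite S] (H : Ok2 C E ω a α n0 n κ f) {A : Set S}
    (hA : ∀ m, n0 ≤ m → m ≤ n → ω m ∈ A ∧ a m ∈ A ∧ (n0 < m → α m ∈ A)) : ∃ σ : Perm S,
    (∀ s, s ∉ A → σ s = s) ∧ σ (ω n0) = a n ∧ σ (ω (n0 + 1)) = ω n ∧
    Real E (C.reg n0 n) (fun s => C.Z n0 s 0) (fun s => C.Z n s (C.h n s)) (win (ω n0) (ω (n0 + 1)) σ) := by
  have hlt := H.lt
  obtain ⟨d, hd⟩ : ∃ d, n = n0 + d + 1 := ⟨n - n0 - 1, by omega⟩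
  have hne : ω n0 ≠ ω (n0 + 1) := (H.ω_ne le_rfl H.lt).symm
  have neA : ∀ {s t : S}, s ∉ A → t ∈ A → s ≠ t := fun hs ht h => hs (h ▸ ht)
  obtain ⟨σ, s0, s1, s2, s3⟩ := H.part hA d (by omega)
  have t4 := H.last
  obtain ⟨b1, b2, b3⟩ := H.aωn
  have h1 : α n ≠ σ (ω n0) := by
    rw [s1]
    exact H.o_ne_last (by omega) hd.symm
  have h2 : α n ≠ σ (ω (n0 + 1)) := by
    rw [s2, ← hd]
    exact b2
  have h3 : σ (ω n0) ≠ σ (ω (n0 + 1)) := fun h => hne (σ.injective h)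
  have h4 : ω n = σ (ω (n0 + 1)) := by rw [s2, hd]
  have h6 : σ (ω n0) ∈ A := by
    by_contra hc
    have h7 := σ.injective (s0 _ hc)
    rw [h7] at hc
    exact hc (hA n0 le_rfl hlt.le).1
  rw [h4] at t4
  refine ⟨swap (α n) (a n) * swap (σ (ω n0)) (α n) * σ, fun s hs => ?_, ?_, ?_, ?_⟩
  · have e1 := neA hs ((hA n hlt.le le_rfl).2.2 hlt)
    rw [Perm.mul_apply, s0 s hs, Perm.mul_apply, swap_apply_of_ne_of_ne (neA hs h6) e1,
      swap_apply_of_ne_of_ne e1 (neA hs (hA n hlt.le le_rfl).2.1)]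
  · rw [Perm.mul_apply, Perm.mul_apply, swap_apply_left, swap_apply_left]
  · rw [Perm.mul_apply, Perm.mul_apply, swap_apply_of_ne_of_ne h3.symm h2.symm, ← h4,
      swap_apply_of_ne_of_ne b2.symm b1.symm]
  · rw [← stk_win hne h1 h2]
    have h5 : C.reg n0 n = C.reg n0 (n0 + d) ∪ C.blk n := by
      rw [hd]
      exact C.reg_succ (by omega)
    rw [h5]
    refine Real.stack H.sym (win_pair hne σ) (win_pair h2.symm _) s3 t4 (fun s => ?_) (noLoop_win hne h1 h2)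
    have := H.glue (m := n0 + d) (by omega) (by omega) s
    rwa [← hd] at this

end Ok2

end Pool.Agent.Lib.MP_688fd0_co.SQ5.H60
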